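import Pool.Agent.Lib.MP_9bb24e_co.Basic

/-!
Elementary geometry of the edges of a polygon.
-/

set_option autoImplicit false

namespace Pool.Agent.Lib.MP_9bb24e_co

open Finset

variable {n : ℕ} {q : ℕ → ℝ × ℝ}

theorem ht_symm {a b : ℝ × ℝ} (h : a.1 ≠ b.1) (x : ℝ) : ht a b x = ht b a x := by
  unfold ht
  have h1 : b.1 - a.1 ≠ 0 := sub_ne_zero.mpr h.symm
  have h2 : a.1 - b.1 ≠ 0 := sub_ne_zero.mpr h
  field_simp
  ring

theorem ht_left (a b : ℝ × ℝ) : ht a b a.1 = a.2 := by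
  unfold ht
  simp

theorem ht_right {a b : ℝ × ℝ} (h : a.1 ≠ b.1) : ht a b b.1 = b.2 := by
  rw [ht_symm h, ht_left]

/-- `ht` is affine. -/
theorem ht_affine (a b : ℝ × ℝ) (x y l : ℝ) :
    ht a b ((1 - l) * x + l * y) = (1 - l) * ht a b x + l * ht a b y := by
  unfold ht
  ring

theorem mem_segment_ht {a b : ℝ × ℝ} {x : ℝ} (h : a.1 ≠ b.1)
    (hx : (a.1 ≤ x ∧ x ≤ b.1) ∨ (b.1 ≤ x ∧ x ≤ a.1)) : (x, ht a b x) ∈ segment ℝ a b := by
  have h1 : b.1 - a.1 ≠ 0 := sub_ne_zero.mpr h.symm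
  refine ⟨(b.1 - x) / (b.1 - a.1), (x - a.1) / (b.1 - a.1), ?_, ?_, ?_, ?_⟩
  · rcases hx with hx | hx
    · exact div_nonneg (by linarith) (by linarith)
    · exact div_nonneg_of_nonpos (by linarith) (by linarith)
  · rcases hx with hx | hx
    · exact div_nonneg (by linarith) (by linarith)
    · exact div_nonneg_of_nonpos (by linarith) (by linarith)
  · field_simp
    ring
  · ext
    · simp only [Prod.fst_add, Prod.smul_fst, smul_eq_mul]
      field_simp
      ring
    · simp only [Prod.snd_add, Prod.smul_snd, smul_eq_mul]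
      unfold ht
      field_simp
      ring

theorem above_iff_cross {a b v : ℝ × ℝ} (h1 : a.1 < v.1) (h2 : v.1 < b.1) :
    Above a b v ↔ 0 < cross a v b := by
  have h3 : 0 < b.1 - a.1 := by linarith
  have key : v.2 < ht a b v.1 ↔ 0 < cross a v b := by
    unfold ht cross
    rw [← sub_lt_iff_lt_add', lt_div_iff₀ h3]
    constructor <;> intro h <;> linarith
  unfold Above Spans
  rw [key]
  exact ⟨fun h => h.2, fun h => ⟨Or.inl ⟨h1, h2⟩, h⟩⟩

theorem spans_symm {a b : ℝ × ℝ} {x : ℝ} : Spans a b x ↔ Spans b a x := by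
  unfold Spans
  tauto

theorem Spans.ne {a b : ℝ × ℝ} {x : ℝ} (h : Spans a b x) : a.1 ≠ b.1 := by
  rcases h with h | h
  · exact (h.1.trans h.2).ne
  · exact (h.1.trans h.2).ne'

theorem above_symm {a b v : ℝ × ℝ} : Above a b v ↔ Above b a v := by
  unfold Above
  constructor
  · rintro ⟨h1, h2⟩
    exact ⟨spans_symm.mp h1, by rwa [← ht_symm h1.ne]⟩
  · rintro ⟨h1, h2⟩
    exact ⟨spans_symm.mp h1, by rwa [← ht_symm h1.ne]⟩

theorem spans_iff {a b : ℝ × ℝ} {x : ℝ} :
    Spans a b x ↔ min a.1 b.1 < x ∧ x < max a.1 b.1 := by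
  unfold Spans
  rcases lt_or_ge a.1 b.1 with h | h
  · rw [min_eq_left h.le, max_eq_right h.le]
    constructor
    · rintro (h1 | h1)
      · exact h1
      · exact absurd (h1.1.trans h1.2) (not_lt.mpr h.le)
    · exact Or.inl
  · rw [min_eq_right h, max_eq_left h]
    constructor
    · rintro (h1 | h1)
      · exact absurd (h1.1.trans h1.2) (not_lt.mpr h)
      · exact h1
    · exact Or.inr

theorem Pg.q_n (h : Pg n q) : q n = q 0 := by
  have := h.per 0
  rwa [zero_add] at this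

theorem Pg.succ_inj (P : Pg n q) {i j : ℕ} (hi : i < n) (hj : j < n)
    (h : (q (i + 1)).1 = (q (j + 1)).1) : i = j := by
  have hn := P.three
  rcases Nat.lt_or_ge (i + 1) n with h1 | h1 <;> rcases Nat.lt_or_ge (j + 1) n with h2 | h2
  · have := P.xinj _ h1 _ h2 h
    omega
  · have e : j + 1 = n := by omega
    rw [e, P.q_n] at h
    have := P.xinj _ h1 _ (by omega) h
    omega
  · have e : i + 1 = n := by omega
    rw [e, P.q_n] at h
    have := P.xinj _ (by omega) _ h2 h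
    omega
  · omega

/-- indices with the same abscissa, the second one possibly being `n` -/
theorem Pg.eq_of_succ (P : Pg n q) {i j : ℕ} (hi : i < n) (hj : j < n)
    (h : (q i).1 = (q (j + 1)).1) : i = j + 1 ∨ (i = 0 ∧ j + 1 = n) := by
  have hn := P.three
  rcases Nat.lt_or_ge (j + 1) n with h2 | h2
  · left
    exact P.xinj _ hi _ h2 h
  · right
    have e : j + 1 = n := by omega
    rw [e, P.q_n] at h
    exact ⟨P.xinj _ hi _ (by omega) h, e⟩

theorem Pg.ne_succ (P : Pg n q) {i : ℕ} (hi : i < n) : (q i).1 ≠ (q (i + 1)).1 := by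
  intro h
  have hn := P.three
  rcases P.eq_of_succ hi hi h with h1 | ⟨h1, h2⟩ <;> omega

/-- Separation of edges: if edges `i ≠ j` have both `x1` and `x2` in their closed abscissa ranges
and no common end point has abscissa in `[x1, x2]`, their vertical order at `x1` and at `x2` is the
same and strict. -/
theorem edge_sep (h : Pg n q) {i j : ℕ} (hi : i < n) (hj : j < n) (hij : i ≠ j) {x1 x2 : ℝ}
    (h12 : x1 ≤ x2)
    (hi1 : min (q i).1 (q (i + 1)).1 ≤ x1) (hi2 : x2 ≤ max (q i).1 (q (i + 1)).1)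
    (hj1 : min (q j).1 (q (j + 1)).1 ≤ x1) (hj2 : x2 ≤ max (q j).1 (q (j + 1)).1)
    (hc : ∀ k l, (k = i ∨ k = i + 1) → (l = j ∨ l = j + 1) → q k = q l →
      (q k).1 < x1 ∨ x2 < (q k).1) :
    (ht (q i) (q (i + 1)) x1 < ht (q j) (q (j + 1)) x1 ∧
      ht (q i) (q (i + 1)) x2 < ht (q j) (q (j + 1)) x2) ∨
    (ht (q j) (q (j + 1)) x1 < ht (q i) (q (i + 1)) x1 ∧
      ht (q j) (q (j + 1)) x2 < ht (q i) (q (i + 1)) x2) := by
  have hseg : ∀ k, k < n → ∀ t, min (q k).1 (q (k + 1)).1 ≤ t → t ≤ max (q k).1 (q (k + 1)).1 →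
      (t, ht (q k) (q (k + 1)) t) ∈ segment ℝ (q k) (q (k + 1)) := by
    intro k hk t h1 h2
    refine mem_segment_ht (h.ne_succ hk) ?_
    rcases le_total (q k).1 (q (k + 1)).1 with h3 | h3
    · rw [min_eq_left h3] at h1
      rw [max_eq_right h3] at h2
      exact Or.inl ⟨h1, h2⟩
    · rw [min_eq_right h3] at h1
      rw [max_eq_left h3] at h2
      exact Or.inr ⟨h1, h2⟩
  have hne : ∀ t, x1 ≤ t → t ≤ x2 → ht (q i) (q (i + 1)) t ≠ ht (q j) (q (j + 1)) t := by
    intro t ht1 ht2 heq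
    have m1 := hseg i hi t (hi1.trans ht1) (ht2.trans hi2)
    have m2 := hseg j hj t (hj1.trans ht1) (ht2.trans hj2)
    rw [← heq] at m2
    obtain ⟨e1, e2⟩ := h.simple i hi j hj hij _ m1 m2
    have : ∃ k, (k = i ∨ k = i + 1) ∧ (t, ht (q i) (q (i + 1)) t) = q k := by
      rcases e1 with e | e
      · exact ⟨_, Or.inl rfl, e⟩
      · exact ⟨_, Or.inr rfl, e⟩
    obtain ⟨k, hk, ek⟩ := this
    have : ∃ l, (l = j ∨ l = j + 1) ∧ (t, ht (q i) (q (i + 1)) t) = q l := by
      rcases e2 with e | e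
      · exact ⟨_, Or.inl rfl, e⟩
      · exact ⟨_, Or.inr rfl, e⟩
    obtain ⟨l, hl, el⟩ := this
    have h3 := hc k l hk hl (ek.symm.trans el)
    have h4 : (q k).1 = t := by rw [← ek]
    rw [h4] at h3
    rcases h3 with h3 | h3
    · exact absurd ht1 (not_le.mpr h3)
    · exact absurd ht2 (not_le.mpr h3)
  -- a sign change would give a zero
  have hzero : ∀ (a b : ℕ), (∀ t, x1 ≤ t → t ≤ x2 →
      ht (q a) (q (a + 1)) t ≠ ht (q b) (q (b + 1)) t) →
      ht (q a) (q (a + 1)) x1 < ht (q b) (q (b + 1)) x1 →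
      ht (q a) (q (a + 1)) x2 < ht (q b) (q (b + 1)) x2 := by
    intro a b hab hlt
    by_contra hcon
    push Not at hcon
    set u := ht (q b) (q (b + 1)) x1 - ht (q a) (q (a + 1)) x1 with hu
    set v := ht (q a) (q (a + 1)) x2 - ht (q b) (q (b + 1)) x2 with hv
    have hu0 : 0 < u := by rw [hu]; linarith
    have hv0 : 0 ≤ v := by rw [hv]; linarith
    set l := u / (u + v) with hl
    have huv : 0 < u + v := by linarith
    have hl0 : 0 ≤ l := div_nonneg hu0.le huv.le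
    have hl1 : l ≤ 1 := by
      rw [hl, div_le_one huv]
      linarith
    refine hab ((1 - l) * x1 + l * x2) (by nlinarith) (by nlinarith) ?_
    rw [ht_affine, ht_affine]
    have e : (u + v) * l = u := by
      rw [hl, mul_div_cancel₀ _ huv.ne']
    have e2 : (1 - l) * ht (q a) (q (a + 1)) x1 + l * ht (q a) (q (a + 1)) x2 -
        ((1 - l) * ht (q b) (q (b + 1)) x1 + l * ht (q b) (q (b + 1)) x2) = (u + v) * l - u := by
      rw [hu, hv]
      ring
    linarith
  rcases lt_or_gt_of_ne (hne x1 le_rfl h12) with h1 | h1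
  · exact Or.inl ⟨h1, hzero i j hne h1⟩
  · exact Or.inr ⟨h1, hzero j i (fun t h2 h3 => (hne t h2 h3).symm) h1⟩

end Pool.Agent.Lib.MP_9bb24e_co
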