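import Pool.Agent.Lib.MP_9bb24e_co.Basic
import Pool.Agent.Lib.MP_9bb24e_co.Geom

/-!
Module C: turning number in the vertical direction (double count over pairs of edges).
-/

set_option autoImplicit false

namespace Pool.Agent.Lib.MP_9bb24e_co

open Finset

/-- Separation of edges, as a statement on the end points. -/
def SepQ (a b c d : ℝ × ℝ) : Prop :=
  ∀ x1 x2 : ℝ, x1 ≤ x2 → min a.1 b.1 ≤ x1 → x2 ≤ max a.1 b.1 → min c.1 d.1 ≤ x1 →
    x2 ≤ max c.1 d.1 →
    (ht a b x1 < ht c d x1 ∧ ht a b x2 < ht c d x2) ∨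
      (ht c d x1 < ht a b x1 ∧ ht c d x2 < ht a b x2)

theorem ht_symmQ {a b : ℝ × ℝ} (h : a.1 ≠ b.1) (x : ℝ) : ht a b x = ht b a x := by
  have h1 : b.1 - a.1 ≠ 0 := sub_ne_zero.mpr (Ne.symm h)
  have h2 : a.1 - b.1 ≠ 0 := sub_ne_zero.mpr h
  unfold ht
  have h3 : (a.1 - b.1) = -(b.1 - a.1) := by ring
  rw [h3]
  field_simp
  ring

theorem ht_leftQ {a b : ℝ × ℝ} : ht a b a.1 = a.2 := by
  unfold ht; simp

theorem ht_rightQ {a b : ℝ × ℝ} (h : a.1 ≠ b.1) : ht a b b.1 = b.2 := by
  rw [ht_symmQ h, ht_leftQ]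

theorem lt_ht_iffQ {a b v : ℝ × ℝ} (h1 : a.1 < v.1) (h2 : v.1 < b.1) :
    v.2 < ht a b v.1 ↔ 0 < cross a v b := by
  have h3 : 0 < b.1 - a.1 := by linarith
  unfold ht cross
  rw [← sub_pos]
  have : a.2 + (v.1 - a.1) * (b.2 - a.2) / (b.1 - a.1) - v.2 =
      ((v.1 - a.1) * (b.2 - a.2) - (v.2 - a.2) * (b.1 - a.1)) / (b.1 - a.1) := by
    field_simp
    ring
  rw [this]
  constructor
  · intro h
    by_contra hc
    have := div_nonpos_of_nonpos_of_nonneg (not_lt.mp hc) h3.le
    linarith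
  · intro h
    exact div_pos h h3

open Classical in
/-- Contribution of the vertex `v` and the edge `a b`. -/
noncomputable def GGC (v a b : ℝ × ℝ) : ℤ :=
  if Spans a b v.1 then
    (if a.1 < b.1 then 1 else -1) * (if v.2 < ht a b v.1 then 1 else -1)
  else 0

theorem spans_symmQ {a b : ℝ × ℝ} {x : ℝ} : Spans a b x ↔ Spans b a x := by
  unfold Spans; tauto

theorem GG_symmC {v a b : ℝ × ℝ} (h : a.1 ≠ b.1) : GGC v b a = - GGC v a b := by
  classical
  unfold GGC
  rw [ht_symmQ h]
  by_cases hs : Spans a b v.1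
  · have hs' : Spans b a v.1 := spans_symmQ.mp hs
    rw [if_pos hs, if_pos hs']
    rcases lt_or_gt_of_ne h with h1 | h1
    · rw [if_neg (not_lt.mpr h1.le), if_pos h1]; ring
    · rw [if_pos h1, if_neg (not_lt.mpr h1.le)]; ring
  · have hs' : ¬ Spans b a v.1 := fun hh => hs (spans_symmQ.mp hh)
    rw [if_neg hs, if_neg hs']; rfl

theorem GG_leftC {a b : ℝ × ℝ} : GGC a a b = 0 := by
  unfold GGC
  rw [if_neg]
  unfold Spans
  rintro (⟨h, _⟩ | ⟨_, h⟩) <;> exact lt_irrefl _ h

theorem GG_rightC {a b : ℝ × ℝ} : GGC b a b = 0 := by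
  unfold GGC
  rw [if_neg]
  unfold Spans
  rintro (⟨_, h⟩ | ⟨h, _⟩) <;> exact lt_irrefl _ h

/-- Extremality of the middle of three points. -/
def ExtQ (a b c : ℝ × ℝ) : Prop := (b.1 < a.1 ∧ b.1 < c.1) ∨ (a.1 < b.1 ∧ c.1 < b.1)

open Classical in
/-- Signed contribution of a vertex. -/
noncomputable def tauQ (a b c : ℝ × ℝ) : ℤ :=
  if ExtQ a b c then (if 0 < cross a b c then 1 else -1) else 0

theorem GG_posC {v a b : ℝ × ℝ} (h1 : a.1 < v.1) (h2 : v.1 < b.1) (_h0 : cross a v b ≠ 0) :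
    GGC v a b = if 0 < cross a v b then 1 else -1 := by
  classical
  unfold GGC
  rw [if_pos (show Spans a b v.1 from Or.inl ⟨h1, h2⟩), if_pos (h1.trans h2), one_mul]
  by_cases h : 0 < cross a v b
  · rw [if_pos h, if_pos ((lt_ht_iffQ h1 h2).mpr h)]
  · rw [if_neg h, if_neg (fun hh => h ((lt_ht_iffQ h1 h2).mp hh))]

theorem GG_negC {v a b : ℝ × ℝ} (h1 : b.1 < v.1) (h2 : v.1 < a.1) (h0 : cross b v a ≠ 0) :
    GGC v a b = if 0 < cross b v a then -1 else 1 := by
  have := GG_posC (v := v) (a := b) (b := a) h1 h2 h0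
  rw [GG_symmC (h1.trans h2).ne, this]
  split_ifs <;> simp

theorem GG_out1C {v a b : ℝ × ℝ} (h1 : v.1 < a.1) (h2 : v.1 < b.1) : GGC v a b = 0 := by
  unfold GGC
  rw [if_neg]
  rintro (⟨h, _⟩ | ⟨h, _⟩) <;> linarith

theorem GG_out2C {v a b : ℝ × ℝ} (h1 : a.1 < v.1) (h2 : b.1 < v.1) : GGC v a b = 0 := by
  unfold GGC
  rw [if_neg]
  rintro (⟨_, h⟩ | ⟨_, h⟩) <;> linarith

theorem adjQ {a b c : ℝ × ℝ} (hab : a.1 ≠ b.1) (hbc : b.1 ≠ c.1) (hac : a.1 ≠ c.1)
    (h0 : cross a b c ≠ 0) : GGC a b c + GGC c a b = - tauQ a b c := by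
  classical
  have e1 : cross b a c = - cross a b c := by unfold cross; ring
  have e2 : cross b c a = cross a b c := by unfold cross; ring
  have e3 : cross c a b = cross a b c := by unfold cross; ring
  have e4 : cross a c b = - cross a b c := by unfold cross; ring
  have n1 : cross b a c ≠ 0 := by rw [e1]; exact neg_ne_zero.mpr h0
  have n4 : cross a c b ≠ 0 := by rw [e4]; exact neg_ne_zero.mpr h0
  have n2 : cross b c a ≠ 0 := by rw [e2]; exact h0
  have n3 : cross c a b ≠ 0 := by rw [e3]; exact h0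
  rcases lt_or_gt_of_ne hab with h1 | h1 <;> rcases lt_or_gt_of_ne hbc with h2 | h2 <;>
    rcases lt_or_gt_of_ne hac with h3 | h3
  · -- a < b < c
    have ht : tauQ a b c = 0 := by
      unfold tauQ; rw [if_neg]; rintro (⟨h, _⟩ | ⟨_, h⟩) <;> linarith
    rw [ht, GG_out1C h1 h3, GG_out2C h3 h2]; rfl
  · exact absurd h3 (not_lt.mpr (h1.trans h2).le)
  · -- a < c < b : ext
    have hE : ExtQ a b c := Or.inr ⟨h1, h2⟩
    unfold tauQ
    rw [if_pos hE, GG_posC h3 h2 n4, GG_out1C h1 h3, e4]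
    rcases lt_or_gt_of_ne h0 with h | h
    · rw [if_pos (by linarith), if_neg (by linarith)]; rfl
    · rw [if_neg (by linarith), if_pos h]; rfl
  · -- c < a < b
    have hE : ExtQ a b c := Or.inr ⟨h1, h2⟩
    unfold tauQ
    rw [if_pos hE, GG_out1C h3 h2, GG_negC h3 h1 n3, e3]
    rcases lt_or_gt_of_ne h0 with h | h
    · rw [if_neg (by linarith), if_neg (by linarith)]; rfl
    · rw [if_pos (by linarith), if_pos h]; rfl
  · -- b < a < c
    have hE : ExtQ a b c := Or.inl ⟨h1, h2⟩
    unfold tauQ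
    rw [if_pos hE, GG_posC h1 h3 n1, GG_out2C h3 h2, e1]
    rcases lt_or_gt_of_ne h0 with h | h
    · rw [if_pos (by linarith), if_neg (by linarith)]; rfl
    · rw [if_neg (by linarith), if_pos h]; rfl
  · -- b < c < a
    have hE : ExtQ a b c := Or.inl ⟨h1, h2⟩
    unfold tauQ
    rw [if_pos hE, GG_out2C h1 h3, GG_negC h2 h3 n2, e2]
    rcases lt_or_gt_of_ne h0 with h | h
    · rw [if_neg (by linarith), if_neg (by linarith)]; rfl
    · rw [if_pos (by linarith), if_pos h]; rfl
  · exact absurd h3 (not_lt.mpr (h2.trans h1).le)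
  · -- c < b < a
    have ht : tauQ a b c = 0 := by
      unfold tauQ; rw [if_neg]; rintro (⟨_, h⟩ | ⟨h, _⟩) <;> linarith
    rw [ht, GG_out2C h1 h3, GG_out1C h3 h2]; rfl

/-- Total contribution of a pair of edges `a b` and `c d`. -/
noncomputable def PPC (a b c d : ℝ × ℝ) : ℤ := GGC b c d - GGC a c d - GGC d a b + GGC c a b

theorem PP_zero_auxC {a b c d : ℝ × ℝ} (hab : a.1 < b.1) (hcd : c.1 < d.1) (hac : a.1 < c.1)
    (hbc : b.1 ≠ c.1) (hbd : b.1 ≠ d.1) (hS : SepQ a b c d) : PPC a b c d = 0 := by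
  classical
  unfold PPC
  have m1 : min a.1 b.1 = a.1 := min_eq_left hab.le
  have m2 : max a.1 b.1 = b.1 := max_eq_right hab.le
  have m3 : min c.1 d.1 = c.1 := min_eq_left hcd.le
  have m4 : max c.1 d.1 = d.1 := max_eq_right hcd.le
  rcases lt_or_gt_of_ne hbc with h1 | h1
  · -- disjoint
    rw [GG_out1C h1 (h1.trans hcd), GG_out1C hac (hac.trans hcd), GG_out2C (hac.trans hcd)
      (h1.trans hcd), GG_out2C hac h1]
    rfl
  · rcases lt_or_gt_of_ne hbd with h2 | h2
    · -- interleaved a < c < b < d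
      have hs := hS c.1 b.1 h1.le (by rw [m1]; exact hac.le) (by rw [m2]) (by rw [m3])
        (by rw [m4]; exact h2.le)
      rw [ht_leftQ, ht_rightQ hab.ne] at hs
      rw [GG_out1C hac (hac.trans hcd), GG_out2C (hac.trans hcd) h2]
      unfold GGC
      rw [if_pos (show Spans c d b.1 from Or.inl ⟨h1, h2⟩),
        if_pos (show Spans a b c.1 from Or.inl ⟨hac, h1⟩), if_pos hab, if_pos hcd]
      rcases hs with ⟨s1, s2⟩ | ⟨s1, s2⟩
      · rw [if_pos s2, if_neg (not_lt.mpr s1.le)]; ring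
      · rw [if_neg (not_lt.mpr s2.le), if_pos s1]; ring
    · -- nested a < c < d < b
      have hs := hS c.1 d.1 hcd.le (by rw [m1]; exact hac.le) (by rw [m2]; exact h2.le)
        (by rw [m3]) (by rw [m4])
      rw [ht_leftQ, ht_rightQ hcd.ne] at hs
      rw [GG_out1C hac (hac.trans hcd), GG_out2C h1 h2]
      unfold GGC
      rw [if_pos (show Spans a b d.1 from Or.inl ⟨hac.trans hcd, h2⟩),
        if_pos (show Spans a b c.1 from Or.inl ⟨hac, h1⟩), if_pos hab]
      rcases hs with ⟨s1, s2⟩ | ⟨s1, s2⟩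
      · rw [if_neg (not_lt.mpr s1.le), if_neg (not_lt.mpr s2.le)]; ring
      · rw [if_pos s1, if_pos s2]; ring

theorem SepQ_swap {a b c d : ℝ × ℝ} (h : SepQ a b c d) : SepQ c d a b := by
  intro x1 x2 h12 h1 h2 h3 h4
  rcases h x1 x2 h12 h3 h4 h1 h2 with h5 | h5
  · exact Or.inr h5
  · exact Or.inl h5

theorem SepQ_rev {a b c d : ℝ × ℝ} (hab : a.1 ≠ b.1) (h : SepQ a b c d) : SepQ b a c d := by
  intro x1 x2 h12 h1 h2 h3 h4
  rw [ht_symmQ hab.symm, ht_symmQ hab.symm]
  exact h x1 x2 h12 (by rwa [min_comm]) (by rwa [max_comm]) h3 h4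

theorem PP_swapC {a b c d : ℝ × ℝ} : PPC c d a b = - PPC a b c d := by
  unfold PPC; ring

theorem PP_revC {a b c d : ℝ × ℝ} (hab : a.1 ≠ b.1) : PPC b a c d = - PPC a b c d := by
  unfold PPC; rw [GG_symmC hab, GG_symmC hab]; ring

theorem PP_zeroC {a b c d : ℝ × ℝ} (hab : a.1 ≠ b.1) (hcd : c.1 ≠ d.1) (hac : a.1 ≠ c.1)
    (had : a.1 ≠ d.1) (hbc : b.1 ≠ c.1) (hbd : b.1 ≠ d.1) (hS : SepQ a b c d) :
    PPC a b c d = 0 := by
  -- step 1: both edges to the right
  have key : ∀ a b c d : ℝ × ℝ, a.1 < b.1 → c.1 < d.1 → a.1 ≠ c.1 → a.1 ≠ d.1 → b.1 ≠ c.1 →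
      b.1 ≠ d.1 → SepQ a b c d → PPC a b c d = 0 := by
    intro a b c d hab hcd hac had hbc hbd hS
    rcases lt_or_gt_of_ne hac with h | h
    · exact PP_zero_auxC hab hcd h hbc hbd hS
    · have := PP_zero_auxC hcd hab h (Ne.symm had) (Ne.symm hbd) (SepQ_swap hS)
      rw [PP_swapC] at this
      linarith
  rcases lt_or_gt_of_ne hab with h1 | h1 <;> rcases lt_or_gt_of_ne hcd with h2 | h2
  · exact key a b c d h1 h2 hac had hbc hbd hS
  · have := key a b d c h1 h2 had hac hbd hbc (SepQ_swap (SepQ_rev hcd (SepQ_swap hS)))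
    have e : PPC a b d c = PPC a b c d * (-1) := by
      have e1 := PP_swapC (a := a) (b := b) (c := d) (d := c)
      have e2 := PP_revC (a := c) (b := d) (c := a) (d := b) hcd
      have e3 := PP_swapC (a := a) (b := b) (c := c) (d := d)
      linarith
    linarith
  · have := key b a c d h1 h2 hbc hbd hac had (SepQ_rev hab hS)
    rw [PP_revC hab] at this
    linarith
  · have := key b a d c h1 h2 hbd hbc had hac
      (SepQ_swap (SepQ_rev hcd (SepQ_swap (SepQ_rev hab hS))))
    have e1 := PP_swapC (a := b) (b := a) (c := d) (d := c)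
    have e2 := PP_revC (a := c) (b := d) (c := b) (d := a) hcd
    have e3 := PP_swapC (a := b) (b := a) (c := c) (d := d)
    have e4 := PP_revC (a := a) (b := b) (c := c) (d := d) hab
    linarith

theorem PP_adjC {a b c : ℝ × ℝ} (hab : a.1 ≠ b.1) (hbc : b.1 ≠ c.1) (hac : a.1 ≠ c.1)
    (h0 : cross a b c ≠ 0) : PPC a b b c = tauQ a b c := by
  have h := adjQ hab hbc hac h0
  unfold PPC
  rw [GG_leftC, GG_rightC]
  linarith

theorem PP_adjC' {a b c : ℝ × ℝ} (hab : a.1 ≠ b.1) (hbc : b.1 ≠ c.1) (hac : a.1 ≠ c.1)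
    (h0 : cross a b c ≠ 0) : PPC b c a b = - tauQ a b c := by
  rw [PP_swapC, PP_adjC hab hbc hac h0]

/-- Telescoping. -/
theorem teleC (n j : ℕ) (hj : j < n) (F : ℕ → ℤ) (h0 : F 0 = 0) (hn : F n = 0) (h1 : F j = 0)
    (h2 : F (j + 1) = 0) :
    ∑ f ∈ range n, ((if f < j then F (f + 1) - F f else 0) -
      (if j < f then F (f + 1) - F f else 0)) = 0 := by
  have hA : ∑ f ∈ range n, (if f < j then F (f + 1) - F f else 0) = F j - F 0 := by
    rw [← Finset.sum_range_sub, ← Finset.sum_filter]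
    apply Finset.sum_congr _ (fun _ _ => rfl)
    ext f; simp only [mem_filter, mem_range]; omega
  have hB : ∑ f ∈ range n, (if j < f then F (f + 1) - F f else 0) = F n - F (j + 1) := by
    have hT := Finset.sum_range_sub F n
    have hT2 := Finset.sum_range_sub F (j + 1)
    rw [← Finset.sum_filter]
    have hsplit : (range n).filter (fun f => j < f) = range n \ range (j + 1) := by
      ext f; simp only [mem_filter, mem_range, mem_sdiff]; omega
    rw [hsplit]
    have := Finset.sum_sdiff (f := fun f => F (f + 1) - F f)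
      (show range (j + 1) ⊆ range n from by
        intro x; simp only [mem_range]; omega)
    linarith
  rw [Finset.sum_sub_distrib, hA, hB, h0, hn, h1, h2]; ring

variable {n : ℕ} {q : ℕ → ℝ × ℝ}

theorem Pg.q_add_mulC (h : Pg n q) (k m : ℕ) : q (k + n * m) = q k := by
  induction m with
  | zero => simp
  | succ m ih => rw [Nat.mul_succ, ← Nat.add_assoc, h.per, ih]

theorem Pg.q_modC (h : Pg n q) (k : ℕ) : q k = q (k % n) := by
  conv_lhs => rw [← Nat.mod_add_div k n]
  exact h.q_add_mulC _ _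

theorem Pg.x_neC (h : Pg n q) {i j : ℕ} (hij : i % n ≠ j % n) : (q i).1 ≠ (q j).1 := by
  have hn : 0 < n := by have := h.three; omega
  rw [h.q_modC i, h.q_modC j]
  intro he
  exact hij (h.xinj _ (Nat.mod_lt _ hn) _ (Nat.mod_lt _ hn) he)

theorem Pg.cross_neC (h : Pg n q) {i j k : ℕ} (hij : i % n ≠ j % n) (hjk : j % n ≠ k % n)
    (hik : i % n ≠ k % n) : cross (q i) (q j) (q k) ≠ 0 := by
  have hn : 0 < n := by have := h.three; omega
  rw [h.q_modC i, h.q_modC j, h.q_modC k]
  exact h.gp _ (Nat.mod_lt _ hn) _ (Nat.mod_lt _ hn) _ (Nat.mod_lt _ hn) hij hjk hik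

theorem Pg.prevC (h : Pg n q) {k : ℕ} (hk : 1 ≤ k) : q (k + (n - 1)) = q (k - 1) := by
  have hn : 3 ≤ n := h.three
  have : k + (n - 1) = (k - 1) + n := by omega
  rw [this, h.per]

/-- Signed contribution of the vertex `k`. -/
noncomputable def tauPC (n : ℕ) (q : ℕ → ℝ × ℝ) (k : ℕ) : ℤ :=
  tauQ (q (k + (n - 1))) (q k) (q (k + 1))

theorem GG_zero_leftC (h : Pg n q) {j : ℕ} (hj : j < n) : GGC (q 0) (q j) (q (j + 1)) = 0 := by
  rcases Nat.eq_zero_or_pos j with rfl | hj0
  · exact GG_leftC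
  · rcases Nat.lt_or_ge (j + 1) n with h1 | h1
    · exact GG_out1C (h.left j hj0 hj) (h.left (j + 1) (by omega) h1)
    · have : j + 1 = 0 + n := by omega
      rw [this, h.per 0]
      exact GG_rightC

theorem mod_ne_of_ltC {n i j : ℕ} (h1 : i < j) (h2 : j < i + n) : i % n ≠ j % n := by
  intro he
  have h3 : i ≡ j [MOD n] := he
  have h4 := (Nat.modEq_iff_dvd' h1.le).mp h3
  have h5 := Nat.le_of_dvd (by omega) h4
  omega

theorem pair_valueC (h : Pg n q)
    (hsep : ∀ i j, i < n → j < n → i + 1 < j → ¬ (i = 0 ∧ j = n - 1) →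
      SepQ (q i) (q (i + 1)) (q j) (q (j + 1)))
    {f j : ℕ} (hfj : f < j) (hj : j < n) :
    PPC (q f) (q (f + 1)) (q j) (q (j + 1)) =
      (if f + 1 = j then tauPC n q j else 0) +
        (if f = 0 ∧ j = n - 1 then - tauPC n q 0 else 0) := by
  have hn := h.three
  rcases Nat.lt_or_ge (f + 1) j with h1 | h1
  · rw [if_neg (by omega : ¬ f + 1 = j), zero_add]
    by_cases h2 : f = 0 ∧ j = n - 1
    · rw [if_pos h2]
      obtain ⟨rfl, rfl⟩ := h2
      have e : n - 1 + 1 = 0 + n := by omega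
      rw [e, h.per 0]
      have e2 : (0 + 1) = 1 := rfl
      have h3 : (q (n - 1)).1 ≠ (q 0).1 := (h.x_neC (mod_ne_of_ltC (by omega) (by omega))).symm
      have h4 : (q 0).1 ≠ (q (0 + 1)).1 := h.x_neC (mod_ne_of_ltC (by omega) (by omega))
      have h5 : (q (n - 1)).1 ≠ (q (0 + 1)).1 :=
        (h.x_neC (mod_ne_of_ltC (by omega) (by omega))).symm
      have h6 : cross (q (n - 1)) (q 0) (q (0 + 1)) ≠ 0 :=
        h.cross_neC (Ne.symm (mod_ne_of_ltC (by omega) (by omega)))
          (mod_ne_of_ltC (by omega) (by omega)) (Ne.symm (mod_ne_of_ltC (by omega) (by omega)))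
      have := PP_adjC' h3 h4 h5 h6
      rw [this]
      unfold tauPC
      rw [Nat.zero_add (n - 1)]
    · rw [if_neg h2]
      have hx : ∀ a b : ℕ, a < b → b < a + n → (q a).1 ≠ (q b).1 := fun a b h1 h2 =>
        h.x_neC (mod_ne_of_ltC h1 h2)
      exact PP_zeroC (hx _ _ (by omega) (by omega)) (hx _ _ (by omega) (by omega))
        (hx _ _ (by omega) (by omega)) (hx _ _ (by omega) (by omega))
        (hx _ _ (by omega) (by omega)) (hx _ _ (by omega) (by omega))
        (hsep f j (by omega) hj h1 h2)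
  · have e : j = f + 1 := by omega
    subst e
    rw [if_pos rfl, if_neg (by omega), add_zero]
    have hx : ∀ a b : ℕ, a < b → b < a + n → a % n ≠ b % n := fun a b h1 h2 =>
      mod_ne_of_ltC h1 h2
    rw [PP_adjC (h.x_neC (hx _ _ (by omega) (by omega))) (h.x_neC (hx _ _ (by omega) (by omega)))
      (h.x_neC (hx _ _ (by omega) (by omega)))
      (h.cross_neC (hx _ _ (by omega) (by omega)) (hx _ _ (by omega) (by omega))
        (hx _ _ (by omega) (by omega)))]
    unfold tauPC
    rw [h.prevC (by omega : 1 ≤ f + 1), Nat.add_sub_cancel]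

theorem sum_tauC (h : Pg n q)
    (hsep : ∀ i j, i < n → j < n → i + 1 < j → ¬ (i = 0 ∧ j = n - 1) →
      SepQ (q i) (q (i + 1)) (q j) (q (j + 1))) :
    ∑ k ∈ range n, tauPC n q k = 2 * tauPC n q 0 := by
  have hn := h.three
  set D : ℕ → ℕ → ℤ := fun f j => GGC (q (f + 1)) (q j) (q (j + 1)) - GGC (q f) (q j) (q (j + 1))
    with hD
  have hT : ∑ j ∈ range n, ∑ f ∈ range n, ((if f < j then D f j else 0) -
      (if j < f then D f j else 0)) = 0 := by
    apply Finset.sum_eq_zero
    intro j hj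
    rw [mem_range] at hj
    apply teleC n j hj (fun k => GGC (q k) (q j) (q (j + 1)))
    · exact GG_zero_leftC h hj
    · have : q n = q 0 := by have := h.per 0; rwa [Nat.zero_add] at this
      simp only [this]
      exact GG_zero_leftC h hj
    · exact GG_leftC
    · exact GG_rightC
  have hB : ∑ j ∈ range n, ∑ f ∈ range n, (if j < f then D f j else 0) =
      ∑ j ∈ range n, ∑ f ∈ range n, (if f < j then D j f else 0) := by
    rw [Finset.sum_comm]
  have hP : ∑ j ∈ range n, ∑ f ∈ range n,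
      (if f < j then PPC (q f) (q (f + 1)) (q j) (q (j + 1)) else 0) = 0 := by
    have : ∀ j ∈ range n, ∀ f ∈ range n,
        (if f < j then PPC (q f) (q (f + 1)) (q j) (q (j + 1)) else 0) =
        (if f < j then D f j else 0) - (if f < j then D j f else 0) := by
      intro j _ f _
      by_cases hfj : f < j
      · rw [if_pos hfj, if_pos hfj, if_pos hfj]
        simp only [hD, PPC]; ring
      · rw [if_neg hfj, if_neg hfj, if_neg hfj]; ring
    rw [Finset.sum_congr rfl (fun j hj => Finset.sum_congr rfl (this j hj))]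
    simp only [Finset.sum_sub_distrib] at hT ⊢
    linarith
  have hQ : ∑ j ∈ range n, ∑ f ∈ range n,
      (if f < j then ((if f + 1 = j then tauPC n q j else 0) +
        (if f = 0 ∧ j = n - 1 then - tauPC n q 0 else 0)) else 0) = 0 := by
    refine Eq.trans ?_ hP
    apply Finset.sum_congr rfl
    intro j hj
    apply Finset.sum_congr rfl
    intro f _
    rw [mem_range] at hj
    by_cases hfj : f < j
    · rw [if_pos hfj, if_pos hfj, pair_valueC h hsep hfj hj]
    · rw [if_neg hfj, if_neg hfj]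
  have hR : ∀ j ∈ range n, ∑ f ∈ range n,
      (if f < j then ((if f + 1 = j then tauPC n q j else 0) +
        (if f = 0 ∧ j = n - 1 then - tauPC n q 0 else 0)) else 0) =
      (if j = 0 then 0 else tauPC n q j) + (if j = n - 1 then - tauPC n q 0 else 0) := by
    intro j hj
    rw [mem_range] at hj
    have : ∀ f ∈ range n, (if f < j then ((if f + 1 = j then tauPC n q j else 0) +
        (if f = 0 ∧ j = n - 1 then - tauPC n q 0 else 0)) else 0) =
        (if f + 1 = j then tauPC n q j else 0) +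
        (if f = 0 then (if j = n - 1 then - tauPC n q 0 else 0) else 0) := by
      intro f _
      by_cases hfj : f < j
      · rw [if_pos hfj]
        congr 1
        by_cases h0 : f = 0
        · simp [h0]
        · simp [h0]
      · rw [if_neg hfj, if_neg (by omega)]
        by_cases h0 : f = 0
        · rw [if_pos h0, if_neg (by omega)]; rfl
        · rw [if_neg h0]; rfl
    rw [Finset.sum_congr rfl this, Finset.sum_add_distrib]
    congr 1
    · by_cases h0 : j = 0
      · rw [if_pos h0]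
        apply Finset.sum_eq_zero
        intro f _
        rw [if_neg (by omega)]
      · rw [if_neg h0, Finset.sum_eq_single (j - 1)]
        · rw [if_pos (by omega)]
        · intro b _ hb
          rw [if_neg (by omega)]
        · intro hb
          exact absurd (mem_range.mpr (by omega)) hb
    · rw [Finset.sum_eq_single 0]
      · rw [if_pos rfl]
      · intro b _ hb
        rw [if_neg hb]
      · intro hb
        exact absurd (mem_range.mpr (by omega)) hb
  rw [Finset.sum_congr rfl hR, Finset.sum_add_distrib] at hQ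
  have h1 : ∑ j ∈ range n, (if j = n - 1 then - tauPC n q 0 else 0) = - tauPC n q 0 := by
    rw [Finset.sum_ite_eq' (range n) (n - 1), if_pos (mem_range.mpr (by omega))]
  have h2 : ∑ j ∈ range n, (if j = 0 then 0 else tauPC n q j) =
      ∑ j ∈ range n, tauPC n q j - tauPC n q 0 := by
    have : ∀ j ∈ range n, (if j = 0 then 0 else tauPC n q j) =
        tauPC n q j - (if j = 0 then tauPC n q 0 else 0) := by
      intro j _
      by_cases h0 : j = 0
      · subst h0; simp
      · simp [h0]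
    rw [Finset.sum_congr rfl this, Finset.sum_sub_distrib,
      Finset.sum_ite_eq' (range n) 0, if_pos (mem_range.mpr (by omega))]
  rw [h1, h2] at hQ
  linarith

theorem sep_of_pgC (h : Pg n q) {i j : ℕ} (hi : i < n) (hj : j < n) (hij : i + 1 < j)
    (h0 : ¬ (i = 0 ∧ j = n - 1)) : SepQ (q i) (q (i + 1)) (q j) (q (j + 1)) := by
  intro x1 x2 h12 h1 h2 h3 h4
  have hn := h.three
  apply edge_sep h hi hj (by omega) h12 h1 h2 h3 h4
  intro k l hk hl he
  exfalso
  have hne : (q k).1 ≠ (q l).1 := by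
    apply h.x_neC
    apply mod_ne_of_ltC
    · omega
    · omega
  exact hne (by rw [he])

theorem turn_neC (h : Pg n q) (k : ℕ) : turn n q k ≠ 0 := by
  have hn := h.three
  unfold turn
  apply h.cross_neC
  · exact Ne.symm (mod_ne_of_ltC (by omega) (by omega))
  · exact mod_ne_of_ltC (by omega) (by omega)
  · intro he
    have h1 : (k + 1) % n ≠ (k + (n - 1)) % n := mod_ne_of_ltC (by omega) (by omega)
    exact h1 he.symm

theorem tauP_eqC (k : ℕ) [Decidable (Ext n q k)] [Decidable (0 < turn n q k)] :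
    tauPC n q k = if Ext n q k then (if 0 < turn n q k then 1 else -1) else 0 := by
  unfold tauPC tauQ
  by_cases h1 : Ext n q k
  · have h2 : ExtQ (q (k + (n - 1))) (q k) (q (k + 1)) := h1
    rw [if_pos h1, if_pos h2]
    by_cases h3 : 0 < turn n q k
    · have h4 : 0 < cross (q (k + (n - 1))) (q k) (q (k + 1)) := h3
      rw [if_pos h3, if_pos h4]
    · have h4 : ¬ 0 < cross (q (k + (n - 1))) (q k) (q (k + 1)) := h3
      rw [if_neg h3, if_neg h4]
  · have h2 : ¬ ExtQ (q (k + (n - 1))) (q k) (q (k + 1)) := h1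
    rw [if_neg h1, if_neg h2]

theorem ext_zeroC (h : Pg n q) : Ext n q 0 := by
  have hn := h.three
  left
  constructor
  · exact h.left _ (by omega) (by omega)
  · exact h.left _ (by omega) (by omega)

open Classical in
/-- Turning number in the vertical direction. -/
theorem ext_identity (h : Pg n q) :
    ((range n).filter (fun k => Ext n q k ∧ 0 < turn n q 0 * turn n q k)).card =
      ((range n).filter (fun k => Ext n q k ∧ turn n q 0 * turn n q k < 0)).card + 2 := by
  have hs := sum_tauC h (fun i j hi hj hij h0 => sep_of_pgC h hi hj hij h0)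
  have hE := ext_zeroC h
  have h0 := turn_neC h 0
  set ε : ℤ := if 0 < turn n q 0 then 1 else -1 with hε
  have hτ0 : tauPC n q 0 = ε := by rw [tauP_eqC, if_pos hE]
  have hε2 : ε * ε = 1 := by rw [hε]; split_ifs <;> rfl
  have hpt : ∀ k ∈ range n,
      ((if (Ext n q k ∧ 0 < turn n q 0 * turn n q k) then (1 : ℤ) else 0) -
        (if (Ext n q k ∧ turn n q 0 * turn n q k < 0) then (1 : ℤ) else 0)) =
      ε * tauPC n q k := by
    intro k _
    rw [tauP_eqC]
    by_cases hk : Ext n q k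
    · rw [if_pos hk]
      have hk0 := turn_neC h k
      rcases lt_or_gt_of_ne h0 with a | a <;> rcases lt_or_gt_of_ne hk0 with b | b
      · have := mul_pos_of_neg_of_neg a b
        rw [if_pos ⟨hk, this⟩, if_neg (fun hh => absurd hh.2 (not_lt.mpr this.le)), hε,
          if_neg (not_lt.mpr a.le), if_neg (not_lt.mpr b.le)]
        norm_num
      · have := mul_neg_of_neg_of_pos a b
        rw [if_neg (fun hh => absurd hh.2 (not_lt.mpr this.le)), if_pos ⟨hk, this⟩, hε,
          if_neg (not_lt.mpr a.le), if_pos b]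
        norm_num
      · have := mul_neg_of_pos_of_neg a b
        rw [if_neg (fun hh => absurd hh.2 (not_lt.mpr this.le)), if_pos ⟨hk, this⟩, hε,
          if_pos a, if_neg (not_lt.mpr b.le)]
        norm_num
      · have := mul_pos a b
        rw [if_pos ⟨hk, this⟩, if_neg (fun hh => absurd hh.2 (not_lt.mpr this.le)), hε,
          if_pos a, if_pos b]
        norm_num
    · rw [if_neg hk, if_neg (fun hh => hk hh.1), if_neg (fun hh => hk hh.1)]
      ring
  have hsum := Finset.sum_congr rfl hpt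
  rw [Finset.sum_sub_distrib, ← Finset.mul_sum, hs, hτ0, Finset.sum_boole, Finset.sum_boole]
    at hsum
  have : ε * (2 * ε) = 2 := by linarith
  rw [this] at hsum
  have h3 : ((((range n).filter (fun k => Ext n q k ∧ 0 < turn n q 0 * turn n q k)).card : ℕ) : ℤ) =
      ((((range n).filter (fun k => Ext n q k ∧ turn n q 0 * turn n q k < 0)).card : ℕ) : ℤ) + 2 := by
    linarith
  exact_mod_cast h3

end Pool.Agent.Lib.MP_9bb24e_co
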