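import Pool.Agent.Lib.MP_9bb24e_co.Near

/-!
Alternation of directions and convexity by parity.
-/

set_option autoImplicit false

namespace Pool.Agent.Lib.MP_9bb24e_co

open Finset

variable {n : ℕ} {q : ℕ → ℝ × ℝ}

/-- the alternation property of edge `i` at `x` -/
def AltAt (n : ℕ) (q : ℕ → ℝ × ℝ) (i : ℕ) (x : ℝ) : Prop :=
  (q i).1 < (q (i + 1)).1 ↔ (0 < turn n q 0 ↔ Odd (aboveAt n q i x))

/-- the alternation property of edge `i` -/
def Alt (n : ℕ) (q : ℕ → ℝ × ℝ) (i : ℕ) : Prop :=
  ∀ x : ℝ, (∀ k, k < n → (q k).1 ≠ x) → Spans (q i) (q (i + 1)) x → AltAt n q i x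

theorem Pg.alt_of_one (P : Pg n q) {i : ℕ} (hi : i < n) {x : ℝ} (hx : ∀ k, k < n → (q k).1 ≠ x)
    (hs : Spans (q i) (q (i + 1)) x) (h : AltAt n q i x) : Alt n q i := by
  intro y hy hs'
  have he : Even (aboveAt n q i x + aboveAt n q i y) := by
    rcases le_total x y with hxy | hxy
    · exact P.aboveAt_parity hi hxy hx hy hs hs'
    · rw [add_comm]
      exact P.aboveAt_parity hi hxy hy hx hs' hs
  have ho : Odd (aboveAt n q i x) ↔ Odd (aboveAt n q i y) := by
    rw [← Nat.not_even_iff_odd, ← Nat.not_even_iff_odd, Nat.even_add.mp he]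
  unfold AltAt at h ⊢
  rw [← ho]
  exact h

/-- a through vertex going right: both incident edges have `aboveCount` edges above them -/
theorem Pg.near_through_right (P : Pg n q) {k : ℕ} (hk : k < n)
    (h1 : (q (pe n k)).1 < (q k).1) (h2 : (q k).1 < (q (k + 1)).1) :
    (∃ x, (∀ l, l < n → (q l).1 ≠ x) ∧ Spans (q (pe n k)) (q (pe n k + 1)) x ∧
      aboveAt n q (pe n k) x = aboveCount n q k) ∧
    (∃ x, (∀ l, l < n → (q l).1 ≠ x) ∧ Spans (q k) (q (k + 1)) x ∧
      aboveAt n q k x = aboveCount n q k) := by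
  have hn := P.three
  have hpe : pe n k < n := pe_lt (by omega) hk
  have e1 : q (pe n k + 1) = q k := P.pe_succ k
  obtain ⟨a1, a2⟩ := Pg.lo_eq h2
  obtain ⟨b1, b2⟩ := Pg.lo_eq (q := q) (i := pe n k) (by rw [e1]; exact h1)
  rw [e1] at b2
  constructor
  · obtain ⟨x, hx1, hx2, hx3⟩ := near_left q n h1
    refine ⟨x, ?_, ?_, ?_⟩
    · intro l hl hlx
      exact hx3 l hl ⟨by rw [hlx]; exact hx1, hlx.ge⟩
    · left
      rw [e1]
      exact ⟨hx2, hx1⟩
    · rw [P.local_left (k := k) (o := k) hpe hk ?_ b2 ⟨_, Or.inr rfl, e1⟩ hx1 (by rw [b1]; exact hx2)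
        hx3, if_neg, add_zero]
      · rintro ⟨-, h⟩
        rw [a2] at h
        exact h2.ne' h
      · intro j hj h
        exact (P.incident hk hj h).symm
  · obtain ⟨x, hx1, hx2, hx3⟩ := near_right q n h2
    refine ⟨x, ?_, ?_, ?_⟩
    · intro l hl hlx
      exact hx3 l hl ⟨by rw [hlx]; exact hx1, hlx.le⟩
    · left
      exact ⟨hx1, hx2⟩
    · rw [P.local_right (k := k) (o := pe n k) hk hpe ?_ a1 ⟨_, Or.inl rfl, rfl⟩ hx1
        (by rw [a2]; exact hx2) hx3, if_neg, add_zero]
      · rintro ⟨-, h⟩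
        rw [b1] at h
        exact h1.ne h
      · intro j hj h
        exact P.incident hk hj h

/-- a through vertex going left -/
theorem Pg.near_through_left (P : Pg n q) {k : ℕ} (hk : k < n)
    (h1 : (q k).1 < (q (pe n k)).1) (h2 : (q (k + 1)).1 < (q k).1) :
    (∃ x, (∀ l, l < n → (q l).1 ≠ x) ∧ Spans (q (pe n k)) (q (pe n k + 1)) x ∧
      aboveAt n q (pe n k) x = aboveCount n q k) ∧
    (∃ x, (∀ l, l < n → (q l).1 ≠ x) ∧ Spans (q k) (q (k + 1)) x ∧
      aboveAt n q k x = aboveCount n q k) := by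
  have hn := P.three
  have hpe : pe n k < n := pe_lt (by omega) hk
  have e1 : q (pe n k + 1) = q k := P.pe_succ k
  obtain ⟨a1, a2⟩ := Pg.lo_eq' h2
  obtain ⟨b1, b2⟩ := Pg.lo_eq' (q := q) (i := pe n k) (by rw [e1]; exact h1)
  rw [e1] at b1
  constructor
  · obtain ⟨x, hx1, hx2, hx3⟩ := near_right q n h1
    refine ⟨x, ?_, ?_, ?_⟩
    · intro l hl hlx
      exact hx3 l hl ⟨by rw [hlx]; exact hx1, hlx.le⟩
    · right
      rw [e1]
      exact ⟨hx1, hx2⟩
    · rw [P.local_right (k := k) (o := k) hpe hk ?_ b1 ⟨_, Or.inr rfl, e1⟩ hx1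
        (by rw [b2]; exact hx2) hx3, if_neg, add_zero]
      · rintro ⟨-, h⟩
        rw [a1] at h
        exact h2.ne h
      · intro j hj h
        exact (P.incident hk hj h).symm
  · obtain ⟨x, hx1, hx2, hx3⟩ := near_left q n h2
    refine ⟨x, ?_, ?_, ?_⟩
    · intro l hl hlx
      exact hx3 l hl ⟨by rw [hlx]; exact hx1, hlx.ge⟩
    · right
      exact ⟨hx2, hx1⟩
    · rw [P.local_left (k := k) (o := pe n k) hk hpe ?_ a2 ⟨_, Or.inl rfl, rfl⟩ hx1
        (by rw [a1]; exact hx2) hx3, if_neg, add_zero]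
      · rintro ⟨-, h⟩
        rw [b2] at h
        exact h1.ne' h
      · intro j hj h
        exact P.incident hk hj h

open Classical in
/-- an extremal vertex with both neighbours to the right -/
theorem Pg.near_ext_right (P : Pg n q) {k : ℕ} (hk : k < n)
    (h1 : (q k).1 < (q (pe n k)).1) (h2 : (q k).1 < (q (k + 1)).1) :
    (∃ x, (∀ l, l < n → (q l).1 ≠ x) ∧ Spans (q (pe n k)) (q (pe n k + 1)) x ∧
      aboveAt n q (pe n k) x = aboveCount n q k + (if 0 < turn n q k then 0 else 1)) ∧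
    (∃ x, (∀ l, l < n → (q l).1 ≠ x) ∧ Spans (q k) (q (k + 1)) x ∧
      aboveAt n q k x = aboveCount n q k + (if 0 < turn n q k then 1 else 0)) := by
  have hn := P.three
  have hpe : pe n k < n := pe_lt (by omega) hk
  have e1 : q (pe n k + 1) = q k := P.pe_succ k
  obtain ⟨a1, a2⟩ := Pg.lo_eq h2
  obtain ⟨b1, b2⟩ := Pg.lo_eq' (q := q) (i := pe n k) (by rw [e1]; exact h1)
  rw [e1] at b1
  have hor : EOver q k (pe n k) ∨ EOver q (pe n k) k := by
    refine P.over_or_of_ext hk ?_
    left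
    rw [P.q_pe]
    exact ⟨h1, h2⟩
  have ht := P.turn_pos_left hk h1 h2
  constructor
  · obtain ⟨x, hx1, hx2, hx3⟩ := near_right q n h1
    refine ⟨x, ?_, ?_, ?_⟩
    · intro l hl hlx
      exact hx3 l hl ⟨by rw [hlx]; exact hx1, hlx.le⟩
    · right
      rw [e1]
      exact ⟨hx1, hx2⟩
    · rw [P.local_right (k := k) (o := k) hpe hk ?_ b1 ⟨_, Or.inr rfl, e1⟩ hx1
        (by rw [b2]; exact hx2) hx3]
      · congr 1
        by_cases h : 0 < turn n q k
        · rw [if_pos h, if_neg]
          rintro ⟨h3, -⟩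
          exact P.not_over hpe hk h3 (ht.mp h)
        · rw [if_neg h, if_pos]
          refine ⟨?_, a1⟩
          rcases hor with h3 | h3
          · exact absurd (ht.mpr h3) h
          · exact h3
      · intro j hj h
        exact (P.incident hk hj h).symm
  · obtain ⟨x, hx1, hx2, hx3⟩ := near_right q n h2
    refine ⟨x, ?_, ?_, ?_⟩
    · intro l hl hlx
      exact hx3 l hl ⟨by rw [hlx]; exact hx1, hlx.le⟩
    · left
      exact ⟨hx1, hx2⟩
    · rw [P.local_right (k := k) (o := pe n k) hk hpe ?_ a1 ⟨_, Or.inl rfl, rfl⟩ hx1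
        (by rw [a2]; exact hx2) hx3]
      · congr 1
        by_cases h : 0 < turn n q k
        · rw [if_pos h, if_pos ⟨ht.mp h, b1⟩]
        · rw [if_neg h, if_neg]
          rintro ⟨h3, -⟩
          exact h (ht.mpr h3)
      · intro j hj h
        exact P.incident hk hj h

open Classical in
/-- an extremal vertex with both neighbours to the left -/
theorem Pg.near_ext_left (P : Pg n q) {k : ℕ} (hk : k < n)
    (h1 : (q (pe n k)).1 < (q k).1) (h2 : (q (k + 1)).1 < (q k).1) :
    (∃ x, (∀ l, l < n → (q l).1 ≠ x) ∧ Spans (q (pe n k)) (q (pe n k + 1)) x ∧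
      aboveAt n q (pe n k) x = aboveCount n q k + (if 0 < turn n q k then 1 else 0)) ∧
    (∃ x, (∀ l, l < n → (q l).1 ≠ x) ∧ Spans (q k) (q (k + 1)) x ∧
      aboveAt n q k x = aboveCount n q k + (if 0 < turn n q k then 0 else 1)) := by
  have hn := P.three
  have hpe : pe n k < n := pe_lt (by omega) hk
  have e1 : q (pe n k + 1) = q k := P.pe_succ k
  obtain ⟨a1, a2⟩ := Pg.lo_eq' h2
  obtain ⟨b1, b2⟩ := Pg.lo_eq (q := q) (i := pe n k) (by rw [e1]; exact h1)
  rw [e1] at b2
  have hor : EOver q k (pe n k) ∨ EOver q (pe n k) k := by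
    refine P.over_or_of_ext hk ?_
    right
    rw [P.q_pe]
    exact ⟨h1, h2⟩
  have ht := P.turn_pos_right hk h1 h2
  constructor
  · obtain ⟨x, hx1, hx2, hx3⟩ := near_left q n h1
    refine ⟨x, ?_, ?_, ?_⟩
    · intro l hl hlx
      exact hx3 l hl ⟨by rw [hlx]; exact hx1, hlx.ge⟩
    · left
      rw [e1]
      exact ⟨hx2, hx1⟩
    · rw [P.local_left (k := k) (o := k) hpe hk ?_ b2 ⟨_, Or.inr rfl, e1⟩ hx1
        (by rw [b1]; exact hx2) hx3]
      · congr 1
        by_cases h : 0 < turn n q k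
        · rw [if_pos h, if_pos ⟨ht.mp h, a2⟩]
        · rw [if_neg h, if_neg]
          rintro ⟨h3, -⟩
          exact h (ht.mpr h3)
      · intro j hj h
        exact (P.incident hk hj h).symm
  · obtain ⟨x, hx1, hx2, hx3⟩ := near_left q n h2
    refine ⟨x, ?_, ?_, ?_⟩
    · intro l hl hlx
      exact hx3 l hl ⟨by rw [hlx]; exact hx1, hlx.ge⟩
    · right
      exact ⟨hx2, hx1⟩
    · rw [P.local_left (k := k) (o := pe n k) hk hpe ?_ a2 ⟨_, Or.inl rfl, rfl⟩ hx1
        (by rw [a1]; exact hx2) hx3]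
      · congr 1
        by_cases h : 0 < turn n q k
        · rw [if_pos h, if_neg]
          rintro ⟨h3, -⟩
          exact P.not_over hpe hk (ht.mp h) h3
        · rw [if_neg h, if_pos]
          refine ⟨?_, b2⟩
          rcases hor with h3 | h3
          · exact h3
          · exact absurd (ht.mpr h3) h
      · intro j hj h
        exact P.incident hk hj h

/-- the alternation property passes through a vertex -/
theorem Pg.alt_step (P : Pg n q) {k : ℕ} (hk : k < n) (h : Alt n q (pe n k)) : Alt n q k := by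
  classical
  have hn := P.three
  have hpe : pe n k < n := pe_lt (by omega) hk
  have e1 : q (pe n k + 1) = q k := P.pe_succ k
  have n1 := P.pred_ne hk
  have n2 := P.ne_succ hk
  rcases lt_or_gt_of_ne n1 with h1 | h1 <;> rcases lt_or_gt_of_ne n2 with h2 | h2
  · obtain ⟨⟨x, x1, x2, x3⟩, ⟨y, y1, y2, y3⟩⟩ := P.near_through_right hk h1 h2
    refine P.alt_of_one hk y1 y2 ?_
    have := h x x1 x2
    unfold AltAt at this ⊢
    rw [x3, e1] at this
    rw [y3]
    simp only [h1, h2, true_iff] at this ⊢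
    exact this
  · obtain ⟨⟨x, x1, x2, x3⟩, ⟨y, y1, y2, y3⟩⟩ := P.near_ext_left hk h1 h2
    refine P.alt_of_one hk y1 y2 ?_
    have := h x x1 x2
    unfold AltAt at this ⊢
    rw [x3, e1] at this
    rw [y3]
    simp only [h1, not_lt_of_gt h2, true_iff, false_iff] at this ⊢
    by_cases h0 : 0 < turn n q k
    · simp only [h0, if_true, add_zero] at this ⊢
      rw [this, Nat.odd_add_one]
      tauto
    · simp only [h0, if_false, add_zero] at this ⊢
      rw [this, Nat.odd_add_one]
      tauto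
  · obtain ⟨⟨x, x1, x2, x3⟩, ⟨y, y1, y2, y3⟩⟩ := P.near_ext_right hk h1 h2
    refine P.alt_of_one hk y1 y2 ?_
    have := h x x1 x2
    unfold AltAt at this ⊢
    rw [x3, e1] at this
    rw [y3]
    simp only [not_lt_of_gt h1, h2, true_iff, false_iff] at this ⊢
    by_cases h0 : 0 < turn n q k
    · simp only [h0, if_true, add_zero] at this ⊢
      rw [Nat.odd_add_one]
      tauto
    · simp only [h0, if_false, add_zero] at this ⊢
      rw [Nat.odd_add_one] at this
      tauto
  · obtain ⟨⟨x, x1, x2, x3⟩, ⟨y, y1, y2, y3⟩⟩ := P.near_through_left hk h1 h2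
    refine P.alt_of_one hk y1 y2 ?_
    have := h x x1 x2
    unfold AltAt at this ⊢
    rw [x3, e1] at this
    rw [y3]
    simp only [not_lt_of_gt h1, not_lt_of_gt h2, false_iff] at this ⊢
    exact this

theorem Pg.zero_right (P : Pg n q) : (q 0).1 < (q (pe n 0)).1 ∧ (q 0).1 < (q (0 + 1)).1 := by
  have hn := P.three
  constructor
  · refine P.left _ ?_ (pe_lt (by omega) (by omega))
    unfold pe
    rw [if_pos rfl]
    omega
  · exact P.left 1 one_pos (by omega)

theorem Pg.aboveCount_zero (P : Pg n q) : aboveCount n q 0 = 0 := by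
  classical
  have hn := P.three
  unfold aboveCount
  rw [card_eq_zero, filter_eq_empty_iff]
  intro j hj hab
  rw [mem_range] at hj
  have h1 := (spans_iff_lo_hi.mp hab.1).1
  obtain ⟨l, hl, el⟩ := P.elo_vertex hj
  rw [el] at h1
  rcases Nat.eq_zero_or_pos l with h2 | h2
  · rw [h2] at h1
    exact lt_irrefl _ h1
  · exact lt_asymm h1 (P.left l h2 hl)

theorem Pg.alt_zero (P : Pg n q) : Alt n q 0 := by
  classical
  have hn := P.three
  obtain ⟨h1, h2⟩ := P.zero_right
  obtain ⟨-, ⟨y, y1, y2, y3⟩⟩ := P.near_ext_right (by omega) h1 h2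
  refine P.alt_of_one (by omega) y1 y2 ?_
  unfold AltAt
  rw [y3, P.aboveCount_zero, zero_add]
  simp only [h2, true_iff]
  by_cases h0 : 0 < turn n q 0
  · simp only [h0, if_true, true_iff]
    decide
  · simp only [h0, if_false, false_iff]
    decide

theorem Pg.alt (P : Pg n q) {i : ℕ} (hi : i < n) : Alt n q i := by
  induction i with
  | zero => exact P.alt_zero
  | succ i ih =>
    refine P.alt_step hi ?_
    have : pe n (i + 1) = i := by
      unfold pe
      rw [if_neg (by omega), Nat.add_sub_cancel]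
    rw [this]
    exact ih (by omega)

/-- Directions alternate: an edge spanning the generic abscissa `x` goes to the right iff
(the leftmost vertex is a left turn iff the number of edges above it at `x` is odd). -/
theorem alternation (h : Pg n q) {i : ℕ} (hi : i < n) {x : ℝ} (hx : ∀ k, k < n → (q k).1 ≠ x)
    (hs : Spans (q i) (q (i + 1)) x) :
    (q i).1 < (q (i + 1)).1 ↔ (0 < turn n q 0 ↔ Odd (aboveAt n q i x)) :=
  h.alt hi x hx hs

theorem parity_ext (h : Pg n q) {k : ℕ} (hk : k < n) (he : Ext n q k) :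
    0 < turn n q 0 * turn n q k ↔ Even (aboveCount n q k) := by
  classical
  have hn := h.three
  have t0 := h.turn_ne (k := 0) (by omega)
  have tk := h.turn_ne hk
  have hsign : 0 < turn n q 0 * turn n q k ↔ (0 < turn n q 0 ↔ 0 < turn n q k) := by
    rcases lt_or_gt_of_ne t0 with a | a <;> rcases lt_or_gt_of_ne tk with b | b
    · exact ⟨fun _ => ⟨fun c => absurd c (not_lt_of_gt a), fun c => absurd c (not_lt_of_gt b)⟩,
        fun _ => mul_pos_of_neg_of_neg a b⟩
    · refine ⟨fun c => absurd c (not_lt_of_gt (mul_neg_of_neg_of_pos a b)), fun c => ?_⟩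
      exact absurd (c.mpr b) (not_lt_of_gt a)
    · refine ⟨fun c => absurd c (not_lt_of_gt (mul_neg_of_pos_of_neg a b)), fun c => ?_⟩
      exact absurd (c.mp a) (not_lt_of_gt b)
    · exact ⟨fun _ => ⟨fun _ => b, fun _ => a⟩, fun _ => mul_pos a b⟩
  rw [hsign]
  unfold Ext at he
  rw [h.q_pe] at he
  rcases he with ⟨h1, h2⟩ | ⟨h1, h2⟩
  · obtain ⟨-, ⟨y, y1, y2, y3⟩⟩ := h.near_ext_right hk h1 h2
    have := h.alt hk y y1 y2
    unfold AltAt at this
    rw [y3] at this
    simp only [h2, true_iff] at this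
    by_cases h0 : 0 < turn n q k
    · simp only [h0, if_true, iff_true] at this ⊢
      rw [this, Nat.odd_add_one, Nat.not_odd_iff_even]
    · simp only [h0, if_false, add_zero, iff_false] at this ⊢
      rw [this, Nat.not_odd_iff_even]
  · obtain ⟨-, ⟨y, y1, y2, y3⟩⟩ := h.near_ext_left hk h1 h2
    have := h.alt hk y y1 y2
    unfold AltAt at this
    rw [y3] at this
    simp only [not_lt_of_gt h2, false_iff] at this
    by_cases h0 : 0 < turn n q k
    · simp only [h0, if_true, add_zero, iff_true] at this ⊢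
      rw [← Nat.not_odd_iff_even]
      tauto
    · simp only [h0, if_false, iff_false] at this ⊢
      rw [Nat.odd_add_one, Nat.not_odd_iff_even] at this
      tauto

theorem parity_right (h : Pg n q) {k : ℕ} (hk : k < n) (h1 : (q (k + (n - 1))).1 < (q k).1)
    (h2 : (q k).1 < (q (k + 1)).1) : 0 < turn n q 0 ↔ Odd (aboveCount n q k) := by
  rw [h.q_pe] at h1
  obtain ⟨-, ⟨y, y1, y2, y3⟩⟩ := h.near_through_right hk h1 h2
  have := h.alt hk y y1 y2
  unfold AltAt at this
  rw [y3] at this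
  simp only [h2, true_iff] at this
  exact this

theorem parity_left (h : Pg n q) {k : ℕ} (hk : k < n) (h1 : (q k).1 < (q (k + (n - 1))).1)
    (h2 : (q (k + 1)).1 < (q k).1) : 0 < turn n q 0 ↔ Even (aboveCount n q k) := by
  rw [h.q_pe] at h1
  obtain ⟨-, ⟨y, y1, y2, y3⟩⟩ := h.near_through_left hk h1 h2
  have := h.alt hk y y1 y2
  unfold AltAt at this
  rw [y3] at this
  simp only [not_lt_of_gt h2, false_iff] at this
  rw [← Nat.not_odd_iff_even]
  tauto

end Pool.Agent.Lib.MP_9bb24e_co
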