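import Pool.Agent.Lib.MP_9bb24e_co.AreaAux
import Pool.Agent.Lib.MP_9bb24e_co.Ident
import Pool.Agent.Lib.MP_9bb24e_co.Parity

/-!
Module D: the shoelace sum has the sign of the turn at the leftmost vertex.
-/

set_option autoImplicit false

namespace Pool.Agent.Lib.MP_9bb24e_co

open Finset

variable {n : ℕ} {q : ℕ → ℝ × ℝ}

theorem area_sign (h : Pg n q) :
    0 < turn n q 0 * ∑ i ∈ range n, ((q i).1 * (q (i + 1)).2 - (q (i + 1)).1 * (q i).2) :=
  area_sign_of_alt h (fun hi _ hx hs => alternation h hi hx hs) (turn_neC h 0)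

end Pool.Agent.Lib.MP_9bb24e_co
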