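import Pool.Agent.Lib.MP_9bb24e_co.Basic
import Pool.Agent.Lib.MP_9bb24e_co.Geom

/-!
Module D: the shoelace sum has the sign of the turn at the leftmost vertex.
-/

set_option autoImplicit false

namespace Pool.Agent.Lib.MP_9bb24e_co

open Finset MeasureTheory

/-- Alternating sums of an even number of different reals, in decreasing order. -/
theorem alt_idxD (h : ℕ → ℝ) : ∀ (k : ℕ) (E : Finset ℕ), E.card = 2 * k → Set.InjOn h E →
    0 ≤ ∑ i ∈ E, (-1 : ℝ) ^ (E.filter (fun j => h i < h j)).card * h i ∧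
      (0 < k → 0 < ∑ i ∈ E, (-1 : ℝ) ^ (E.filter (fun j => h i < h j)).card * h i) := by
  intro k
  induction k with
  | zero =>
    intro E hE _
    have : E = ∅ := by rw [← Finset.card_eq_zero]; omega
    subst this
    simp
  | succ k ih =>
    intro E hE hinj
    have hne : E.Nonempty := by rw [← Finset.card_pos]; omega
    obtain ⟨i1, hi1, hmax1⟩ := E.exists_max_image h hne
    have hc1 : (E.erase i1).card = 2 * k + 1 := by rw [card_erase_of_mem hi1]; omega
    have hne1 : (E.erase i1).Nonempty := by rw [← Finset.card_pos]; omega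
    obtain ⟨i2, hi2, hmax2⟩ := (E.erase i1).exists_max_image h hne1
    have hc2 : ((E.erase i1).erase i2).card = 2 * k := by rw [card_erase_of_mem hi2]; omega
    set E2 := (E.erase i1).erase i2 with hE2
    have hi2E : i2 ∈ E := mem_of_mem_erase hi2
    have h12 : h i2 < h i1 := by
      refine lt_of_le_of_ne (hmax1 i2 hi2E) ?_
      intro he
      exact (ne_of_mem_erase hi2) (hinj hi2E hi1 he)
    have hsub : ∀ i ∈ E2, i ∈ E ∧ i ≠ i1 ∧ i ≠ i2 ∧ h i < h i2 := by
      intro i hi
      have a1 := mem_of_mem_erase hi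
      have a2 := mem_of_mem_erase a1
      refine ⟨a2, ne_of_mem_erase a1, ne_of_mem_erase hi, ?_⟩
      refine lt_of_le_of_ne (hmax2 i a1) ?_
      intro he
      exact (ne_of_mem_erase hi) (hinj a2 hi2E he)
    have hcount : ∀ i ∈ E2, (E.filter (fun j => h i < h j)).card =
        (E2.filter (fun j => h i < h j)).card + 2 := by
      intro i hi
      obtain ⟨_, b2, b3, b4⟩ := hsub i hi
      have : E.filter (fun j => h i < h j) =
          insert i1 (insert i2 (E2.filter (fun j => h i < h j))) := by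
        ext j
        simp only [mem_filter, mem_insert, hE2, mem_erase]
        constructor
        · rintro ⟨hj, hlt⟩
          by_cases e1 : j = i1
          · exact Or.inl e1
          · by_cases e2 : j = i2
            · exact Or.inr (Or.inl e2)
            · exact Or.inr (Or.inr ⟨⟨e2, e1, hj⟩, hlt⟩)
        · rintro (e | e | e)
          · rw [e]; exact ⟨hi1, b4.trans h12⟩
          · rw [e]; exact ⟨hi2E, b4⟩
          · exact ⟨e.1.2.2, e.2⟩
      rw [this, card_insert_of_notMem, card_insert_of_notMem]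
      · simp [hE2]
      · simp only [mem_insert, mem_filter, hE2, mem_erase, not_or]
        refine ⟨fun e => (ne_of_mem_erase hi2) e.symm, ?_⟩
        rintro ⟨⟨_, e, _⟩, _⟩
        exact e rfl
    have hs1 : ∑ i ∈ E, (-1 : ℝ) ^ (E.filter (fun j => h i < h j)).card * h i =
        (h i1 - h i2) +
          ∑ i ∈ E2, (-1 : ℝ) ^ (E2.filter (fun j => h i < h j)).card * h i := by
      rw [← Finset.add_sum_erase E _ hi1, ← Finset.add_sum_erase (E.erase i1) _ hi2]
      have c1 : E.filter (fun j => h i1 < h j) = ∅ := by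
        rw [Finset.filter_eq_empty_iff]
        intro j hj
        exact not_lt.mpr (hmax1 j hj)
      have c2 : E.filter (fun j => h i2 < h j) = {i1} := by
        ext j
        simp only [mem_filter, mem_singleton]
        constructor
        · rintro ⟨hj, hlt⟩
          by_contra hne
          exact absurd (hmax2 j (mem_erase.mpr ⟨hne, hj⟩)) (not_le.mpr hlt)
        · rintro rfl
          exact ⟨hi1, h12⟩
      rw [c1, c2, card_empty, card_singleton]
      have c3 : ∑ i ∈ (E.erase i1).erase i2, (-1 : ℝ) ^ (E.filter (fun j => h i < h j)).card * h i =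
          ∑ i ∈ E2, (-1 : ℝ) ^ (E2.filter (fun j => h i < h j)).card * h i := by
        apply Finset.sum_congr rfl
        intro i hi
        rw [hcount i hi, pow_add]; norm_num
      rw [c3]
      ring
    have hinj2 : Set.InjOn h E2 := by
      intro i hi j hj hij
      exact hinj (hsub i hi).1 (hsub j hj).1 hij
    obtain ⟨g1, _⟩ := ih E2 hc2 hinj2
    rw [hs1]
    constructor
    · linarith
    · intro _; linarith

theorem continuous_htD (a b : ℝ × ℝ) : Continuous (ht a b) := by
  unfold ht
  fun_prop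

theorem int_htD {a b : ℝ × ℝ} (h : a.1 < b.1) :
    ∫ x in Set.Ioo a.1 b.1, ht a b x = (b.1 - a.1) * (a.2 + b.2) / 2 := by
  rw [← integral_Ioc_eq_integral_Ioo, ← intervalIntegral.integral_of_le h.le]
  have hd : ∀ x ∈ Set.uIcc a.1 b.1, HasDerivAt
      (fun x => a.2 * x + (x - a.1) ^ 2 * (b.2 - a.2) / (b.1 - a.1) / 2) (ht a b x) x := by
    intro x _
    have h1 : HasDerivAt (fun x : ℝ => a.2 * x) (a.2 * 1) x := (hasDerivAt_id x).const_mul a.2
    have h2 : HasDerivAt (fun x : ℝ => (x - a.1)) 1 x := (hasDerivAt_id x).sub_const a.1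
    have h3 := ((((h2.pow 2).mul_const (b.2 - a.2)).div_const (b.1 - a.1)).div_const 2)
    have h4 := h1.add h3
    refine HasDerivAt.congr_deriv (f := fun x => a.2 * x + (x - a.1) ^ 2 * (b.2 - a.2) /
      (b.1 - a.1) / 2) h4 ?_
    unfold ht
    simp only [Nat.cast_ofNat, Nat.add_one_sub_one, pow_one]
    ring
  rw [intervalIntegral.integral_eq_sub_of_hasDerivAt hd
    ((continuous_htD a b).intervalIntegrable _ _)]
  have h5 : b.1 - a.1 ≠ 0 := by linarith
  field_simp
  ring

open Classical in
/-- Signed height of the edge `a b` over `x`. -/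
noncomputable def SD (a b : ℝ × ℝ) (x : ℝ) : ℝ :=
  if Spans a b x then (if a.1 < b.1 then 1 else -1) * ht a b x else 0

theorem SD_right {a b : ℝ × ℝ} (h : a.1 < b.1) :
    SD a b = Set.indicator (Set.Ioo a.1 b.1) (ht a b) := by
  classical
  funext x
  unfold SD
  by_cases hx : x ∈ Set.Ioo a.1 b.1
  · rw [Set.indicator_of_mem hx, if_pos (show Spans a b x from Or.inl hx), if_pos h, one_mul]
  · rw [Set.indicator_of_notMem hx, if_neg]
    rintro (h1 | h1)
    · exact hx h1
    · linarith [h1.1, h1.2]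

theorem SD_left {a b : ℝ × ℝ} (h : b.1 < a.1) :
    SD a b = fun x => - Set.indicator (Set.Ioo b.1 a.1) (ht b a) x := by
  classical
  funext x
  unfold SD
  by_cases hx : x ∈ Set.Ioo b.1 a.1
  · rw [Set.indicator_of_mem hx, if_pos (show Spans a b x from Or.inr hx),
      if_neg (not_lt.mpr h.le), ht_symm h.ne]; ring
  · rw [Set.indicator_of_notMem hx, if_neg, neg_zero]
    rintro (h1 | h1)
    · linarith [h1.1, h1.2]
    · exact hx h1

theorem integrable_indD {a b : ℝ × ℝ} (_h : a.1 < b.1) :
    Integrable (Set.indicator (Set.Ioo a.1 b.1) (ht a b)) := by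
  rw [integrable_indicator_iff measurableSet_Ioo]
  exact ((continuous_htD a b).continuousOn.integrableOn_Icc).mono_set Set.Ioo_subset_Icc_self

theorem integrable_SD {a b : ℝ × ℝ} (h : a.1 ≠ b.1) : Integrable (SD a b) := by
  rcases lt_or_gt_of_ne h with h1 | h1
  · rw [SD_right h1]; exact integrable_indD h1
  · rw [SD_left h1]; exact (integrable_indD h1).neg

theorem integral_SD {a b : ℝ × ℝ} (h : a.1 ≠ b.1) :
    ∫ x, SD a b x = (b.1 - a.1) * (a.2 + b.2) / 2 := by
  rcases lt_or_gt_of_ne h with h1 | h1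
  · rw [SD_right h1, integral_indicator measurableSet_Ioo, int_htD h1]
  · rw [SD_left h1, integral_neg, integral_indicator measurableSet_Ioo, int_htD h1]; ring

variable {n : ℕ} {q : ℕ → ℝ × ℝ}

theorem sum_shoelaceD (h : Pg n q) :
    ∑ i ∈ range n, ((q i).1 * (q (i + 1)).2 - (q (i + 1)).1 * (q i).2) =
      -2 * ∑ i ∈ range n, ((q (i + 1)).1 - (q i).1) * ((q i).2 + (q (i + 1)).2) / 2 := by
  have ht := Finset.sum_range_sub (fun i => (q i).1 * (q i).2) n
  simp only [h.q_n, sub_self] at ht
  have : ∀ i ∈ range n, ((q i).1 * (q (i + 1)).2 - (q (i + 1)).1 * (q i).2) =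
      ((q (i + 1)).1 * (q (i + 1)).2 - (q i).1 * (q i).2) +
      (-2) * (((q (i + 1)).1 - (q i).1) * ((q i).2 + (q (i + 1)).2) / 2) := by
    intro i _; ring
  rw [Finset.sum_congr rfl this, Finset.sum_add_distrib, ht, ← Finset.mul_sum, zero_add]

open Classical in
theorem even_spansD (h : Pg n q) {x : ℝ} (hx : ∀ k, k < n → (q k).1 ≠ x) :
    Even ((range n).filter (fun i => Spans (q i) (q (i + 1)) x)).card := by
  have hx' : ∀ k, k ≤ n → (q k).1 ≠ x := by
    intro k hk
    rcases Nat.lt_or_ge k n with h1 | h1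
    · exact hx k h1
    · have : k = n := by omega
      rw [this, h.q_n]
      exact hx 0 (by have := h.three; omega)
  set b : ℕ → ℕ := fun i => if x < (q i).1 then 1 else 0 with hb
  have e1 : ∀ i ∈ range n, (if Spans (q i) (q (i + 1)) x then 1 else 0) + 2 * (b i * b (i + 1)) =
      b i + b (i + 1) := by
    intro i hi
    rw [mem_range] at hi
    rcases lt_or_gt_of_ne (hx' i hi.le) with a1 | a1 <;>
      rcases lt_or_gt_of_ne (hx' (i + 1) hi) with a2 | a2
    · have hs : ¬ Spans (q i) (q (i + 1)) x := by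
        rintro (⟨c1, c2⟩ | ⟨c1, c2⟩) <;> linarith
      simp [hb, hs, not_lt.mpr a1.le, not_lt.mpr a2.le]
    · have hs : Spans (q i) (q (i + 1)) x := Or.inl ⟨a1, a2⟩
      simp [hb, hs, not_lt.mpr a1.le, a2]
    · have hs : Spans (q i) (q (i + 1)) x := Or.inr ⟨a2, a1⟩
      simp [hb, hs, a1, not_lt.mpr a2.le]
    · have hs : ¬ Spans (q i) (q (i + 1)) x := by
        rintro (⟨c1, c2⟩ | ⟨c1, c2⟩) <;> linarith
      simp [hb, hs, a1, a2]
  have e2 := Finset.sum_congr rfl e1
  rw [Finset.sum_add_distrib, Finset.sum_add_distrib, ← Finset.mul_sum] at e2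
  have e3 : ∑ i ∈ range n, b (i + 1) = ∑ i ∈ range n, b i := by
    have c1 := Finset.sum_range_succ b n
    have c2 := Finset.sum_range_succ' b n
    have c3 : b n = b 0 := by simp only [hb, h.q_n]
    omega
  rw [Finset.card_filter]
  rw [e3] at e2
  exact ⟨∑ i ∈ range n, b i - ∑ i ∈ range n, b i * b (i + 1), by omega⟩

theorem ht_injD (h : Pg n q) {x : ℝ} (hx : ∀ k, k < n → (q k).1 ≠ x) {i j : ℕ} (hi : i < n)
    (hj : j < n) (si : Spans (q i) (q (i + 1)) x) (sj : Spans (q j) (q (j + 1)) x)
    (he : ht (q i) (q (i + 1)) x = ht (q j) (q (j + 1)) x) : i = j := by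
  by_contra hij
  have hx' : ∀ k, k ≤ n → (q k).1 ≠ x := by
    intro k hk
    rcases Nat.lt_or_ge k n with h1 | h1
    · exact hx k h1
    · have : k = n := by omega
      rw [this, h.q_n]
      exact hx 0 (by have := h.three; omega)
  have hmm : ∀ a b : ℝ × ℝ, Spans a b x → min a.1 b.1 ≤ x ∧ x ≤ max a.1 b.1 := by
    rintro a b (⟨c1, c2⟩ | ⟨c1, c2⟩)
    · exact ⟨(min_le_left _ _).trans c1.le, c2.le.trans (le_max_right _ _)⟩
    · exact ⟨(min_le_right _ _).trans c1.le, c2.le.trans (le_max_left _ _)⟩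
  have := edge_sep h hi hj hij (le_refl x) (hmm _ _ si).1 (hmm _ _ si).2 (hmm _ _ sj).1
    (hmm _ _ sj).2 (by
      intro k l hk _ _
      exact lt_or_gt_of_ne (hx' k (by omega)))
  rcases this with h1 | h1
  · exact absurd he h1.1.ne
  · exact absurd he.symm h1.1.ne

open Classical in
theorem area_auxD (h : Pg n q)
    (alt : ∀ {i : ℕ}, i < n → ∀ {x : ℝ}, (∀ k, k < n → (q k).1 ≠ x) →
      Spans (q i) (q (i + 1)) x →
      ((q i).1 < (q (i + 1)).1 ↔ (0 < turn n q 0 ↔ Odd (aboveAt n q i x))))
    {x : ℝ} (hx : ∀ k, k < n → (q k).1 ≠ x) :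
    0 ≤ -(if 0 < turn n q 0 then 1 else -1) * ∑ i ∈ range n, SD (q i) (q (i + 1)) x ∧
    ((∃ i < n, Spans (q i) (q (i + 1)) x) →
      0 < -(if 0 < turn n q 0 then 1 else -1) * ∑ i ∈ range n, SD (q i) (q (i + 1)) x) := by
  set E := (range n).filter (fun i => Spans (q i) (q (i + 1)) x) with hE
  obtain ⟨k, hk⟩ := even_spansD h hx
  have hk2 : E.card = 2 * k := by rw [hE, hk]; ring
  have hinj : Set.InjOn (fun i => ht (q i) (q (i + 1)) x) E := by
    intro i hi j hj he
    have hi' := mem_filter.mp (mem_coe.mp hi)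
    have hj' := mem_filter.mp (mem_coe.mp hj)
    exact ht_injD h hx (mem_range.mp hi'.1) (mem_range.mp hj'.1) hi'.2 hj'.2 he
  have hmain := alt_idxD (fun i => ht (q i) (q (i + 1)) x) k E hk2 hinj
  have hsum : -(if 0 < turn n q 0 then (1 : ℝ) else -1) * ∑ i ∈ range n, SD (q i) (q (i + 1)) x =
      ∑ i ∈ E, (-1 : ℝ) ^ (E.filter (fun j => ht (q i) (q (i + 1)) x <
        ht (q j) (q (j + 1)) x)).card * ht (q i) (q (i + 1)) x := by
    rw [Finset.mul_sum, hE, Finset.sum_filter]
    apply Finset.sum_congr rfl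
    intro i hi
    rw [mem_range] at hi
    unfold SD
    by_cases hs : Spans (q i) (q (i + 1)) x
    · rw [if_pos hs, if_pos hs, Finset.filter_filter]
      have hab : ((range n).filter (fun j => Spans (q j) (q (j + 1)) x ∧
          ht (q i) (q (i + 1)) x < ht (q j) (q (j + 1)) x)).card = aboveAt n q i x := by
        unfold aboveAt
        congr
      rw [hab]
      have ha := alt hi hx hs
      by_cases ht0 : 0 < turn n q 0
      · rw [if_pos ht0]
        by_cases hd : (q i).1 < (q (i + 1)).1
        · rw [if_pos hd]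
          have hodd : Odd (aboveAt n q i x) := (ha.mp hd).mp ht0
          rw [hodd.neg_one_pow]; ring
        · rw [if_neg hd]
          have hev : Even (aboveAt n q i x) := by
            rw [← Nat.not_odd_iff_even]
            intro ho
            exact hd (ha.mpr ⟨fun _ => ho, fun _ => ht0⟩)
          rw [hev.neg_one_pow]; ring
      · rw [if_neg ht0]
        by_cases hd : (q i).1 < (q (i + 1)).1
        · rw [if_pos hd]
          have hev : Even (aboveAt n q i x) := by
            rw [← Nat.not_odd_iff_even]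
            intro ho
            exact ht0 ((ha.mp hd).mpr ho)
          rw [hev.neg_one_pow]; ring
        · rw [if_neg hd]
          have hodd : Odd (aboveAt n q i x) := by
            by_contra ho
            exact hd (ha.mpr ⟨fun hh => absurd hh ht0, fun hh => absurd hh ho⟩)
          rw [hodd.neg_one_pow]; ring
    · rw [if_neg hs, if_neg hs, mul_zero]
  rw [hsum]
  refine ⟨hmain.1, ?_⟩
  rintro ⟨i, hi, hs⟩
  apply hmain.2
  have : 0 < E.card := Finset.card_pos.mpr ⟨i, mem_filter.mpr ⟨mem_range.mpr hi, hs⟩⟩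
  omega

theorem area_sign_of_alt (h : Pg n q)
    (alt : ∀ {i : ℕ}, i < n → ∀ {x : ℝ}, (∀ k, k < n → (q k).1 ≠ x) →
      Spans (q i) (q (i + 1)) x →
      ((q i).1 < (q (i + 1)).1 ↔ (0 < turn n q 0 ↔ Odd (aboveAt n q i x))))
    (h0 : turn n q 0 ≠ 0) :
    0 < turn n q 0 * ∑ i ∈ range n, ((q i).1 * (q (i + 1)).2 - (q (i + 1)).1 * (q i).2) := by
  classical
  have hn := h.three
  set c : ℝ := if 0 < turn n q 0 then 1 else -1 with hc
  set G : ℝ → ℝ := fun x => -c * ∑ i ∈ range n, SD (q i) (q (i + 1)) x with hG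
  have hGi : Integrable G := by
    apply Integrable.const_mul
    apply integrable_finsetSum
    intro i hi
    exact integrable_SD (h.ne_succ (mem_range.mp hi))
  have hfin : (Set.range (fun k : Fin n => (q k).1)).Finite := Set.finite_range _
  set Z : Set ℝ := Set.range (fun k : Fin n => (q k).1) with hZ
  have hgen : ∀ x, x ∉ Z → ∀ k, k < n → (q k).1 ≠ x := by
    intro x hx k hk he
    exact hx ⟨⟨k, hk⟩, he⟩
  have hnn : 0 ≤ᵐ[volume] G := by
    have hz : Zᶜ ∈ ae (volume : Measure ℝ) := by
      rw [mem_ae_iff, compl_compl]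
      exact hfin.measure_zero _
    filter_upwards [hz] with x hx
    exact (area_auxD h alt (hgen x hx)).1
  have hpos : 0 < ∫ x, G x := by
    rw [integral_pos_iff_support_of_nonneg_ae hnn hGi]
    have h01 : (q 0).1 < (q 1).1 := h.left 1 (by omega) (by omega)
    have hsub : Set.Ioo (q 0).1 (q 1).1 \ Z ⊆ Function.support G := by
      rintro x ⟨hx, hxZ⟩
      have := (area_auxD h alt (hgen x hxZ)).2 ⟨0, by omega, Or.inl hx⟩
      exact this.ne'
    refine lt_of_lt_of_le ?_ (measure_mono hsub)
    rw [measure_sdiff_null (hfin.measure_zero _), Real.volume_Ioo, ENNReal.ofReal_pos]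
    linarith
  have hint : ∫ x, G x = -c * ∑ i ∈ range n, ((q (i + 1)).1 - (q i).1) *
      ((q i).2 + (q (i + 1)).2) / 2 := by
    rw [hG, integral_const_mul, integral_finsetSum]
    · congr 1
      apply Finset.sum_congr rfl
      intro i hi
      exact integral_SD (h.ne_succ (mem_range.mp hi))
    · intro i hi
      exact integrable_SD (h.ne_succ (mem_range.mp hi))
  rw [sum_shoelaceD h]
  rw [hint] at hpos
  set A := ∑ i ∈ range n, ((q (i + 1)).1 - (q i).1) * ((q i).2 + (q (i + 1)).2) / 2
  rcases lt_or_gt_of_ne h0 with h1 | h1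
  · have : c = -1 := by rw [hc, if_neg (not_lt.mpr h1.le)]
    rw [this] at hpos
    nlinarith
  · have : c = 1 := by rw [hc, if_pos h1]
    rw [this] at hpos
    nlinarith

end Pool.Agent.Lib.MP_9bb24e_co
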