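import Pool.Agent.Lib.MP_9bb24e_co.Defs

/-!
Internal notions used in the proof: polygons given as periodic sequences starting at the leftmost
vertex, heights of edges, edges above a vertex, extremal vertices, weights.
-/

set_option autoImplicit false

namespace Pool.Agent.Lib.MP_9bb24e_co

open Finset

/-- A simple polygon with vertices `q 0, ..., q (n - 1)` in general position, with distinct
abscissas, given as a periodic sequence; `q 0` is the leftmost vertex. Edge `i` is the segment
from `q i` to `q (i + 1)`. -/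
structure Pg (n : ℕ) (q : ℕ → ℝ × ℝ) : Prop where
  three : 3 ≤ n
  per : ∀ k, q (k + n) = q k
  xinj : ∀ i, i < n → ∀ j, j < n → (q i).1 = (q j).1 → i = j
  gp : ∀ i, i < n → ∀ j, j < n → ∀ k, k < n → i ≠ j → j ≠ k → i ≠ k →
    cross (q i) (q j) (q k) ≠ 0
  simple : ∀ i, i < n → ∀ j, j < n → i ≠ j → ∀ z : ℝ × ℝ, z ∈ segment ℝ (q i) (q (i + 1)) →
    z ∈ segment ℝ (q j) (q (j + 1)) → (z = q i ∨ z = q (i + 1)) ∧ (z = q j ∨ z = q (j + 1))
  left : ∀ i, 0 < i → i < n → (q 0).1 < (q i).1

/-- The segment from `a` to `b` passes strictly over the abscissa `x`. -/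
def Spans (a b : ℝ × ℝ) (x : ℝ) : Prop := (a.1 < x ∧ x < b.1) ∨ (b.1 < x ∧ x < a.1)

/-- The height of the line through `a` and `b` at the abscissa `x`. -/
noncomputable def ht (a b : ℝ × ℝ) (x : ℝ) : ℝ := a.2 + (x - a.1) * (b.2 - a.2) / (b.1 - a.1)

/-- The segment from `a` to `b` passes strictly above the point `v`. -/
def Above (a b v : ℝ × ℝ) : Prop := Spans a b v.1 ∧ v.2 < ht a b v.1

open Classical in
/-- The number of edges of the polygon that pass above the vertex `q k`. -/
noncomputable def aboveCount (n : ℕ) (q : ℕ → ℝ × ℝ) (k : ℕ) : ℕ :=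
  ((range n).filter (fun i => Above (q i) (q (i + 1)) (q k))).card

open Classical in
/-- The number of edges of the polygon that pass above edge `i` at the abscissa `x`. -/
noncomputable def aboveAt (n : ℕ) (q : ℕ → ℝ × ℝ) (i : ℕ) (x : ℝ) : ℕ :=
  ((range n).filter (fun j => Spans (q j) (q (j + 1)) x ∧
    ht (q i) (q (i + 1)) x < ht (q j) (q (j + 1)) x)).card

/-- The turn at vertex `k` (positive for a left turn). -/
def turn (n : ℕ) (q : ℕ → ℝ × ℝ) (k : ℕ) : ℝ := cross (q (k + (n - 1))) (q k) (q (k + 1))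

/-- Vertex `k` is extremal: both neighbours on the same side in the `x` direction. -/
def Ext (n : ℕ) (q : ℕ → ℝ × ℝ) (k : ℕ) : Prop :=
  ((q k).1 < (q (k + (n - 1))).1 ∧ (q k).1 < (q (k + 1)).1) ∨
    ((q (k + (n - 1))).1 < (q k).1 ∧ (q (k + 1)).1 < (q k).1)

/-- At a non extremal vertex: the vertex lies below the line through its two neighbours, i.e.
the orientation of (left neighbour, vertex, right neighbour) is positive. -/
def Cup (n : ℕ) (q : ℕ → ℝ × ℝ) (k : ℕ) : Prop :=
  ((q (k + (n - 1))).1 < (q (k + 1)).1 ∧ 0 < cross (q (k + (n - 1))) (q k) (q (k + 1))) ∨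
    ((q (k + 1)).1 < (q (k + (n - 1))).1 ∧ 0 < cross (q (k + 1)) (q k) (q (k + (n - 1))))

open Classical in
/-- The weight of vertex `k`, in thirds: through convex `0`, through reflex `3`, extremal convex
`2`, extremal reflex `1`, convexity being decided by the parity of the number of edges above. -/
noncomputable def wtG (n : ℕ) (q : ℕ → ℝ × ℝ) (k : ℕ) : ℕ :=
  if Ext n q k then (if Even (aboveCount n q k) then 2 else 1)
  else (if (Cup n q k ↔ Odd (aboveCount n q k)) then 0 else 3)

end Pool.Agent.Lib.MP_9bb24e_co
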