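import Pool.Agent.Lib.MP_9bb24e_co.Search

/-!
Soundness of the kernel checked search, and `gadget_check`.
-/

set_option autoImplicit false
set_option maxHeartbeats 1000000

namespace Pool.Agent.Lib.MP_9bb24e_co
open Finset
namespace Chk

lemma nz_eq (t : ℕ) (a b : Bool) : nz t a b = if t = 0 then a else b := by
  cases t <;> rfl

lemma force_eq (n : ℕ) (k : ℕ → Bool) : force n k = k n := by
  cases n <;> rfl

lemma andb_eq (a b : Bool) : andb a b = (a && b) := by
  cases a <;> rfl

lemma go_true {ih : ℕ → ℕ → ℕ → Bool} {ms mp S P B w : ℕ} (h : go ih ms mp S P B w = true) :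
    B ≤ w ∨ ih (S &&& ms) (P &&& mp) (B - w) = true := by
  rcases Nat.eq_zero_or_pos (B - w) with h0 | h0
  · left; omega
  · right
    obtain ⟨m, hm⟩ : ∃ m, B - w = m + 1 := ⟨B - w - 1, by omega⟩
    have : go ih ms mp S P B w = andb (ih (S &&& ms) (P &&& mp) (m + 1)) true := by
      show Nat.rec (motive := fun _ => Bool) true (fun m _ =>
        force (Nat.land S ms) fun S' => force (Nat.land P mp) fun P' =>
          andb (ih S' P' (Nat.succ m)) true) (B - w) = _
      rw [hm]
      show force (Nat.land S ms) (fun S' => force (Nat.land P mp) fun P' =>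
          andb (ih S' P' (Nat.succ m)) true) = _
      rw [force_eq, force_eq]
      rfl
    rw [this, andb_eq, Bool.and_true] at h
    rw [hm]
    exact h

lemma addE_eq (c : Cand) (S : ℕ) :
    addE c S = if S &&& c.db = 0 then S ||| c.up else S ||| c.uf := by
  show Nat.rec (motive := fun _ => Nat) (S ||| c.up) (fun _ _ => S ||| c.uf) (S &&& c.db) = _
  cases S &&& c.db <;> rfl

lemma loop1_true {S : ℕ} {f : Cand → Bool} {l : List Cand} (h : loop1 S f l = true) :
    ∀ c ∈ l, S &&& c.cf = 0 → f c = true := by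
  induction l with
  | nil => simp
  | cons c t ih =>
    have h' : andb (nz (S &&& c.cf) (f c) true) (loop1 S f t) = true := h
    rw [andb_eq, Bool.and_eq_true, nz_eq] at h'
    intro d hd hS
    rcases List.mem_cons.1 hd with rfl | hd
    · have := h'.1
      rwa [if_pos hS] at this
    · exact ih h'.2 d hd hS

lemma loop2_true {S : ℕ} {f : Cand → Cand → Bool} {l : List Cand} (h : loop2 S f l = true) :
    l.Pairwise (fun c d => S &&& c.cf = 0 → S &&& d.cf = 0 → f c d = true) := by
  induction l with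
  | nil => exact List.Pairwise.nil
  | cons c t ih =>
    have h' : andb (nz (S &&& c.cf) (loop1 S (f c) t) true) (loop2 S f t) = true := h
    rw [andb_eq, Bool.and_eq_true, nz_eq] at h'
    refine List.Pairwise.cons ?_ (ih h'.2)
    intro d hd hc hS
    have := h'.1
    rw [if_pos hc] at this
    exact loop1_true this d hd hS

lemma land_pow (S k : ℕ) : S &&& 2 ^ k = 0 ↔ S.testBit k = false := by
  rw [Nat.and_two_pow]
  cases S.testBit k <;> simp

lemma land_pow' (S k : ℕ) : Nat.land S (2 ^ k) = 0 ↔ S.testBit k = false := land_pow S k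

/-- The bits of the state after the update by the new neighbours `x`, `y` of `i`. -/
def fu (i x S : ℕ) (f : Bool → Bool) : Bool :=
  decide (x < i) && f (decide (1 ≤ x) && S.testBit (pD x))

/-- `S'` is the state `S` updated by the new neighbours `x`, `y` of `i`. -/
structure Step (i x y S S' : ℕ) : Prop where
  C : ∀ w u, 1 ≤ w → w < i → u < w → S'.testBit (pC w u) =
    (S.testBit (pC w u) || fu i x S (cs i x w u) || fu i y S (cs i y w u))
  L : ∀ w, 1 ≤ w → w < i → S'.testBit (pL w) =
    (S.testBit (pL w) || fu i x S (ls i x w) || fu i y S (ls i y w))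
  D : ∀ w, 1 ≤ w → w < i → S'.testBit (pD w) =
    (S.testBit (pD w) || fu i x S (fun _ => decide (w = x)) || fu i y S (fun _ => decide (w = y)))
  F : ∀ w, 1 ≤ w → w < i → S'.testBit (pF w) =
    (S.testBit (pF w) || fu i x S (fun D => D && decide (w = x)) ||
      fu i y S (fun D => D && decide (w = y)))
  K : ∀ w u, 1 ≤ w → w < i → u < w → S'.testBit (pK w u) =
    (S.testBit (pK w u) || fu i x S (ks i x w u) || fu i y S (ks i y w u))

lemma step_none {i x y S : ℕ} (hx : i < x) (hy : i < y) : Step i x y S S := by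
  have h1 : ¬ x < i := by omega
  have h2 : ¬ y < i := by omega
  constructor <;> intros <;> simp [fu, h1, h2]

lemma off_lt {w i : ℕ} (h : w < i) : w * w + 4 * w + 2 < i * i + 2 * i := by
  have : (w + 1) * (w + 1) ≤ i * i := Nat.mul_le_mul h h
  nlinarith

lemma step_mask {i x y S S' : ℕ} (h : Step i x y S S') :
    Step i x y S (S' &&& (2 ^ (i * i + 2 * i) - 1)) := by
  have key : ∀ w k, w < i → k ≤ w * w + 4 * w + 2 →
      (S' &&& (2 ^ (i * i + 2 * i) - 1)).testBit k = S'.testBit k := by
    intro w k hw hk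
    have := off_lt hw
    rw [Nat.testBit_and, Nat.testBit_two_pow_sub_one]
    simp only [show k < i * i + 2 * i by omega, decide_true, Bool.and_true]
  constructor
  · intro w u h1 h2 h3
    rw [key w _ h2 (by unfold pC; omega)]; exact h.C w u h1 h2 h3
  · intro w h1 h2
    rw [key w _ h2 (by unfold pL; omega)]; exact h.L w h1 h2
  · intro w h1 h2
    rw [key w _ h2 (by unfold pD; omega)]; exact h.D w h1 h2
  · intro w h1 h2
    rw [key w _ h2 (by unfold pF; omega)]; exact h.F w h1 h2
  · intro w u h1 h2 h3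
    rw [key w _ h2 (by unfold pK; omega)]; exact h.K w u h1 h2 h3

/-- What `okU` says. -/
structure OkU (i z : ℕ) (f : Bool) (m : ℕ) : Prop where
  C : ∀ w u, 1 ≤ w → w < i → u < w → m.testBit (pC w u) = cs i z w u f
  L : ∀ w, 1 ≤ w → w < i → m.testBit (pL w) = ls i z w f
  D : ∀ w, 1 ≤ w → w < i → m.testBit (pD w) = decide (w = z)
  F : ∀ w, 1 ≤ w → w < i → m.testBit (pF w) = (f && decide (w = z))
  K : ∀ w u, 1 ≤ w → w < i → u < w → m.testBit (pK w u) = ks i z w u f

lemma OkU.of {i z : ℕ} {D : Bool} {m : ℕ} (h : okU i z D m = true) : OkU i z D m := by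
  unfold okU at h
  rw [List.all_eq_true] at h
  have h' : ∀ w, 1 ≤ w → w < i → m.testBit (pL w) = ls i z w D ∧ m.testBit (pD w) = decide (w = z) ∧
      m.testBit (pF w) = (D && decide (w = z)) ∧ ∀ u, u < w → m.testBit (pC w u) = cs i z w u D ∧
        m.testBit (pK w u) = ks i z w u D := by
    intro w h1 h2
    have h3 := h w (List.mem_range.2 h2)
    have h0 : w ≠ 0 := by omega
    simp only [h0, decide_false, Bool.false_or, Bool.and_eq_true, beq_iff_eq, List.all_eq_true,
      List.mem_range] at h3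
    exact ⟨h3.1.1.1, h3.1.1.2, h3.1.2, h3.2⟩
  exact ⟨fun w u h1 h2 h3 => ((h' w h1 h2).2.2.2 u h3).1, fun w h1 h2 => (h' w h1 h2).1,
    fun w h1 h2 => (h' w h1 h2).2.1, fun w h1 h2 => (h' w h1 h2).2.2.1,
    fun w u h1 h2 h3 => ((h' w h1 h2).2.2.2 u h3).2⟩

/-- What `okC` says. -/
structure OkC (i z : ℕ) (c : Cand) : Prop where
  cf : c.cf = 2 ^ pC i z
  cu : c.cu = 2 ^ pK i z
  db : c.db = if z = 0 then 0 else 2 ^ pD z
  up : OkU i z false c.up
  uf : z ≠ 0 → OkU i z true c.uf
  pm : ∀ v, v < i → c.pm.testBit v = (decide (z < v) && chi z v i)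

lemma OkC.of {i z : ℕ} {c : Cand} (h : okC i z c = true) : OkC i z c := by
  unfold okC at h
  simp only [Bool.and_eq_true, decide_eq_true_eq, Bool.or_eq_true, List.all_eq_true,
    List.mem_range, beq_iff_eq] at h
  obtain ⟨⟨⟨⟨⟨h1, h2⟩, h3⟩, h4⟩, h5⟩, h6⟩ := h
  refine ⟨h1, h2, h3, OkU.of h4, fun hz => OkU.of (h5.resolve_left hz), h6⟩

/-- What `okL` says. -/
structure OkL (i : ℕ) (lv : Lev) : Prop where
  pb : lv.pb = 2 ^ i
  d1 : lv.d1 = 2 ^ pD i
  d2 : lv.d2 = 2 ^ pF i
  cl : lv.cl = 2 ^ pL i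
  c0 : lv.c0 = 2 ^ pC i 0
  u0 : OkU i 0 false lv.u0
  ms : lv.ms = 2 ^ (i * i + 2 * i) - 1
  mp : lv.mp = 2 ^ i - 1
  len : lv.cands.length = i
  cands : ∀ z (h : z < lv.cands.length), OkC i z lv.cands[z]

lemma OkL.of {i : ℕ} {lv : Lev} (h : okL i lv = true) : OkL i lv := by
  unfold okL at h
  simp only [Bool.and_eq_true, decide_eq_true_eq, List.all_eq_true,
    List.mem_range] at h
  obtain ⟨⟨⟨⟨⟨⟨⟨⟨⟨h1, h2⟩, h3⟩, h4⟩, h5⟩, h6⟩, h7⟩, h8⟩, h9⟩, h10⟩ := h
  refine ⟨h1, h2, h3, h4, h5, OkU.of h6, h7, h8, h9, ?_⟩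
  intro z hz
  have := h10 z (by omega)
  rw [List.getElem?_eq_getElem hz] at this
  exact OkC.of this

/-- The update by one candidate. -/
lemma addE_step {i z : ℕ} {c : Cand} (h : OkC i z c) (S : ℕ) :
    ∃ m, addE c S = S ||| m ∧ OkU i z (decide (1 ≤ z) && S.testBit (pD z)) m := by
  rw [addE_eq, h.db]
  by_cases hz : z = 0
  · subst hz
    simp only [if_true, Nat.and_zero]
    exact ⟨c.up, rfl, h.up⟩
  · rw [if_neg hz]
    have h1 : decide (1 ≤ z) = true := by simp; omega
    rw [h1, Bool.true_and]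
    cases hb : S.testBit (pD z) with
    | false => rw [if_pos ((land_pow _ _).2 hb)]; exact ⟨_, rfl, h.up⟩
    | true =>
      rw [if_neg (by rw [land_pow, hb]; simp)]
      exact ⟨_, rfl, h.uf hz⟩

lemma step_one {i x y S m : ℕ} (hx : x < i) (hy : i < y)
    (hm : OkU i x (decide (1 ≤ x) && S.testBit (pD x)) m) : Step i x y S (S ||| m) := by
  have h2 : ¬ y < i := by omega
  constructor
  · intro w u h1 h3 h4; rw [Nat.testBit_or, hm.C w u h1 h3 h4]; simp [fu, hx, h2]
  · intro w h1 h3; rw [Nat.testBit_or, hm.L w h1 h3]; simp [fu, hx, h2]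
  · intro w h1 h3; rw [Nat.testBit_or, hm.D w h1 h3]; simp [fu, hx, h2]
  · intro w h1 h3; rw [Nat.testBit_or, hm.F w h1 h3]; simp [fu, hx, h2]
  · intro w u h1 h3 h4; rw [Nat.testBit_or, hm.K w u h1 h3 h4]; simp [fu, hx, h2]

lemma step_two {i x y S m m' : ℕ} (hxy : x < y) (hy : y < i)
    (hm : OkU i x (decide (1 ≤ x) && S.testBit (pD x)) m)
    (hm' : OkU i y (decide (1 ≤ y) && (S ||| m).testBit (pD y)) m') :
    Step i x y S (S ||| m ||| m') := by
  have hx : x < i := by omega
  have e : (S ||| m).testBit (pD y) = S.testBit (pD y) := by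
    rw [Nat.testBit_or, hm.D y (by omega) hy]
    have : ¬ y = x := by omega
    simp [this]
  rw [e] at hm'
  constructor
  · intro w u h1 h3 h4
    rw [Nat.testBit_or, Nat.testBit_or, hm.C w u h1 h3 h4, hm'.C w u h1 h3 h4]; simp [fu, hx, hy]
  · intro w h1 h3
    rw [Nat.testBit_or, Nat.testBit_or, hm.L w h1 h3, hm'.L w h1 h3]; simp [fu, hx, hy]
  · intro w h1 h3
    rw [Nat.testBit_or, Nat.testBit_or, hm.D w h1 h3, hm'.D w h1 h3]; simp [fu, hx, hy]
  · intro w h1 h3
    rw [Nat.testBit_or, Nat.testBit_or, hm.F w h1 h3, hm'.F w h1 h3]; simp [fu, hx, hy]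
  · intro w u h1 h3 h4
    rw [Nat.testBit_or, Nat.testBit_or, hm.K w u h1 h3 h4, hm'.K w u h1 h3 h4]
    simp [fu, hx, hy]

lemma step_zero {i S m : ℕ} (hi : 0 < i) (hm : OkU i 0 false m) : Step i 0 0 S (S ||| m) := by
  constructor
  · intro w u h1 h3 h4; rw [Nat.testBit_or, hm.C w u h1 h3 h4]; simp [fu, hi]
  · intro w h1 h3; rw [Nat.testBit_or, hm.L w h1 h3]; simp [fu, hi]
  · intro w h1 h3; rw [Nat.testBit_or, hm.D w h1 h3]; simp [fu, hi]
  · intro w h1 h3; rw [Nat.testBit_or, hm.F w h1 h3]; simp [fu, hi]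
  · intro w u h1 h3 h4; rw [Nat.testBit_or, hm.K w u h1 h3 h4]; simp [fu, hi]


/-- The number of edges above `v` ending on the right at `w`. -/
def cnt (a b : ℕ → ℕ) (v w : ℕ) : ℕ :=
  (if a w < v ∧ chi (a w) v w = true then 1 else 0) +
    (if b w < v ∧ chi (b w) v w = true then 1 else 0)

/-- The invariant: `S`, `P` describe the configuration restricted to the vertices `> i`. -/
structure Inv (a b : ℕ → ℕ) (i S P : ℕ) : Prop where
  C : ∀ w u, 1 ≤ w → w ≤ i → u < w → S.testBit (pC w u) = true → a w ≠ u ∧ b w ≠ u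
  L : ∀ w, 1 ≤ w → w ≤ i → S.testBit (pL w) = true → a w ≠ 11 ∧ b w ≠ 11
  D : ∀ w, 1 ≤ w → w ≤ i → (S.testBit (pD w) = true ↔
    (i < a w ∧ a w ≤ 10) ∨ (i < b w ∧ b w ≤ 10))
  F : ∀ w, 1 ≤ w → w ≤ i → (S.testBit (pF w) = true ↔
    (i < a w ∧ a w ≤ 10) ∧ (i < b w ∧ b w ≤ 10))
  K : ∀ w u, 1 ≤ w → w ≤ i → u < w → ¬ ((i < a w ∧ a w ≤ 10) ∧ (i < b w ∧ b w ≤ 10)) →
    (S.testBit (pK w u) = true ↔ ((i < a w ∧ a w ≤ 10) ∧ chi u w (a w) = true) ∨
      ((i < b w ∧ b w ≤ 10) ∧ chi u w (b w) = true))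
  P : ∀ v, 1 ≤ v → v ≤ i → (P.testBit v = true ↔ Odd (∑ w ∈ Ioc i 10, cnt a b v w))

lemma inv_init (a b : ℕ → ℕ) : Inv a b 10 0 0 := by
  constructor
  · intro w u _ _ _ h; simp at h
  · intro w _ _ h; simp at h
  · intro w _ _; simp
  · intro w _ _; simp
  · intro w u _ _ _ _; simp
  · intro v _ _; simp

/-- Consequences of `D` for an actual left neighbour `x` of `i = k + 1` with a processed right
neighbour: both neighbours of `x` are `≥ i`. -/
lemma both_ge {a b : ℕ → ℕ} (h : ValidCfg a b) {k S P x : ℕ} (hk : k + 1 ≤ 10)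
    (I : Inv a b (k + 1) S P) (hx : a (k + 1) = x ∨ b (k + 1) = x) (hxk : x < k + 1)
    (h1 : 1 ≤ x) (hD : S.testBit (pD x) = true) :
    (k < a x ∧ a x ≤ 10) ∧ (k < b x ∧ b x ≤ 10) := by
  have e1 := h.symm x (k + 1) h1 (by omega) (by omega) hk
  have e2 := h.symm (k + 1) x (by omega) hk h1 (by omega)
  have hd := (I.D x h1 (by omega)).1 hD
  omega

lemma excl_C {a b : ℕ → ℕ} (h : ValidCfg a b) {k S P x w u : ℕ} (hk : k + 1 ≤ 10)
    (I : Inv a b (k + 1) S P) (hx : a (k + 1) = x ∨ b (k + 1) = x)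
    (h1 : 1 ≤ w) (h2 : w < k + 1) (h3 : u < w)
    (hf : fu (k + 1) x S (cs (k + 1) x w u) = true) : a w ≠ u ∧ b w ≠ u := by
  unfold fu cs crB at hf
  simp only [Bool.and_eq_true, decide_eq_true_eq, Bool.or_eq_true, bne_iff_ne, ne_eq,
    beq_iff_eq] at hf
  obtain ⟨hxk, hf⟩ := hf
  have key : (CrossC u w x (k + 1)) → a w ≠ u ∧ b w ≠ u := by
    intro hc
    have h4 := fun s t => h.ncross w (k + 1) s t h1 (by omega) (by omega) hk
    have hmin : ∀ s t, s = u → t = x →
        ¬ CrossC (min w s) (max w s) (min (k + 1) t) (max (k + 1) t) → False := by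
      rintro s t rfl rfl hn
      apply hn
      rw [min_eq_right h3.le, max_eq_left h3.le, min_eq_right hxk.le, max_eq_left hxk.le]
      exact hc
    constructor
    · intro hw
      exact hmin u x rfl rfl (h4 u x (Or.inl hw.symm) (hx.imp Eq.symm Eq.symm))
    · intro hw
      exact hmin u x rfl rfl (h4 u x (Or.inr hw.symm) (hx.imp Eq.symm Eq.symm))
  rcases hf with (⟨h5, h6⟩ | ⟨h5, h6, h7⟩) | ⟨⟨h5, h6⟩, h7⟩
  · apply key
    right; right; right
    exact ⟨h5, h3, h2, h6⟩
  · apply key
    left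
    exact ⟨h5, h6, h2, h7⟩
  · have hb := both_ge h hk I hx hxk h5 h6
    rcases h7 with rfl | rfl
    · omega
    · have e1 := h.symm w u h1 (by omega) h5 (by omega)
      have e2 := h.symm u w h5 (by omega) h1 (by omega)
      omega

lemma excl_L {a b : ℕ → ℕ} (h : ValidCfg a b) {k S P x w : ℕ} (hk : k + 1 ≤ 10)
    (I : Inv a b (k + 1) S P) (hx : a (k + 1) = x ∨ b (k + 1) = x)
    (h1 : 1 ≤ w) (h2 : w < k + 1)
    (hf : fu (k + 1) x S (ls (k + 1) x w) = true) : a w ≠ 11 ∧ b w ≠ 11 := by
  unfold fu ls at hf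
  simp only [Bool.and_eq_true, decide_eq_true_eq, Bool.or_eq_true, Bool.not_eq_true'] at hf
  obtain ⟨hxk, hf⟩ := hf
  rcases hf with ⟨h5, h6⟩ | ⟨⟨h5, h6⟩, h7⟩
  · have hc : CrossC w 11 x (k + 1) := by
      right; left
      refine ⟨h5, h2, by omega, ?_⟩
      rw [h6]
      simp [chi]
    have h4 := fun s t => h.ncross w (k + 1) s t h1 (by omega) (by omega) hk
    have hmin : ¬ CrossC (min w 11) (max w 11) (min (k + 1) x) (max (k + 1) x) → False := by
      intro hn
      apply hn
      rw [min_eq_left (by omega), max_eq_right (by omega), min_eq_right hxk.le,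
        max_eq_left hxk.le]
      exact hc
    constructor
    · intro hw
      exact hmin (h4 11 x (Or.inl hw.symm) (hx.imp Eq.symm Eq.symm))
    · intro hw
      exact hmin (h4 11 x (Or.inr hw.symm) (hx.imp Eq.symm Eq.symm))
  · have hb := both_ge h hk I hx hxk h5 h6
    subst h7
    omega

lemma step_K {a b : ℕ → ℕ} (h : ValidCfg a b) {k S P S' x y : ℕ} (hk : k + 1 ≤ 10)
    (I : Inv a b (k + 1) S P)
    (hxy : (a (k + 1) = x ∧ b (k + 1) = y) ∨ (a (k + 1) = y ∧ b (k + 1) = x))
    (hs : Step (k + 1) x y S S') {w u : ℕ} (h1 : 1 ≤ w) (h2 : w ≤ k) (h3 : u < w)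
    (hn : ¬ ((k < a w ∧ a w ≤ 10) ∧ (k < b w ∧ b w ≤ 10))) :
    (S'.testBit (pK w u) = true ↔ ((k < a w ∧ a w ≤ 10) ∧ chi u w (a w) = true) ∨
      ((k < b w ∧ b w ≤ 10) ∧ chi u w (b w) = true)) := by
  have e1 := h.symm w (k + 1) h1 (by omega) (by omega) hk
  have e2 := h.symm (k + 1) w (by omega) hk h1 (by omega)
  have hn' : ¬ ((k + 1 < a w ∧ a w ≤ 10) ∧ (k + 1 < b w ∧ b w ≤ 10)) := by
    intro h5; exact hn (by omega)
  have hK := I.K w u h1 (by omega) h3 hn'
  have hD0 : w = x ∨ w = y → S.testBit (pD w) = false := by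
    intro h5
    by_contra hD
    rw [Bool.not_eq_false] at hD
    apply hn
    rcases h5 with rfl | rfl
    · exact both_ge h hk I (by tauto) (by omega) h1 hD
    · exact both_ge h hk I (by tauto) (by omega) h1 hD
  have hD1 : w = x ∨ w = y → (¬ (k + 1 < a w ∧ a w ≤ 10)) ∧ ¬ (k + 1 < b w ∧ b w ≤ 10) := by
    intro h5
    have h6 := hD0 h5
    have h7 := I.D w h1 (by omega)
    rw [h6] at h7
    constructor
    · intro h8; exact absurd (h7.2 (Or.inl h8)) (by simp)
    · intro h8; exact absurd (h7.2 (Or.inr h8)) (by simp)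
  rw [hs.K w u h1 (by omega) h3]
  simp only [fu, ks, Bool.or_eq_true, Bool.and_eq_true, decide_eq_true_eq, hK]
  rw [or_assoc]
  by_cases hw : w = x ∨ w = y
  · obtain ⟨h8, h9⟩ := hD1 hw
    have h10 := hD0 hw
    have hL : ((x < k + 1 ∧ w = x ∧ (chi u x (k + 1) = true ∨ 1 ≤ x ∧ S.testBit (pD x) = true)) ∨
        (y < k + 1 ∧ w = y ∧ (chi u y (k + 1) = true ∨ 1 ≤ y ∧ S.testBit (pD y) = true))) ↔
        chi u w (k + 1) = true := by
      constructor
      · rintro (⟨_, rfl, h12 | ⟨_, h13⟩⟩ | ⟨_, rfl, h12 | ⟨_, h13⟩⟩)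
        · exact h12
        · rw [h10] at h13; exact absurd h13 (by simp)
        · exact h12
        · rw [h10] at h13; exact absurd h13 (by simp)
      · intro h12
        rcases hw with rfl | rfl
        · exact Or.inl ⟨by omega, rfl, Or.inl h12⟩
        · exact Or.inr ⟨by omega, rfl, Or.inl h12⟩
    rw [hL]
    simp only [h8, h9, false_and, false_or]
    by_cases ha : a (k + 1) = w
    · have h7 : b w = k + 1 := e2.1 ha
      have h7' : a w ≠ k + 1 := by
        intro h11
        have h12 := e1.1 h11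
        have := h.dbl (k + 1) (by omega) hk (ha.trans h12.symm)
        omega
      have h11 : ¬ (k < a w ∧ a w ≤ 10) := by
        rintro ⟨h12, h13⟩
        exact h8 ⟨by omega, h13⟩
      simp only [h11, false_and, false_or]
      rw [h7]
      exact ⟨fun h12 => ⟨⟨by omega, by omega⟩, h12⟩, fun h12 => h12.2⟩
    · have hb : b (k + 1) = w := by
        rcases hxy with ⟨h5, h6⟩ | ⟨h5, h6⟩ <;> rcases hw with rfl | rfl
        · exact absurd h5 ha
        · exact h6
        · exact h6
        · exact absurd h5 ha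
      have h7 : a w = k + 1 := e1.2 hb
      have h7' : b w ≠ k + 1 := fun h11 => ha (e2.2 h11)
      have h11 : ¬ (k < b w ∧ b w ≤ 10) := by
        rintro ⟨h12, h13⟩
        exact h9 ⟨by omega, h13⟩
      simp only [h11, false_and, or_false]
      rw [h7]
      exact ⟨fun h12 => ⟨⟨by omega, by omega⟩, h12⟩, fun h12 => h12.2⟩
  · have hwx : ¬ w = x := fun h5 => hw (Or.inl h5)
    have hwy : ¬ w = y := fun h5 => hw (Or.inr h5)
    have ha : a w ≠ k + 1 := by
      intro h5
      have h6 := e1.1 h5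
      rcases hxy with ⟨_, h7⟩ | ⟨_, h7⟩
      · exact hwy (h6.symm.trans h7)
      · exact hwx (h6.symm.trans h7)
    have hb : b w ≠ k + 1 := by
      intro h5
      have h6 := e2.2 h5
      rcases hxy with ⟨h7, _⟩ | ⟨h7, _⟩
      · exact hwx (h6.symm.trans h7)
      · exact hwy (h6.symm.trans h7)
    have h5 : (k + 1 < a w ∧ a w ≤ 10) ↔ (k < a w ∧ a w ≤ 10) := by
      clear * - ha; omega
    have h6 : (k + 1 < b w ∧ b w ≤ 10) ↔ (k < b w ∧ b w ≤ 10) := by
      clear * - hb; omega
    simp only [hwx, hwy, false_and, and_false, or_false, h5, h6]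

theorem inv_step {a b : ℕ → ℕ} (h : ValidCfg a b) {k S P S' P' x y : ℕ} (hk : k + 1 ≤ 10)
    (I : Inv a b (k + 1) S P)
    (hxy : (a (k + 1) = x ∧ b (k + 1) = y) ∨ (a (k + 1) = y ∧ b (k + 1) = x))
    (hs : Step (k + 1) x y S S')
    (hP : ∀ v, 1 ≤ v → v < k + 1 → P'.testBit v =
      ((P.testBit v ^^ (decide (x < v) && chi x v (k + 1))) ^^
        (decide (y < v) && chi y v (k + 1)))) :
    Inv a b k S' P' := by
  have hx : a (k + 1) = x ∨ b (k + 1) = x := by tauto
  have hy : a (k + 1) = y ∨ b (k + 1) = y := by tauto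
  constructor
  · intro w u h1 h2 h3 hb
    rw [hs.C w u h1 (by omega) h3, Bool.or_eq_true, Bool.or_eq_true] at hb
    rcases hb with (hb | hb) | hb
    · exact I.C w u h1 (by omega) h3 hb
    · exact excl_C h hk I hx h1 (by omega) h3 hb
    · exact excl_C h hk I hy h1 (by omega) h3 hb
  · intro w h1 h2 hb
    rw [hs.L w h1 (by omega), Bool.or_eq_true, Bool.or_eq_true] at hb
    rcases hb with (hb | hb) | hb
    · exact I.L w h1 (by omega) hb
    · exact excl_L h hk I hx h1 (by omega) hb
    · exact excl_L h hk I hy h1 (by omega) hb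
  · intro w h1 h2
    have e1 := h.symm w (k + 1) h1 (by omega) (by omega) hk
    have e2 := h.symm (k + 1) w (by omega) hk h1 (by omega)
    have hd := I.D w h1 (by omega)
    rw [hs.D w h1 (by omega)]
    simp only [fu, Bool.or_eq_true, Bool.and_eq_true, decide_eq_true_eq, hd]
    omega
  · intro w h1 h2
    have e1 := h.symm w (k + 1) h1 (by omega) (by omega) hk
    have e2 := h.symm (k + 1) w (by omega) hk h1 (by omega)
    have hdb := h.dbl (k + 1) (by omega) hk
    have hd := I.D w h1 (by omega)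
    have hf := I.F w h1 (by omega)
    rw [hs.F w h1 (by omega)]
    simp only [fu, Bool.or_eq_true, Bool.and_eq_true, decide_eq_true_eq, hf]
    constructor
    · rintro ((h5 | ⟨h5, ⟨h6, h7⟩, rfl⟩) | ⟨h5, ⟨h6, h7⟩, rfl⟩)
      · omega
      · exact both_ge h hk I hx h5 h6 h7
      · exact both_ge h hk I hy h5 h6 h7
    · intro h5
      by_cases h6 : (k + 1 < a w ∧ a w ≤ 10) ∧ (k + 1 < b w ∧ b w ≤ 10)
      · exact Or.inl (Or.inl h6)
      · have h7 : S.testBit (pD w) = true := hd.2 (by omega)
        have h8 : w = x ∨ w = y := by omega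
        rcases h8 with rfl | rfl
        · exact Or.inl (Or.inr ⟨by omega, ⟨h1, h7⟩, rfl⟩)
        · exact Or.inr ⟨by omega, ⟨h1, h7⟩, rfl⟩
  · intro w u h1 h2 h3 hn
    exact step_K h hk I hxy hs h1 h2 h3 hn
  · intro v h1 h2
    have hv := I.P v h1 (by omega)
    have hI : Ioc k 10 = insert (k + 1) (Ioc (k + 1) 10) := by
      ext t; simp only [mem_insert, mem_Ioc]; omega
    rw [hI, sum_insert (by simp), hP v h1 (by omega)]
    have hc : cnt a b v (k + 1) = (decide (x < v) && chi x v (k + 1)).toNat +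
        (decide (y < v) && chi y v (k + 1)).toNat := by
      have : ∀ z, (if z < v ∧ chi z v (k + 1) = true then 1 else 0) =
          (decide (z < v) && chi z v (k + 1)).toNat := by
        intro z
        by_cases h5 : z < v <;> by_cases h6 : chi z v (k + 1) = true <;> simp [h5, h6]
      rcases hxy with ⟨rfl, rfl⟩ | ⟨rfl, rfl⟩
      · unfold cnt; rw [this, this]
      · unfold cnt; rw [this, this, add_comm]
    rw [hc]
    cases hb : P.testBit v <;> rw [hb] at hv <;>
      cases (decide (x < v) && chi x v (k + 1)) <;> cases (decide (y < v) && chi y v (k + 1)) <;>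
      simp [Nat.odd_add, parity_simps, show ¬ Odd 2 by decide] at hv ⊢ <;> simpa using hv

lemma parC_eq (a b : ℕ → ℕ) (v : ℕ) : parC a b v = ∑ w ∈ Ioc v 10, cnt a b v w := rfl

lemma wtC_through {a b : ℕ → ℕ} {i x y : ℕ} (hxy : (a i = x ∧ b i = y) ∨ (a i = y ∧ b i = x))
    (hx : x < i) (hy : i < y) :
    wtC a b i = if (chi x i y = true ↔ Odd (parC a b i)) then 0 else 3 := by
  unfold wtC
  have h1 : min (a i) (b i) = x := by
    rcases hxy with ⟨h, h'⟩ | ⟨h, h'⟩ <;> rw [h, h'] <;> [exact min_eq_left (by omega); exact min_eq_right (by omega)]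
  have h2 : max (a i) (b i) = y := by
    rcases hxy with ⟨h, h'⟩ | ⟨h, h'⟩ <;> rw [h, h'] <;> [exact max_eq_right (by omega); exact max_eq_left (by omega)]
  rw [if_pos (by omega), h1, h2]

lemma wtC_ext {a b : ℕ → ℕ} {i x y : ℕ} (hxy : (a i = x ∧ b i = y) ∨ (a i = y ∧ b i = x))
    (h : (i < x ∧ i < y) ∨ (x < i ∧ y < i)) :
    wtC a b i = if Even (parC a b i) then 2 else 1 := by
  unfold wtC
  rw [if_neg (by omega)]

/-- The parity mask after the update by the new neighbours `x`, `y` of `i`. -/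
def PStep (i x y P P' : ℕ) : Prop :=
  ∀ v, 1 ≤ v → v < i → P'.testBit v =
      ((P.testBit v ^^ (decide (x < v) && chi x v i)) ^^ (decide (y < v) && chi y v i))

lemma body_sound {a b : ℕ → ℕ} (h : ValidCfg a b) {k : ℕ} (hk : k + 1 ≤ 10) {lv : Lev}
    (hl : OkL (k + 1) lv) {S P B we wf wt : ℕ} (I : Inv a b (k + 1) S P)
    {ih : ℕ → ℕ → ℕ → Bool} (hb : body lv ih S P B we wf wt = true)
    (hwe : we = if Even (parC a b (k + 1)) then 2 else 1)
    (hwf : wf = if Even (parC a b (k + 1)) then 0 else 3)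
    (hwt : wt = if Even (parC a b (k + 1)) then 3 else 0) :
    ∃ x y S1 P1, ((a (k + 1) = x ∧ b (k + 1) = y) ∨ (a (k + 1) = y ∧ b (k + 1) = x)) ∧
      Step (k + 1) x y S S1 ∧ PStep (k + 1) x y P P1 ∧
      go ih lv.ms lv.mp S1 P1 B (wtC a b (k + 1)) = true := by
  unfold body at hb
  simp only [nz_eq, andb_eq] at hb
  rw [hl.d2, hl.d1, hl.cl, hl.c0] at hb
  simp only [land_pow'] at hb
  obtain ⟨x, y, hle, hxy⟩ : ∃ x y, x ≤ y ∧
      ((a (k + 1) = x ∧ b (k + 1) = y) ∨ (a (k + 1) = y ∧ b (k + 1) = x)) := by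
    rcases le_total (a (k + 1)) (b (k + 1)) with h1 | h1
    · exact ⟨_, _, h1, Or.inl ⟨rfl, rfl⟩⟩
    · exact ⟨_, _, h1, Or.inr ⟨rfl, rfl⟩⟩
  refine ⟨x, y, ?_⟩
  have hax : ∀ u, u = x ∨ u = y → (a (k + 1) = u ∨ b (k + 1) = u) := by
    intro u hu; omega
  have hC : ∀ u, u = x ∨ u = y → u < k + 1 → S.testBit (pC (k + 1) u) = false := by
    intro u hu hlt
    by_contra hc
    rw [Bool.not_eq_false] at hc
    have := I.C (k + 1) u (by omega) le_rfl hlt hc
    have := hax u hu
    omega
  have hLL : y = 11 → S.testBit (pL (k + 1)) = false := by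
    intro hy
    by_contra hc
    rw [Bool.not_eq_false] at hc
    have := I.L (k + 1) (by omega) le_rfl hc
    have := hax 11 (Or.inr hy.symm)
    omega
  have hF := I.F (k + 1) (by omega) le_rfl
  have hD := I.D (k + 1) (by omega) le_rfl
  have hne := h.ane (k + 1) (by omega) hk
  have hne' := h.bne (k + 1) (by omega) hk
  have hale := h.ale (k + 1) (by omega) hk
  have hble := h.ble (k + 1) (by omega) hk
  have hdbl := h.dbl (k + 1) (by omega) hk
  by_cases hx : x < k + 1
  · by_cases hy : y < k + 1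
    · -- both left
      have h1 : S.testBit (pF (k + 1)) = false := by
        rw [← Bool.not_eq_true, hF]; omega
      have h2 : S.testBit (pD (k + 1)) = false := by
        rw [← Bool.not_eq_true, hD]; omega
      rw [if_pos h1, if_pos h2, Bool.and_eq_true, Bool.and_eq_true] at hb
      have hw := wtC_ext hxy (Or.inr ⟨hx, hy⟩)
      rw [← hwe] at hw
      rw [hw]
      by_cases hxy0 : x = y
      · have hx0 : x = 0 := by omega
        subst hxy0
        subst hx0
        have hb2 := hb.2.1
        rw [if_pos (hC 0 (Or.inl rfl) (by omega))] at hb2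
        refine ⟨_, P, hxy, step_zero (by omega) hl.u0, ?_, hb2⟩
        intro v _ _
        rw [Bool.xor_assoc, Bool.xor_self, Bool.xor_false]
      · have hlt : x < y := by omega
        have hb2 := loop2_true hb.2.2
        rw [List.pairwise_iff_getElem] at hb2
        have hx' : x < lv.cands.length := by rw [hl.len]; exact hx
        have hy' : y < lv.cands.length := by rw [hl.len]; exact hy
        have hcx := hl.cands x hx'
        have hcy := hl.cands y hy'
        have hg := hb2 x y hx' hy' hlt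
          (by rw [hcx.cf, land_pow]; exact hC x (Or.inl rfl) hx)
          (by rw [hcy.cf, land_pow]; exact hC y (Or.inr rfl) hy)
        obtain ⟨m, hm, hm'⟩ := addE_step hcx S
        obtain ⟨m2, hm2, hm2'⟩ := addE_step hcy (addE lv.cands[x] S)
        rw [hm] at hm2'
        refine ⟨_, _, hxy, ?_, ?_, hg⟩
        · rw [hm2, hm]
          exact step_two hlt hy hm' hm2'
        · intro v _ hv
          show ((P ^^^ lv.cands[x].pm) ^^^ lv.cands[y].pm).testBit v = _
          rw [Nat.testBit_xor, Nat.testBit_xor, hcx.pm v hv, hcy.pm v hv]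
    · have hyk : k + 1 < y := by omega
      have h1 : S.testBit (pF (k + 1)) = false := by
        rw [← Bool.not_eq_true, hF]; omega
      rw [if_pos h1] at hb
      have hw := wtC_through hxy hx hyk
      have hx' : x < lv.cands.length := by rw [hl.len]; exact hx
      have hcx := hl.cands x hx'
      obtain ⟨m, hm, hm'⟩ := addE_step hcx S
      have hP1 : PStep (k + 1) x y P (Nat.xor P lv.cands[x].pm) := by
        intro v _ hv
        show (P ^^^ lv.cands[x].pm).testBit v = _
        rw [Nat.testBit_xor, hcx.pm v hv]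
        have : ¬ y < v := by omega
        simp [this]
      by_cases hy11 : y = 11
      · have h2 : S.testBit (pD (k + 1)) = false := by
          rw [← Bool.not_eq_true, hD]; omega
        rw [if_pos h2, if_pos (hLL hy11), Bool.and_eq_true, Bool.and_eq_true] at hb
        have hg := loop1_true hb.1.2 _ (List.getElem_mem hx')
          (by rw [hcx.cf, land_pow]; exact hC x (Or.inl rfl) hx)
        have hw2 : wtC a b (k + 1) = wf := by
          rw [hw, hwf, hy11]
          simp [chi, ← Nat.not_even_iff_odd]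
        rw [hw2]
        refine ⟨_, _, hxy, ?_, hP1, hg⟩
        rw [hm]
        exact step_one hx hyk hm'
      · have h2 : S.testBit (pD (k + 1)) = true := by
          rw [hD]; omega
        rw [if_neg (by rw [h2]; simp), Bool.and_eq_true] at hb
        have hg := loop1_true hb.2 _ (List.getElem_mem hx')
          (by rw [hcx.cf, land_pow]; exact hC x (Or.inl rfl) hx)
        have hK := I.K (k + 1) x (by omega) le_rfl hx (by omega)
        have hK2 : S.testBit (pK (k + 1) x) = true ↔ chi x (k + 1) y = true := by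
          rw [hK]
          rcases hxy with ⟨h5, h6⟩ | ⟨h5, h6⟩
          · rw [h5, h6]
            have h7 : ¬ (k + 1 < x ∧ x ≤ 10) := by omega
            have h8 : k + 1 < y ∧ y ≤ 10 := by omega
            simp [h7, h8]
          · rw [h5, h6]
            have h7 : ¬ (k + 1 < x ∧ x ≤ 10) := by omega
            have h8 : k + 1 < y ∧ y ≤ 10 := by omega
            simp [h7, h8]
        rw [hcx.cu] at hg
        simp only [land_pow'] at hg
        refine ⟨addE lv.cands[x] S, _, hxy, ?_, hP1, ?_⟩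
        · rw [hm]
          exact step_one hx hyk hm'
        · rw [hw, ← Bool.eq_iff_iff.2 hK2]
          by_cases h9 : S.testBit (pK (k + 1) x) = true
          · rw [if_neg (by rw [h9]; simp)] at hg
            have : (if (S.testBit (pK (k + 1) x) = true ↔ Odd (parC a b (k + 1))) then 0 else 3) =
                wt := by
              rw [hwt]
              by_cases h10 : Even (parC a b (k + 1)) <;> simp [h9, h10, ← Nat.not_even_iff_odd]
            rw [this]
            exact hg
          · rw [if_pos (by rw [Bool.not_eq_true] at h9; exact h9)] at hg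
            have : (if (S.testBit (pK (k + 1) x) = true ↔ Odd (parC a b (k + 1))) then 0 else 3) =
                wf := by
              rw [hwf]
              by_cases h10 : Even (parC a b (k + 1)) <;> simp [h9, h10, ← Nat.not_even_iff_odd]
            rw [this]
            exact hg
  · -- both right
    have hxk : k + 1 < x := by omega
    have hyk : k + 1 < y := by omega
    have hw := wtC_ext hxy (Or.inl ⟨hxk, hyk⟩)
    rw [← hwe] at hw
    rw [hw]
    have hgo : go ih lv.ms lv.mp S P B we = true := by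
      by_cases hy11 : y = 11
      · have h1 : S.testBit (pF (k + 1)) = false := by
          rw [← Bool.not_eq_true, hF]; omega
        rw [if_pos h1] at hb
        by_cases hx11 : x = 11
        · have h2 : S.testBit (pD (k + 1)) = false := by
            rw [← Bool.not_eq_true, hD]; omega
          rw [if_pos h2, if_pos (hLL hy11), Bool.and_eq_true, Bool.and_eq_true] at hb
          exact hb.1.1
        · have h2 : S.testBit (pD (k + 1)) = true := by
            rw [hD]; omega
          rw [if_neg (by rw [h2]; simp), if_pos (hLL hy11), Bool.and_eq_true] at hb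
          exact hb.1
      · have h1 : S.testBit (pF (k + 1)) = true := by
          rw [hF]; omega
        rw [if_neg (by rw [h1]; simp)] at hb
        exact hb
    refine ⟨S, P, hxy, step_none hxk hyk, ?_, hgo⟩
    intro v _ hv
    have h1 : ¬ x < v := by omega
    have h2 : ¬ y < v := by omega
    simp [h1, h2]

lemma srch_cons (lv : Lev) (t : List Lev) (S P B : ℕ) : srch (lv :: t) S P B =
    if P &&& lv.pb = 0 then body lv (srch t) S P B 2 0 3 else body lv (srch t) S P B 1 3 0 := by
  show nz (Nat.land P lv.pb) _ _ = _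
  rw [nz_eq]
  rfl

theorem srch_sound {a b : ℕ → ℕ} (h : ValidCfg a b) : ∀ l : List Lev, okT l = true →
    l.length ≤ 10 → ∀ S P B, Inv a b l.length S P → srch l S P B = true →
      B ≤ ∑ v ∈ Icc 1 l.length, wtC a b v := by
  intro l
  induction l with
  | nil =>
    intro _ _ S P B _ hs
    have : B = 0 := Nat.eq_of_beq_eq_true hs
    omega
  | cons lv t ih =>
    intro hok hlen S P B I hs
    rw [List.length_cons] at hlen I ⊢
    have hok' : okL (t.length + 1) lv = true ∧ okT t = true := by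
      have : (okL (t.length + 1) lv && okT t) = true := hok
      rwa [Bool.and_eq_true] at this
    have hl := OkL.of hok'.1
    obtain ⟨x, y, S1, P1, hxy, hst, hps, hgo⟩ : ∃ x y S1 P1,
        ((a (t.length + 1) = x ∧ b (t.length + 1) = y) ∨
          (a (t.length + 1) = y ∧ b (t.length + 1) = x)) ∧
        Step (t.length + 1) x y S S1 ∧ PStep (t.length + 1) x y P P1 ∧
        go (srch t) lv.ms lv.mp S1 P1 B (wtC a b (t.length + 1)) = true := by
      rw [srch_cons, hl.pb] at hs
      have hP := I.P (t.length + 1) (by omega) le_rfl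
      rw [← parC_eq] at hP
      by_cases hpar : P.testBit (t.length + 1) = true
      · rw [if_neg (by rw [land_pow, hpar]; simp)] at hs
        have hodd := Nat.not_even_iff_odd.2 (hP.1 hpar)
        exact body_sound h hlen hl I hs (by rw [if_neg hodd]) (by rw [if_neg hodd])
          (by rw [if_neg hodd])
      · rw [if_pos (by rw [land_pow]; simpa using hpar)] at hs
        have hev : Even (parC a b (t.length + 1)) := by
          rw [← Nat.not_odd_iff_even, ← hP]; exact hpar
        exact body_sound h hlen hl I hs (by rw [if_pos hev]) (by rw [if_pos hev])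
          (by rw [if_pos hev])
    have hI : Inv a b t.length (S1 &&& lv.ms) (P1 &&& lv.mp) := by
      rw [hl.ms, hl.mp]
      refine inv_step h hlen I hxy (step_mask hst) ?_
      intro v h1 h2
      rw [← hps v h1 h2, Nat.testBit_and, Nat.testBit_two_pow_sub_one]
      simp [h2]
    have hsum : ∑ v ∈ Icc 1 (t.length + 1), wtC a b v =
        ∑ v ∈ Icc 1 t.length, wtC a b v + wtC a b (t.length + 1) :=
      sum_Icc_succ_top (by omega) _
    rw [hsum]
    rcases go_true hgo with h1 | h1
    · omega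
    · have := ih hok'.2 (by omega) _ _ _ hI h1
      omega

end Chk

theorem gadget_check {a b : ℕ → ℕ} (h : ValidCfg a b) : 8 ≤ ∑ v ∈ Icc 1 10, wtC a b v :=
  Chk.srch_sound h Chk.tab Chk.okT_tab le_rfl 0 0 8 (Chk.inv_init a b) Chk.srch_tab

end Pool.Agent.Lib.MP_9bb24e_co
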