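import Mathlib

/-!
The ten point gadget: coordinates, orientation table, local configurations and their weights.
Codes: `0` stands for any point of an earlier block, `1, ..., 10` for the points of the block from
left to right, `11` for any point of a later block.
-/

set_option autoImplicit false

namespace Pool.Agent.Lib.MP_9bb24e_co

open Finset

/-- Abscissas of the gadget (code `0` is the origin). -/
def gx : ℕ → ℤ
  | 1 => 5
  | 2 => 8
  | 3 => 9
  | 4 => 10
  | 5 => 11
  | 6 => 15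
  | 7 => 17
  | 8 => 20
  | 9 => 21
  | 10 => 25
  | _ => 0

/-- Ordinates of the gadget (code `0` is the origin). -/
def gy : ℕ → ℤ
  | 1 => -1
  | 2 => 1
  | 3 => 21
  | 4 => 18
  | 5 => 18
  | 6 => 13
  | 7 => 12
  | 8 => 12
  | 9 => 11
  | 10 => 13
  | _ => 0

/-- Orientation of a triple of codes `a < b < c`: `true` if the point `b` lies below the segment
from `a` to `c`. -/
def chi (a b c : ℕ) : Bool :=
  if c = 11 then false
  else decide (0 < (gx b - gx a) * (gy c - gy a) - (gy b - gy a) * (gx c - gx a))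

/-- The segments between the codes `p < r` and `p' < r'` (four different codes) cross. -/
def CrossC (p r p' r' : ℕ) : Prop :=
  (p < p' ∧ p' < r ∧ r < r' ∧ chi p p' r = chi p' r r') ∨
  (p' < p ∧ p < r' ∧ r' < r ∧ chi p' p r' = chi p r' r) ∨
  (p < p' ∧ p' < r' ∧ r' < r ∧ chi p p' r ≠ chi p r' r) ∨
  (p' < p ∧ p < r ∧ r < r' ∧ chi p' p r' ≠ chi p' r r')

/-- A local configuration: `a v` and `b v` are the codes of the predecessor and of the successor
of the vertex `v` on the polygon. -/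
structure ValidCfg (a b : ℕ → ℕ) : Prop where
  ale : ∀ v, 1 ≤ v → v ≤ 10 → a v ≤ 11
  ble : ∀ v, 1 ≤ v → v ≤ 10 → b v ≤ 11
  ane : ∀ v, 1 ≤ v → v ≤ 10 → a v ≠ v
  bne : ∀ v, 1 ≤ v → v ≤ 10 → b v ≠ v
  dbl : ∀ v, 1 ≤ v → v ≤ 10 → a v = b v → a v = 0 ∨ a v = 11
  symm : ∀ v w, 1 ≤ v → v ≤ 10 → 1 ≤ w → w ≤ 10 → (a v = w ↔ b w = v)
  ncross : ∀ v w s t, 1 ≤ v → v ≤ 10 → 1 ≤ w → w ≤ 10 → (s = a v ∨ s = b v) →
    (t = a w ∨ t = b w) → ¬ CrossC (min v s) (max v s) (min w t) (max w t)

/-- The number of edges above the vertex `v` in a local configuration. -/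
def parC (a b : ℕ → ℕ) (v : ℕ) : ℕ :=
  ∑ w ∈ Ioc v 10, ((if a w < v ∧ chi (a w) v w = true then 1 else 0) +
    (if b w < v ∧ chi (b w) v w = true then 1 else 0))

/-- The weight of the vertex `v` in a local configuration, in thirds. -/
def wtC (a b : ℕ → ℕ) (v : ℕ) : ℕ :=
  if (a v < v ∧ v < b v) ∨ (b v < v ∧ v < a v) then
    (if (chi (min (a v) (b v)) v (max (a v) (b v)) = true ↔ Odd (parC a b v)) then 0 else 3)
  else (if Even (parC a b v) then 2 else 1)

end Pool.Agent.Lib.MP_9bb24e_co
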