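import Pool.Agent.Lib.MP_9bb24e_co.Basic
import Pool.Agent.Lib.MP_9bb24e_co.Gadget

/-!
The points of the lower bound construction: blocks of ten points, each a sheared and scaled copy
of the gadget; orientations of all triples.
-/

set_option autoImplicit false
namespace Pool.Agent.Lib.MP_9bb24e_co
open Finset

/-- Scale of block `j`. -/
def scale : ℕ → ℕ
  | 0 => 1
  | j + 1 => 60000 * (j + 2) * scale j

/-- The `t`-th point: block `t / 10`, place `t % 10`. -/
noncomputable def pt (t : ℕ) : ℝ × ℝ :=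
  ((scale (t / 10) : ℝ) * (gx (t % 10 + 1) : ℝ),
    (scale (t / 10) : ℝ) * ((gy (t % 10 + 1) : ℝ) - 50 * ((t / 10 : ℕ) : ℝ) *
      (gx (t % 10 + 1) : ℝ)))

/-- Code of the point `t` relative to the block `j`. -/
def code (j t : ℕ) : ℕ := if t / 10 < j then 0 else if t / 10 = j then t % 10 + 1 else 11

theorem cross_shear (K : ℝ) (a b c : ℝ × ℝ) :
    cross a b c = (b.1 - a.1) * ((c.2 + K * c.1) - (a.2 + K * a.1)) -
      ((b.2 + K * b.1) - (a.2 + K * a.1)) * (c.1 - a.1) := by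
  unfold cross; ring

theorem scale_pos (j : ℕ) : 0 < scale j := by
  induction j with
  | zero => simp [scale]
  | succ j ih => simp only [scale]; positivity

theorem scale_lt {i j : ℕ} (h : i < j) : 60000 * (j + 1) * scale i ≤ scale j := by
  induction j with
  | zero => omega
  | succ j ih =>
    have e : scale (j + 1) = 60000 * (j + 1 + 1) * scale j := rfl
    rw [e]
    apply Nat.mul_le_mul_left
    rcases Nat.lt_or_ge i j with h1 | h1
    · refine le_trans ?_ (ih h1)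
      have : 1 * scale i ≤ 60000 * (j + 1) * scale i := by
        apply Nat.mul_le_mul_right; omega
      simpa using this
    · have : i = j := by omega
      rw [this]

theorem scale_ltR {i j : ℕ} (h : i < j) :
    60000 * ((j : ℝ) + 1) * (scale i : ℝ) ≤ (scale j : ℝ) := by
  have := scale_lt h
  exact_mod_cast this

theorem scale_posR (j : ℕ) : 0 < (scale j : ℝ) := by exact_mod_cast scale_pos j

/-- The point at place `m` of block `i`. -/
noncomputable def blk (i m : ℕ) : ℝ × ℝ :=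
  ((scale i : ℝ) * (gx m : ℝ), (scale i : ℝ) * ((gy m : ℝ) - 50 * (i : ℝ) * (gx m : ℝ)))

theorem pt_eq (t : ℕ) : pt t = blk (t / 10) (t % 10 + 1) := rfl

theorem gad1 : ∀ m ∈ Icc 1 10, 5 ≤ gx m ∧ gx m ≤ 25 ∧ -1 ≤ gy m ∧ gy m ≤ 21 ∧
    gy m - 25 * gx m ≤ -1 := by decide

theorem gad2 : ∀ m ∈ Icc 1 10, ∀ m' ∈ Icc 1 10, m < m' → gx m + 1 ≤ gx m' ∧
    gy m + 25 * gx m + 1 ≤ gy m' + 25 * gx m' := by decide

theorem gad3 : ∀ m ∈ Icc 1 10, ∀ m' ∈ Icc 1 10, m < m' →
    gx m * gy m' - gy m * gx m' ≠ 0 := by decide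

theorem gad4 : ∀ l ∈ Icc 1 10, ∀ m ∈ Icc 1 10, ∀ r ∈ Icc 1 10, l < m → m < r →
    (gx m - gx l) * (gy r - gy l) - (gy m - gy l) * (gx r - gx l) ≠ 0 := by decide

theorem gad1R {m : ℕ} (h1 : 1 ≤ m) (h2 : m ≤ 10) : (5 : ℝ) ≤ gx m ∧ (gx m : ℝ) ≤ 25 ∧
    (-1 : ℝ) ≤ gy m ∧ (gy m : ℝ) ≤ 21 ∧ (gy m : ℝ) - 25 * gx m ≤ -1 := by
  have := gad1 m (mem_Icc.2 ⟨h1, h2⟩)
  exact_mod_cast this

theorem gad2R {m m' : ℕ} (h1 : 1 ≤ m) (h : m < m') (h2 : m' ≤ 10) :
    (gx m : ℝ) + 1 ≤ gx m' ∧ (gy m : ℝ) + 25 * gx m + 1 ≤ gy m' + 25 * gx m' := by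
  have := gad2 m (mem_Icc.2 ⟨h1, by omega⟩) m' (mem_Icc.2 ⟨by omega, h2⟩) h
  exact_mod_cast this

/-- Increasing abscissas. -/
theorem blk_lt {i m i' m' : ℕ} (hm : 1 ≤ m) (hm2 : m ≤ 10) (hm' : 1 ≤ m') (hm'2 : m' ≤ 10)
    (h : i < i' ∨ (i = i' ∧ m < m')) : (blk i m).1 < (blk i' m').1 := by
  have g := gad1R hm hm2
  have g' := gad1R hm' hm'2
  have s := scale_posR i
  simp only [blk]
  rcases h with h | ⟨rfl, h⟩
  · have s' := scale_ltR h
    have hi : (0 : ℝ) ≤ i' := Nat.cast_nonneg _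
    nlinarith [mul_nonneg hi s.le, mul_le_mul_of_nonneg_left g.2.1 s.le,
      mul_le_mul_of_nonneg_left g'.1 (scale_posR i').le]
  · have := gad2R hm h hm'2
    nlinarith

/-- The sheared ordinates with `K = 50 k - 25` increase along the blocks before `k`. -/
theorem blk_phi_lt {i m i' m' k : ℕ} (hm : 1 ≤ m) (hm2 : m ≤ 10) (hm' : 1 ≤ m') (hm'2 : m' ≤ 10)
    (h : i < i' ∨ (i = i' ∧ m < m')) (hk : i' < k) :
    (blk i m).2 + (50 * (k : ℝ) - 25) * (blk i m).1 <
      (blk i' m').2 + (50 * (k : ℝ) - 25) * (blk i' m').1 := by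
  have g := gad1R hm hm2
  have g' := gad1R hm' hm'2
  have s := scale_posR i
  have hk' : (i' : ℝ) + 1 ≤ k := by exact_mod_cast hk
  have e : ∀ a b : ℕ, (blk a b).2 + (50 * (k : ℝ) - 25) * (blk a b).1 =
      (scale a : ℝ) * ((gy b : ℝ) + (50 * ((k : ℝ) - a) - 25) * gx b) := by
    intro a b; simp only [blk]; ring
  rw [e, e]
  rcases h with h | ⟨rfl, h⟩
  · have s' := scale_ltR h
    have hi : (0 : ℝ) ≤ i := Nat.cast_nonneg _
    have hi' : (0 : ℝ) ≤ i' := Nat.cast_nonneg _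
    have hii : (i : ℝ) + 1 ≤ i' := by exact_mod_cast h
    set u : ℝ := (k : ℝ) - i' with hu
    have hu1 : 1 ≤ u := by linarith
    have k1 : (k : ℝ) - i ≤ u + i' := by linarith
    have k0 : 0 ≤ (k : ℝ) - i := by linarith
    -- upper bound for the left hand side
    have L : (gy m : ℝ) + (50 * ((k : ℝ) - i) - 25) * gx m ≤ 21 + 1250 * (u + i') := by
      have h1 : (50 * ((k : ℝ) - i) - 25) * gx m ≤ (50 * ((k : ℝ) - i) - 25) * 25 :=
        mul_le_mul_of_nonneg_left g.2.1 (by linarith)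
      linarith [g.2.2.2.1]
    -- lower bound for the right hand side
    have R : 124 * u ≤ (gy m' : ℝ) + (50 * u - 25) * gx m' := by
      have h1 : (50 * u - 25) * 5 ≤ (50 * u - 25) * gx m' :=
        mul_le_mul_of_nonneg_left g'.1 (by linarith)
      linarith [g'.2.2.1]
    calc (scale i : ℝ) * ((gy m : ℝ) + (50 * ((k : ℝ) - i) - 25) * gx m)
        ≤ (scale i : ℝ) * (21 + 1250 * (u + i')) := mul_le_mul_of_nonneg_left L s.le
      _ < (scale i : ℝ) * (60000 * ((i' : ℝ) + 1) * (124 * u)) := by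
          apply mul_lt_mul_of_pos_left _ s
          nlinarith [mul_nonneg hi' (sub_nonneg.2 hu1)]
      _ = (60000 * ((i' : ℝ) + 1) * (scale i : ℝ)) * (124 * u) := by ring
      _ ≤ (scale i' : ℝ) * (124 * u) := mul_le_mul_of_nonneg_right s' (by linarith)
      _ ≤ _ := mul_le_mul_of_nonneg_left R (scale_posR i').le
  · have h2 := gad2R hm h hm'2
    apply mul_lt_mul_of_pos_left _ s
    nlinarith [mul_nonneg (show (0 : ℝ) ≤ 50 * ((k : ℝ) - i) - 50 by linarith)
      (show (0 : ℝ) ≤ (gx m' : ℝ) - gx m by linarith)]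

/-- The sheared ordinates with `K = 50 k - 25` are positive before block `k`. -/
theorem blk_phi_pos {i m k : ℕ} (hm : 1 ≤ m) (hm2 : m ≤ 10) (hk : i < k) :
    0 < (blk i m).2 + (50 * (k : ℝ) - 25) * (blk i m).1 := by
  have g := gad1R hm hm2
  have s := scale_posR i
  have hk' : (i : ℝ) + 1 ≤ k := by exact_mod_cast hk
  have e : (blk i m).2 + (50 * (k : ℝ) - 25) * (blk i m).1 =
      (scale i : ℝ) * ((gy m : ℝ) + (50 * ((k : ℝ) - i) - 25) * gx m) := by
    simp only [blk]; ring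
  rw [e]
  apply mul_pos s
  have h1 : (50 * ((k : ℝ) - i) - 25) * 5 ≤ (50 * ((k : ℝ) - i) - 25) * gx m :=
    mul_le_mul_of_nonneg_left g.1 (by linarith)
  linarith [g.2.2.1]

/-- The sheared ordinates with `K = 50 k - 25` are negative on block `k`. -/
theorem blk_phi_neg {m k : ℕ} (hm : 1 ≤ m) (hm2 : m ≤ 10) :
    (blk k m).2 + (50 * (k : ℝ) - 25) * (blk k m).1 < 0 := by
  have g := gad1R hm hm2
  have s := scale_posR k
  have e : (blk k m).2 + (50 * (k : ℝ) - 25) * (blk k m).1 =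
      (scale k : ℝ) * ((gy m : ℝ) - 25 * gx m) := by
    simp only [blk]; ring
  rw [e]
  exact mul_neg_of_pos_of_neg s (by linarith [g.2.2.2.2])

theorem cross_later {i m i' m' k l : ℕ} (hm : 1 ≤ m) (hm2 : m ≤ 10) (hm' : 1 ≤ m')
    (hm'2 : m' ≤ 10) (hl : 1 ≤ l) (hl2 : l ≤ 10)
    (h : i < i' ∨ (i = i' ∧ m < m')) (hk : i' < k) :
    cross (blk i m) (blk i' m') (blk k l) < 0 := by
  have hik : i < k := by omega
  rw [cross_shear (50 * (k : ℝ) - 25)]
  have h1 := blk_lt hm hm2 hm' hm'2 h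
  have h2 := blk_phi_lt hm hm2 hm' hm'2 h hk
  have h3 := blk_phi_pos hm hm2 hik
  have h4 := blk_phi_neg (k := k) hl hl2
  have h5 := blk_lt hm hm2 hl hl2 (Or.inl hik)
  have A := mul_pos (sub_pos.2 h1) (sub_pos.2 (h4.trans h3))
  have B := mul_pos (sub_pos.2 h2) (sub_pos.2 h5)
  nlinarith

theorem cross_same {i l m r : ℕ} : cross (blk i l) (blk i m) (blk i r) =
    (scale i : ℝ) * (scale i : ℝ) *
      (((gx m - gx l) * (gy r - gy l) - (gy m - gy l) * (gx r - gx l) : ℤ) : ℝ) := by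
  rw [cross_shear (50 * (i : ℝ))]
  simp only [blk]
  push_cast
  ring

theorem cross_earlier_abs {i j l m r : ℕ} (h : i < j) (hl : 1 ≤ l) (hl2 : l ≤ 10) (hm : 1 ≤ m)
    (hmr : m < r) (hr : r ≤ 10) :
    |cross (blk i l) (blk j m) (blk j r) - (scale j : ℝ) * (scale j : ℝ) *
      ((gx m * gy r - gy m * gx r : ℤ) : ℝ)| < (scale j : ℝ) * (scale j : ℝ) := by
  have g1 := gad1R hl hl2
  have g2 := gad1R hm (by omega : m ≤ 10)
  have g3 := gad1R (by omega : 1 ≤ r) hr
  have g4 := gad2R hm hmr hr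
  have si := scale_posR i
  have sj := scale_posR j
  have s' := scale_ltR h
  have hi : (0 : ℝ) ≤ i := Nat.cast_nonneg _
  have hji : (i : ℝ) + 1 ≤ j := by exact_mod_cast h
  have e : cross (blk i l) (blk j m) (blk j r) - (scale j : ℝ) * (scale j : ℝ) *
      ((gx m * gy r - gy m * gx r : ℤ) : ℝ) =
      ((scale i : ℝ) * ((gx l : ℝ) * ((gy m : ℝ) - gy r) +
        ((gy l : ℝ) + 50 * ((j : ℝ) - i) * gx l) * ((gx r : ℝ) - gx m))) * (scale j : ℝ) := by
    rw [cross_shear (50 * (j : ℝ))]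
    simp only [blk]
    push_cast
    ring
  rw [e, abs_mul, abs_of_pos sj]
  apply mul_lt_mul_of_pos_right _ sj
  rw [abs_mul, abs_of_pos si]
  have b1 : |(gx l : ℝ) * ((gy m : ℝ) - gy r)| ≤ 25 * 22 := by
    rw [abs_mul]
    apply mul_le_mul _ _ (abs_nonneg _) (by norm_num)
    · rw [abs_le]; constructor <;> linarith [g1.1, g1.2.1]
    · rw [abs_le]; constructor <;> linarith [g2.2.2.1, g2.2.2.2.1, g3.2.2.1, g3.2.2.2.1]
  have b2 : |((gy l : ℝ) + 50 * ((j : ℝ) - i) * gx l) * ((gx r : ℝ) - gx m)| ≤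
      (21 + 1250 * j) * 20 := by
    rw [abs_mul]
    apply mul_le_mul _ _ (abs_nonneg _) (by positivity)
    · have h1 : 50 * ((j : ℝ) - i) * gx l ≤ 50 * ((j : ℝ) - i) * 25 :=
        mul_le_mul_of_nonneg_left g1.2.1 (by linarith)
      have h2 : 0 ≤ 50 * ((j : ℝ) - i) * gx l :=
        mul_nonneg (by linarith) (by linarith [g1.1])
      rw [abs_le]; constructor <;> linarith [g1.2.2.1, g1.2.2.2.1]
    · rw [abs_le]; constructor <;> linarith [g4.1, g3.2.1, g2.1]
  calc (scale i : ℝ) * |(gx l : ℝ) * ((gy m : ℝ) - gy r) +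
        ((gy l : ℝ) + 50 * ((j : ℝ) - i) * gx l) * ((gx r : ℝ) - gx m)|
      ≤ (scale i : ℝ) * (25 * 22 + (21 + 1250 * j) * 20) :=
        mul_le_mul_of_nonneg_left ((abs_add_le _ _).trans (add_le_add b1 b2)) si.le
    _ < (scale i : ℝ) * (60000 * ((j : ℝ) + 1)) := by
        apply mul_lt_mul_of_pos_left _ si
        linarith
    _ = 60000 * ((j : ℝ) + 1) * (scale i : ℝ) := by ring
    _ ≤ (scale j : ℝ) := s'

theorem sign_aux {x s : ℝ} {D : ℤ} (hs : 0 < s) (hD : D ≠ 0) (h : |x - s * (D : ℝ)| < s) :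
    x ≠ 0 ∧ (0 < x ↔ 0 < D) := by
  rw [abs_lt] at h
  rcases lt_or_gt_of_ne hD with h1 | h1
  · have : (D : ℝ) ≤ -1 := by exact_mod_cast (by omega : D ≤ -1)
    have hx : x < 0 := by nlinarith
    exact ⟨hx.ne, ⟨fun h => absurd h (not_lt.2 hx.le), fun h => absurd h (not_lt.2 h1.le)⟩⟩
  · have : (1 : ℝ) ≤ D := by exact_mod_cast (by omega : 1 ≤ D)
    have hx : 0 < x := by nlinarith
    exact ⟨hx.ne', ⟨fun _ => h1, fun _ => hx⟩⟩

theorem pt_strictMono : StrictMono (fun t => (pt t).1) := by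
  intro a b hab
  show (pt a).1 < (pt b).1
  rw [pt_eq, pt_eq]
  apply blk_lt (by omega) (by omega) (by omega) (by omega)
  omega

/-- Sign of the orientation, by cases. -/
theorem pt_cross_aux {a b c : ℕ} (h1 : a < b) (h2 : b < c) :
    cross (pt a) (pt b) (pt c) ≠ 0 ∧ (0 < cross (pt a) (pt b) (pt c) ↔
      chi (code (b / 10) a) (code (b / 10) b) (code (b / 10) c) = true) := by
  have cb : code (b / 10) b = b % 10 + 1 := by simp [code]
  rw [cb, pt_eq, pt_eq, pt_eq]
  rcases Nat.lt_or_ge (b / 10) (c / 10) with hc | hc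
  · have cc : code (b / 10) c = 11 := by
      unfold code; rw [if_neg (by omega), if_neg (by omega)]
    have := cross_later (i := a / 10) (m := a % 10 + 1) (i' := b / 10) (m' := b % 10 + 1)
      (k := c / 10) (l := c % 10 + 1) (by omega) (by omega) (by omega) (by omega) (by omega)
      (by omega) (by omega) hc
    refine ⟨this.ne, ?_⟩
    rw [cc]
    simp only [chi, if_true]
    exact ⟨fun h => absurd h (not_lt.2 this.le), fun h => by simp at h⟩
  · have hbc : c / 10 = b / 10 := by omega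
    have cc : code (b / 10) c = c % 10 + 1 := by
      unfold code; rw [if_neg (by omega), if_pos hbc]
    rw [cc, hbc]
    have hcne : c % 10 + 1 ≠ 11 := by omega
    rcases Nat.lt_or_ge (a / 10) (b / 10) with ha | ha
    · have ca : code (b / 10) a = 0 := by unfold code; rw [if_pos ha]
      rw [ca]
      have hE := cross_earlier_abs (i := a / 10) (j := b / 10) (l := a % 10 + 1)
        (m := b % 10 + 1) (r := c % 10 + 1) ha (by omega) (by omega) (by omega) (by omega)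
        (by omega)
      have hD := gad3 (b % 10 + 1) (mem_Icc.2 (by omega)) (c % 10 + 1) (mem_Icc.2 (by omega))
        (by omega)
      have := sign_aux (mul_pos (scale_posR (b / 10)) (scale_posR (b / 10))) hD hE
      refine ⟨this.1, this.2.trans ?_⟩
      have g0 : gx 0 = 0 := rfl
      have g0' : gy 0 = 0 := rfl
      simp [chi, hcne, g0, g0']
    · have hab : a / 10 = b / 10 := by omega
      have ca : code (b / 10) a = a % 10 + 1 := by
        unfold code; rw [if_neg (by omega), if_pos hab]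
      rw [ca, hab, cross_same]
      have hD := gad4 (a % 10 + 1) (mem_Icc.2 (by omega)) (b % 10 + 1) (mem_Icc.2 (by omega))
        (c % 10 + 1) (mem_Icc.2 (by omega)) (by omega) (by omega)
      have s := mul_pos (scale_posR (b / 10)) (scale_posR (b / 10))
      refine ⟨mul_ne_zero s.ne' (by exact_mod_cast hD), ?_⟩
      rw [mul_pos_iff_of_pos_left s, Int.cast_pos]
      simp only [chi, if_neg hcne, decide_eq_true_eq]

theorem pt_cross_ne {a b c : ℕ} (h1 : a < b) (h2 : b < c) : cross (pt a) (pt b) (pt c) ≠ 0 :=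
  (pt_cross_aux h1 h2).1

theorem pt_cross {j a b c : ℕ} (h1 : a < b) (h2 : b < c) (hb : b / 10 = j) :
    0 < cross (pt a) (pt b) (pt c) ↔ chi (code j a) (code j b) (code j c) = true := by
  subst hb
  exact (pt_cross_aux h1 h2).2

end Pool.Agent.Lib.MP_9bb24e_co
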