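import Mathlib

/-!
Definitions: polygonizations, reflex vertices, reflexivity of a point set, and `rho n`.
-/

set_option autoImplicit false

namespace Pool.Agent.Lib.MP_9bb24e_co

/-- General position: no three points of `S` are collinear. -/
def GenPos (S : Finset (ℝ × ℝ)) : Prop :=
  ∀ a ∈ S, ∀ b ∈ S, ∀ c ∈ S, a ≠ b → b ≠ c → a ≠ c → ¬ Collinear ℝ {a, b, c}

/-- `p` lists the vertices of a polygonization of `S` in cyclic order: its vertices are exactly
the points of `S`, each listed once, and any point common to two different edges is a common end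
point of the two edges, so that the closed polygonal curve is simple. -/
structure IsPolygonization (S : Finset (ℝ × ℝ)) (p : ZMod S.card → ℝ × ℝ) : Prop where
  inj : Function.Injective p
  range_eq : Set.range p = (S : Set (ℝ × ℝ))
  simple : ∀ i j : ZMod S.card, i ≠ j → ∀ z : ℝ × ℝ, z ∈ segment ℝ (p i) (p (i + 1)) →
    z ∈ segment ℝ (p j) (p (j + 1)) → (z = p i ∨ z = p (i + 1)) ∧ (z = p j ∨ z = p (j + 1))

/-- Twice the signed area of the triangle `a b c`: positive exactly if the path from `a` to `b`
to `c` turns left at `b`. -/
def cross (a b c : ℝ × ℝ) : ℝ := (b.1 - a.1) * (c.2 - a.2) - (b.2 - a.2) * (c.1 - a.1)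

/-- Twice the signed area enclosed by the closed polygonal curve `p` (shoelace formula): it is
positive exactly if the polygon is traversed counterclockwise. -/
noncomputable def area2 {n : ℕ} (p : ZMod n → ℝ × ℝ) : ℝ :=
  ∑ᶠ i, ((p i).1 * (p (i + 1)).2 - (p (i + 1)).1 * (p i).2)

/-- The vertex `p i` is reflex (interior angle greater than `π`): the turn at `p i` is opposite to
the sense in which the polygon is traversed. -/
def IsReflex {n : ℕ} (p : ZMod n → ℝ × ℝ) (i : ZMod n) : Prop :=
  cross (p (i - 1)) (p i) (p (i + 1)) * area2 p < 0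

/-- The reflexivity of `S`: the least number of reflex vertices of a polygonization of `S`. -/
noncomputable def reflexivity (S : Finset (ℝ × ℝ)) : ℕ :=
  sInf {k | ∃ p : ZMod S.card → ℝ × ℝ, IsPolygonization S p ∧ k = {i | IsReflex p i}.ncard}

/-- `rho n` is the largest reflexivity of a set of `n` points in general position. -/
noncomputable def rho (n : ℕ) : ℕ :=
  sSup {k | ∃ S : Finset (ℝ × ℝ), S.card = n ∧ GenPos S ∧ k = reflexivity S}

end Pool.Agent.Lib.MP_9bb24e_co
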