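import Pool.Agent.Lib.MP_9bb24e_co.Defs

/-!
Module G: a polygonization exists (polygon star shaped from its leftmost vertex).
-/

set_option autoImplicit false

namespace Pool.Agent.Lib.MP_9bb24e_co

open Finset

/-- Slope from the point `A`. -/
noncomputable def slG (A z : ℝ × ℝ) : ℝ := (z.2 - A.2) / (z.1 - A.1)

theorem slG_seg {A a b z : ℝ × ℝ} (ha : A.1 < a.1) (hb : A.1 < b.1) (hab : slG A a < slG A b)
    (hz : z ∈ segment ℝ a b) :
    A.1 < z.1 ∧ slG A a ≤ slG A z ∧ slG A z ≤ slG A b ∧ (slG A z = slG A a → z = a) ∧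
      (slG A z = slG A b → z = b) := by
  obtain ⟨s, t, hs, ht, hst, rfl⟩ := hz
  have ha' : 0 < a.1 - A.1 := by linarith
  have hb' : 0 < b.1 - A.1 := by linarith
  have e1 : a.2 - A.2 = slG A a * (a.1 - A.1) := by
    unfold slG; field_simp
  have e2 : b.2 - A.2 = slG A b * (b.1 - A.1) := by
    unfold slG; field_simp
  have hs' : s = 1 - t := by linarith
  have x1 : (s • a + t • b).1 - A.1 = s * (a.1 - A.1) + t * (b.1 - A.1) := by
    simp only [Prod.fst_add, Prod.smul_fst, smul_eq_mul]
    rw [hs']; ring
  have x2 : (s • a + t • b).2 - A.2 = s * (a.2 - A.2) + t * (b.2 - A.2) := by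
    simp only [Prod.snd_add, Prod.smul_snd, smul_eq_mul]
    rw [hs']; ring
  have hpos : 0 < s * (a.1 - A.1) + t * (b.1 - A.1) := by
    rcases hs.eq_or_lt with h | h
    · have : t = 1 := by linarith
      rw [← h, this]; linarith
    · have := mul_pos h ha'
      have := mul_nonneg ht hb'.le
      linarith
  have hsl : slG A (s • a + t • b) =
      (s * (a.1 - A.1) * slG A a + t * (b.1 - A.1) * slG A b) /
        (s * (a.1 - A.1) + t * (b.1 - A.1)) := by
    conv_lhs => unfold slG
    rw [x1, x2, e1, e2]
    congr 1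
    ring
  have d1 : slG A (s • a + t • b) - slG A a =
      t * (b.1 - A.1) * (slG A b - slG A a) / (s * (a.1 - A.1) + t * (b.1 - A.1)) := by
    rw [hsl]; field_simp; ring
  have d2 : slG A b - slG A (s • a + t • b) =
      s * (a.1 - A.1) * (slG A b - slG A a) / (s * (a.1 - A.1) + t * (b.1 - A.1)) := by
    rw [hsl]; field_simp; ring
  have hd : 0 < slG A b - slG A a := by linarith
  refine ⟨by linarith, ?_, ?_, ?_, ?_⟩
  · have : 0 ≤ slG A (s • a + t • b) - slG A a := by
      rw [d1]; positivity
    linarith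
  · have : 0 ≤ slG A b - slG A (s • a + t • b) := by
      rw [d2]; positivity
    linarith
  · intro h
    rw [h, sub_self] at d1
    have h0 := d1.symm
    rw [div_eq_zero_iff] at h0
    have ht0 : t = 0 := by
      rcases h0 with h0 | h0
      · rcases mul_eq_zero.mp h0 with h1 | h1
        · rcases mul_eq_zero.mp h1 with h2 | h2
          · exact h2
          · linarith
        · linarith
      · linarith
    have hs1 : s = 1 := by linarith
    rw [ht0, hs1]; simp
  · intro h
    rw [h, sub_self] at d2
    have h0 := d2.symm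
    rw [div_eq_zero_iff] at h0
    have ht0 : s = 0 := by
      rcases h0 with h0 | h0
      · rcases mul_eq_zero.mp h0 with h1 | h1
        · rcases mul_eq_zero.mp h1 with h2 | h2
          · exact h2
          · linarith
        · linarith
      · linarith
    have hs1 : t = 1 := by linarith
    rw [ht0, hs1]; simp

theorem slG_ray {A b z : ℝ × ℝ} (hb : A.1 < b.1) (hz : z ∈ segment ℝ A b) :
    z = A ∨ (A.1 < z.1 ∧ slG A z = slG A b) := by
  obtain ⟨s, t, hs, ht, hst, rfl⟩ := hz
  have hs' : s = 1 - t := by linarith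
  have hb' : 0 < b.1 - A.1 := by linarith
  rcases ht.eq_or_lt with h | h
  · left
    rw [← h, hs', ← h]; simp
  · right
    have x1 : (s • A + t • b).1 - A.1 = t * (b.1 - A.1) := by
      simp only [Prod.fst_add, Prod.smul_fst, smul_eq_mul]
      rw [hs']; ring
    have x2 : (s • A + t • b).2 - A.2 = t * (b.2 - A.2) := by
      simp only [Prod.snd_add, Prod.smul_snd, smul_eq_mul]
      rw [hs']; ring
    constructor
    · have := mul_pos h hb'
      linarith
    · unfold slG
      rw [x1, x2]
      field_simp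

theorem exists_polygonization (S : Finset (ℝ × ℝ)) (h3 : 3 ≤ S.card) (hS : GenPos S)
    (hx : ∀ a ∈ S, ∀ b ∈ S, a.1 = b.1 → a = b) :
    ∃ p : ZMod S.card → ℝ × ℝ, IsPolygonization S p := by
  classical
  obtain ⟨A, hA, hmin⟩ := S.exists_min_image Prod.fst (Finset.card_pos.mp (by omega))
  obtain ⟨m, hm⟩ : ∃ m, S.card = m + 1 := ⟨S.card - 1, by omega⟩
  have hm2 : 2 ≤ m := by omega
  set S' := S.erase A with hS'
  have hc' : S'.card = m := by rw [hS', card_erase_of_mem hA]; omega
  have hlt : ∀ a ∈ S', A.1 < a.1 := by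
    intro a ha
    have ha1 := mem_of_mem_erase ha
    refine lt_of_le_of_ne (hmin a ha1) ?_
    intro he
    exact (ne_of_mem_erase ha) (hx A hA a ha1 he).symm
  have hinj : Set.InjOn (slG A) S' := by
    intro a ha b hb hab
    by_contra hne
    have ha1 := hlt a ha
    have hb1 := hlt b hb
    apply hS A hA a (mem_of_mem_erase ha) b (mem_of_mem_erase hb)
      (ne_of_mem_erase ha).symm hne (ne_of_mem_erase hb).symm
    rw [collinear_iff_exists_forall_eq_smul_vadd]
    refine ⟨A, (1, slG A a), ?_⟩
    intro z hz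
    have key : ∀ z : ℝ × ℝ, A.1 < z.1 → slG A z = slG A a →
        ∃ r : ℝ, z = r • ((1 : ℝ), slG A a) +ᵥ A := by
      intro z hz1 hz2
      refine ⟨z.1 - A.1, ?_⟩
      have : z.1 - A.1 ≠ 0 := by linarith
      rw [← hz2]
      ext
      · simp
      · simp only [slG, vadd_eq_add, Prod.smul_mk, smul_eq_mul, Prod.snd_add]
        field_simp
        ring
    rcases hz with rfl | rfl | rfl
    · exact ⟨0, by simp⟩
    · exact key _ ha1 rfl
    · exact key _ hb1 hab.symm
  set T := S'.image (slG A) with hT
  have hTc : T.card = m := by rw [hT, card_image_of_injOn hinj, hc']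
  set g := T.orderEmbOfFin hTc with hg
  have hex : ∀ i : Fin m, ∃ z ∈ S', slG A z = g i := by
    intro i
    have := T.orderEmbOfFin_mem hTc i
    exact mem_image.mp this
  choose P hP1 hP2 using hex
  have hPsurj : ∀ z ∈ S', ∃ i, P i = z := by
    intro z hz
    have h1 : slG A z ∈ T := mem_image_of_mem _ hz
    have h2 : slG A z ∈ Set.range g := by
      rw [hg, Finset.range_orderEmbOfFin]; exact h1
    obtain ⟨i, hi⟩ := h2
    exact ⟨i, hinj (hP1 i) hz (by rw [hP2, hi])⟩
  set Q : ℕ → ℝ × ℝ := fun k => if h : 1 ≤ k ∧ k ≤ m then P ⟨k - 1, by omega⟩ else A with hQ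
  have hQin : ∀ k, 1 ≤ k → k ≤ m → Q k ∈ S' := by
    intro k h1 h2
    simp only [hQ]
    rw [dif_pos ⟨h1, h2⟩]
    exact hP1 _
  have hQ0 : Q 0 = A := by
    simp only [hQ]
    rw [dif_neg (by omega)]
  have hQm : Q (m + 1) = A := by
    simp only [hQ]
    rw [dif_neg (by omega)]
  have hQmono : ∀ i j, 1 ≤ i → i < j → j ≤ m → slG A (Q i) < slG A (Q j) := by
    intro i j h1 h2 h4
    simp only [hQ]
    rw [dif_pos ⟨h1, by omega⟩, dif_pos ⟨by omega, h4⟩, hP2, hP2]
    apply g.strictMono
    rw [Fin.mk_lt_mk]; omega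
  have hQmono' : ∀ i j, 1 ≤ i → i ≤ j → j ≤ m → slG A (Q i) ≤ slG A (Q j) := by
    intro i j h1 h2 h4
    rcases h2.eq_or_lt with h | h
    · rw [h]
    · exact (hQmono i j h1 h h4).le
  have hQx : ∀ k, 1 ≤ k → k ≤ m → A.1 < (Q k).1 := fun k h1 h2 => hlt _ (hQin k h1 h2)
  have hQinj : ∀ i j, i ≤ m → j ≤ m → Q i = Q j → i = j := by
    have aux : ∀ i j, i < j → j ≤ m → Q i ≠ Q j := by
      intro i j h1 h2 he
      rcases Nat.eq_zero_or_pos i with h | h
      · have := hQx j (by omega) h2
        rw [← he, h, hQ0] at this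
        exact lt_irrefl _ this
      · have := hQmono i j h h1 h2
        rw [he] at this
        exact lt_irrefl _ this
    intro i j h1 h2 he
    rcases lt_trichotomy i j with h | h | h
    · exact absurd he (aux i j h h2)
    · exact h
    · exact absurd he.symm (aux j i h h1)
  -- simplicity in terms of naturals
  have hsimp : ∀ i j, i < j → j ≤ m → ∀ z, z ∈ segment ℝ (Q i) (Q (i + 1)) →
      z ∈ segment ℝ (Q j) (Q (j + 1)) →
      (z = Q i ∨ z = Q (i + 1)) ∧ (z = Q j ∨ z = Q (j + 1)) := by
    intro i j hij hj z hz1 hz2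
    -- description of the two edges
    have middle : ∀ k, 1 ≤ k → k + 1 ≤ m → z ∈ segment ℝ (Q k) (Q (k + 1)) →
        A.1 < z.1 ∧ slG A (Q k) ≤ slG A z ∧ slG A z ≤ slG A (Q (k + 1)) ∧
        (slG A z = slG A (Q k) → z = Q k) ∧ (slG A z = slG A (Q (k + 1)) → z = Q (k + 1)) :=
      fun k h1 h2 h => slG_seg (hQx k h1 (by omega)) (hQx (k + 1) (by omega) h2)
        (hQmono k (k + 1) h1 (by omega) h2) h
    rcases Nat.eq_zero_or_pos i with hi0 | hi0
    · subst hi0
      rw [hQ0] at hz1
      have d1 := slG_ray (hQx 1 le_rfl (by omega)) hz1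
      rw [Nat.zero_add, hQ0]
      rcases hj.eq_or_lt with hjm | hjm
      · subst hjm
        rw [hQm, segment_symm] at hz2
        have d2 := slG_ray (hQx j (by omega) le_rfl) hz2
        rcases d1 with d1 | d1
        · rw [hQm]; exact ⟨Or.inl d1, Or.inr d1⟩
        · rcases d2 with d2 | d2
          · rw [hQm]; exact ⟨Or.inl d2, Or.inr d2⟩
          · exfalso
            have := hQmono 1 j le_rfl (by omega) le_rfl
            rw [← d1.2, ← d2.2] at this
            exact lt_irrefl _ this
      · obtain ⟨c1, c2, c3, c4, c5⟩ := middle j (by omega) hjm hz2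
        rcases d1 with d1 | d1
        · exfalso; rw [d1] at c1; exact lt_irrefl _ c1
        · rcases Nat.lt_or_ge 1 j with h1 | h1
          · exfalso
            have := hQmono 1 j le_rfl h1 hj
            rw [← d1.2] at this
            linarith
          · have : j = 1 := by omega
            subst this
            have := c4 d1.2
            exact ⟨Or.inr this, Or.inl this⟩
    · obtain ⟨c1, c2, c3, c4, c5⟩ := middle i hi0 (by omega) hz1
      rcases hj.eq_or_lt with hjm | hjm
      · subst hjm
        rw [hQm, segment_symm] at hz2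
        have d2 := slG_ray (hQx j (by omega) le_rfl) hz2
        rcases d2 with d2 | d2
        · exfalso; rw [d2] at c1; exact lt_irrefl _ c1
        · rcases Nat.lt_or_ge (i + 1) j with h1 | h1
          · exfalso
            have := hQmono (i + 1) j (by omega) h1 le_rfl
            rw [← d2.2] at this
            linarith
          · have : j = i + 1 := by omega
            subst this
            have := c5 d2.2
            exact ⟨Or.inr this, Or.inl this⟩
      · obtain ⟨e1, e2, e3, e4, e5⟩ := middle j (by omega) hjm hz2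
        rcases Nat.lt_or_ge (i + 1) j with h1 | h1
        · exfalso
          have := hQmono (i + 1) j (by omega) h1 hj
          linarith
        · have : j = i + 1 := by omega
          subst this
          have := c5 (le_antisymm c3 e2)
          exact ⟨Or.inr this, Or.inl this⟩
  have : NeZero S.card := ⟨by omega⟩
  have hval : ∀ z : ZMod S.card, z.val ≤ m := by
    intro z
    have := ZMod.val_lt z
    omega
  have hsucc : ∀ z : ZMod S.card, Q (z + 1).val = Q (z.val + 1) := by
    intro z
    have : Fact (1 < S.card) := ⟨by omega⟩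
    have hone : (1 : ZMod S.card).val = 1 := ZMod.val_one _
    rw [ZMod.val_add, hone]
    have := ZMod.val_lt z
    rcases Nat.lt_or_ge (z.val + 1) S.card with h | h
    · rw [Nat.mod_eq_of_lt h]
    · have e : z.val + 1 = S.card := by omega
      rw [e, Nat.mod_self, hm, hQm, hQ0]
  refine ⟨fun z => Q z.val, ?_, ?_, ?_⟩
  · intro a b hab
    exact ZMod.val_injective _ (hQinj _ _ (hval a) (hval b) hab)
  · ext z
    simp only [Set.mem_range, mem_coe]
    constructor
    · rintro ⟨y, rfl⟩
      rcases Nat.eq_zero_or_pos y.val with h | h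
      · rw [h, hQ0]; exact hA
      · exact mem_of_mem_erase (hQin _ h (hval y))
    · intro hz
      by_cases hzA : z = A
      · exact ⟨0, by rw [ZMod.val_zero, hQ0, hzA]⟩
      · obtain ⟨i, hi⟩ := hPsurj z (mem_erase.mpr ⟨hzA, hz⟩)
        refine ⟨((i.val + 1 : ℕ) : ZMod S.card), ?_⟩
        have hi2 := i.isLt
        rw [ZMod.val_natCast, Nat.mod_eq_of_lt (by omega)]
        simp only [hQ]
        rw [dif_pos ⟨by omega, by omega⟩]
        simpa using hi
  · intro i j hij z hz1 hz2
    simp only [hsucc] at hz1 hz2 ⊢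
    have hne : i.val ≠ j.val := fun h => hij (ZMod.val_injective _ h)
    rcases lt_or_gt_of_ne hne with h | h
    · exact hsimp _ _ h (hval j) z hz1 hz2
    · exact (hsimp _ _ h (hval i) z hz2 hz1).symm

end Pool.Agent.Lib.MP_9bb24e_co
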