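import Pool.Agent.Lib.MP_9bb24e_co.ParityB
import Pool.Agent.Lib.MP_9bb24e_co.Ident

/-!
The sum of the weights of the vertices is three times the number of reflex vertices plus four.
-/

set_option autoImplicit false

namespace Pool.Agent.Lib.MP_9bb24e_co

open Finset

variable {n : ℕ} {q : ℕ → ℝ × ℝ}

theorem pos_mul_iffW {a b : ℝ} (ha : a ≠ 0) (hb : b ≠ 0) :
    (0 < a * b) ↔ (0 < a ↔ 0 < b) := by
  rcases lt_or_gt_of_ne ha with h1 | h1 <;> rcases lt_or_gt_of_ne hb with h2 | h2
  · have h3 := not_lt.mpr h1.le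
    have h4 := not_lt.mpr h2.le
    have h5 := mul_pos_of_neg_of_neg h1 h2
    tauto
  · have h3 := not_lt.mpr h1.le
    have h4 : 0 < b := h2
    have h5 := not_lt.mpr (mul_neg_of_neg_of_pos h1 h2).le
    tauto
  · have h3 : 0 < a := h1
    have h4 := not_lt.mpr h2.le
    have h5 := not_lt.mpr (mul_neg_of_pos_of_neg h1 h2).le
    tauto
  · have h3 : 0 < a := h1
    have h4 : 0 < b := h2
    have h5 := mul_pos h3 h4
    tauto

theorem turn_neW (h : Pg n q) {k : ℕ} (hk : k < n) : turn n q k ≠ 0 := PB.turn_ne h hk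

theorem cup_iff_evenW (h : Pg n q) {k : ℕ} (hk : k < n) (he : ¬ Ext n q k) :
    (Cup n q k ↔ Odd (aboveCount n q k)) ↔ 0 < turn n q 0 * turn n q k := by
  have hne1 : (q k).1 ≠ (q (k + 1)).1 := PB.xne_succ h hk
  have hne2 : (q (k + (n - 1))).1 ≠ (q k).1 := by
    rw [← PB.q_pe h]
    exact PB.xne h (PB.pe_lt h hk) hk (PB.pe_ne h)
  have t0 := turn_neW h (PB.pg_pos h)
  have tk := turn_neW h hk
  rw [pos_mul_iffW t0 tk]
  unfold Ext at he
  push Not at he
  rcases lt_or_gt_of_ne hne2 with h1 | h1
  · -- going to the right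
    have h2 : (q k).1 < (q (k + 1)).1 := lt_of_le_of_ne (he.2 h1) hne1
    have hp := PB.parity_right h hk h1 h2
    have hcup : Cup n q k ↔ 0 < turn n q k := by
      unfold Cup turn
      constructor
      · rintro (⟨_, h4⟩ | ⟨h3, _⟩)
        · exact h4
        · exact absurd h3 (not_lt.mpr (h1.trans h2).le)
      · intro h4
        exact Or.inl ⟨h1.trans h2, h4⟩
    rw [hcup, ← hp]
    tauto
  · have h1' : (q k).1 < (q (k + (n - 1))).1 := h1
    have h2 : (q (k + 1)).1 < (q k).1 := lt_of_le_of_ne (he.1 h1') (Ne.symm hne1)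
    have hp := PB.parity_left h hk h1' h2
    have hcr : cross (q (k + 1)) (q k) (q (k + (n - 1))) = - turn n q k := by
      unfold turn cross; ring
    have hcup : Cup n q k ↔ ¬ 0 < turn n q k := by
      unfold Cup
      rw [hcr]
      constructor
      · rintro (⟨h3, _⟩ | ⟨_, h4⟩)
        · exact absurd h3 (not_lt.mpr (h2.trans h1').le)
        · exact not_lt.mpr (by linarith)
      · intro h4
        refine Or.inr ⟨h2.trans h1', ?_⟩
        have := lt_of_le_of_ne (not_lt.mp h4) tk
        linarith
    rw [hcup, ← Nat.not_even_iff_odd, ← hp]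
    tauto

open Classical in
theorem wtG_eqW (h : Pg n q) {k : ℕ} (hk : k < n) :
    wtG n q k = 2 * (if Ext n q k ∧ 0 < turn n q 0 * turn n q k then 1 else 0) +
      (if Ext n q k ∧ turn n q 0 * turn n q k < 0 then 1 else 0) +
      3 * (if ¬ Ext n q k ∧ turn n q 0 * turn n q k < 0 then 1 else 0) := by
  have t0 := turn_neW h (PB.pg_pos h)
  have tk := turn_neW h hk
  have hne : turn n q 0 * turn n q k ≠ 0 := mul_ne_zero t0 tk
  unfold wtG
  by_cases he : Ext n q k
  · have hp := PB.parity_ext h hk he
    rcases lt_or_gt_of_ne hne with h1 | h1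
    · have h2 : ¬ 0 < turn n q 0 * turn n q k := not_lt.mpr h1.le
      have h3 : ¬ Even (aboveCount n q k) := fun h4 => h2 (hp.mpr h4)
      simp only [he, h1, h2, h3, if_true, if_false, and_true, and_false, not_true, false_and]
    · have h1' : 0 < turn n q 0 * turn n q k := h1
      have h2 : ¬ turn n q 0 * turn n q k < 0 := not_lt.mpr h1'.le
      have h3 : Even (aboveCount n q k) := hp.mp h1'
      simp only [he, h1', h2, h3, if_true, if_false, and_true, and_false, not_true, false_and]
  · have hp := cup_iff_evenW h hk he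
    rcases lt_or_gt_of_ne hne with h1 | h1
    · have h2 : ¬ 0 < turn n q 0 * turn n q k := not_lt.mpr h1.le
      have h3 : ¬ (Cup n q k ↔ Odd (aboveCount n q k)) := fun h4 => h2 (hp.mp h4)
      rw [if_neg he, if_neg h3, if_neg (fun h4 => he h4.1), if_neg (fun h4 => he h4.1),
        if_pos ⟨he, h1⟩]
    · have h1' : 0 < turn n q 0 * turn n q k := h1
      have h2 : ¬ turn n q 0 * turn n q k < 0 := not_lt.mpr h1'.le
      have h3 : (Cup n q k ↔ Odd (aboveCount n q k)) := hp.mpr h1'
      rw [if_neg he, if_pos h3, if_neg (fun h4 => he h4.1), if_neg (fun h4 => he h4.1),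
        if_neg (fun h4 => h2 h4.2)]

open Classical in
/-- The weights of the vertices (in thirds) sum to three times the number of reflex vertices
plus four. -/
theorem wt_sum (h : Pg n q) : ∑ k ∈ range n, wtG n q k =
    3 * ((range n).filter (fun k => turn n q 0 * turn n q k < 0)).card + 4 := by
  have hid := ext_identity h
  have h1 : ∑ k ∈ range n, wtG n q k = ∑ k ∈ range n,
      (2 * (if Ext n q k ∧ 0 < turn n q 0 * turn n q k then 1 else 0) +
      (if Ext n q k ∧ turn n q 0 * turn n q k < 0 then 1 else 0) +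
      3 * (if ¬ Ext n q k ∧ turn n q 0 * turn n q k < 0 then 1 else 0)) :=
    sum_congr rfl fun k hk => wtG_eqW h (mem_range.mp hk)
  have h2 : ((range n).filter (fun k => turn n q 0 * turn n q k < 0)).card =
      ((range n).filter (fun k => Ext n q k ∧ turn n q 0 * turn n q k < 0)).card +
      ((range n).filter (fun k => ¬ Ext n q k ∧ turn n q 0 * turn n q k < 0)).card := by
    rw [← card_union_of_disjoint]
    · congr 1
      ext k
      simp only [mem_filter, mem_union]
      tauto
    · rw [Finset.disjoint_left]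
      intro k hk hk'
      simp only [mem_filter] at hk hk'
      exact hk'.2.1 hk.2.1
  rw [h1, sum_add_distrib, sum_add_distrib, ← mul_sum, ← mul_sum, ← card_filter, ← card_filter,
    ← card_filter, h2]
  omega

end Pool.Agent.Lib.MP_9bb24e_co
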