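import Pool.Agent.Lib.MP_9bb24e_co.Local
import Pool.Agent.Lib.MP_9bb24e_co.Weights
import Pool.Agent.Lib.MP_9bb24e_co.Area
import Pool.Agent.Lib.MP_9bb24e_co.Exist

set_option autoImplicit false
namespace Pool.Agent.Lib.MP_9bb24e_co
open Finset

variable {n : ℕ} {q : ℕ → ℝ × ℝ}



theorem cross_ne_of_distinct {a b c : ℕ} (h1 : a ≠ b) (h2 : b ≠ c) (h3 : a ≠ c) :
    cross (pt a) (pt b) (pt c) ≠ 0 := by
  have s1 : ∀ u v w : ℝ × ℝ, cross u v w = - cross v u w := fun u v w => by unfold cross; ring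
  have s2 : ∀ u v w : ℝ × ℝ, cross u v w = - cross u w v := fun u v w => by unfold cross; ring
  rcases lt_or_gt_of_ne h1 with h1 | h1 <;> rcases lt_or_gt_of_ne h2 with h2 | h2 <;>
    rcases lt_or_gt_of_ne h3 with h3 | h3
  · exact pt_cross_ne h1 h2
  · omega
  · rw [s2, neg_ne_zero]; exact pt_cross_ne h3 h2
  · rw [s2, s1, neg_neg]; exact pt_cross_ne h3 h1
  · rw [s1, neg_ne_zero]; exact pt_cross_ne h1 h3
  · rw [s1, s2, neg_neg]; exact pt_cross_ne h2 h3
  · omega
  · rw [s1, s2, s1, neg_neg, neg_ne_zero]; exact pt_cross_ne h2 h1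

theorem cross_eq_zero_of_collinear {a b c : ℝ × ℝ} (h : Collinear ℝ {a, b, c}) :
    cross a b c = 0 := by
  rw [collinear_iff_of_mem (p₀ := a) (by simp)] at h
  obtain ⟨v, hv⟩ := h
  obtain ⟨r, hr⟩ := hv b (by simp)
  obtain ⟨s, hs⟩ := hv c (by simp)
  rw [hr, hs]
  unfold cross
  simp only [vadd_eq_add, Prod.fst_add, Prod.snd_add, Prod.smul_fst, Prod.smul_snd, smul_eq_mul]
  ring

/-- the first `n` points -/
noncomputable def PS (n : ℕ) : Finset (ℝ × ℝ) := (range n).image pt

theorem PS_card (n : ℕ) : (PS n).card = n := by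
  unfold PS
  rw [card_image_of_injective _ (fun a b h => pt_inj h), card_range]

theorem PS_genPos (n : ℕ) : GenPos (PS n) := by
  intro a ha b hb c hc hab hbc hac hcol
  unfold PS at ha hb hc
  rw [mem_image] at ha hb hc
  obtain ⟨i, _, rfl⟩ := ha
  obtain ⟨j, _, rfl⟩ := hb
  obtain ⟨k, _, rfl⟩ := hc
  exact cross_ne_of_distinct (fun h => hab (by rw [h])) (fun h => hbc (by rw [h]))
    (fun h => hac (by rw [h])) (cross_eq_zero_of_collinear hcol)

theorem sum_zmod {N : ℕ} [NeZero N] (m : ZMod N) (f : ZMod N → ℝ) :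
    ∑ i, f i = ∑ k ∈ range N, f (m + (k : ZMod N)) := by
  symm
  apply Finset.sum_nbij' (i := fun k : ℕ => m + (k : ZMod N)) (j := fun i : ZMod N => (i - m).val)
  · intro a _; exact mem_univ _
  · intro a _; exact mem_range.2 (ZMod.val_lt _)
  · intro a ha
    simp only [add_sub_cancel_left]
    exact ZMod.val_natCast_of_lt (mem_range.1 ha)
  · intro a _
    simp only [ZMod.natCast_val, ZMod.cast_id', id_eq, add_sub_cancel]
  · intro a _; rfl

theorem sign_auxF {t A x : ℝ} (h : 0 < t * A) : x * A < 0 ↔ t * x < 0 := by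
  rcases mul_pos_iff.1 h with ⟨a, b⟩ | ⟨a, b⟩
  · rw [mul_neg_iff, mul_neg_iff]
    constructor
    · rintro (⟨_, h2⟩ | ⟨h1, _⟩)
      · linarith
      · exact Or.inl ⟨a, h1⟩
    · rintro (⟨_, h2⟩ | ⟨h1, _⟩)
      · exact Or.inr ⟨h2, b⟩
      · linarith
  · rw [mul_neg_iff, mul_neg_iff]
    constructor
    · rintro (⟨h1, _⟩ | ⟨_, h2⟩)
      · exact Or.inr ⟨a, h1⟩
      · linarith
    · rintro (⟨h1, _⟩ | ⟨_, h2⟩)
      · linarith
      · exact Or.inl ⟨h2, b⟩

open Classical in
/-- Lower bound for the number of reflex vertices of any polygonization of the first `N` points. -/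
theorem reflex_count_bound {N : ℕ} (hN : 3 ≤ N) (p : ZMod N → ℝ × ℝ)
    (hinj : Function.Injective p) (hrange : Set.range p = ((PS N : Finset (ℝ × ℝ)) : Set (ℝ × ℝ)))
    (hsimple : ∀ i j : ZMod N, i ≠ j → ∀ z : ℝ × ℝ, z ∈ segment ℝ (p i) (p (i + 1)) →
      z ∈ segment ℝ (p j) (p (j + 1)) →
        (z = p i ∨ z = p (i + 1)) ∧ (z = p j ∨ z = p (j + 1))) :
    8 * (N / 10) ≤ 3 * {i | IsReflex p i}.ncard + 4 := by
  have : NeZero N := ⟨by omega⟩
  have hmem : ∀ i, ∃ t, t < N ∧ pt t = p i := by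
    intro i
    have : p i ∈ ((PS N : Finset (ℝ × ℝ)) : Set (ℝ × ℝ)) := by rw [← hrange]; exact ⟨i, rfl⟩
    rw [mem_coe] at this
    unfold PS at this
    rw [mem_image] at this
    obtain ⟨t, h1, h2⟩ := this
    exact ⟨t, mem_range.1 h1, h2⟩
  have h0 : ∃ m, p m = pt 0 := by
    have : pt 0 ∈ Set.range p := by
      rw [hrange, mem_coe]
      unfold PS
      exact mem_image_of_mem _ (mem_range.2 (by omega))
    exact this
  obtain ⟨m, hm⟩ := h0
  set q : ℕ → ℝ × ℝ := fun k => p (m + (k : ZMod N)) with hqdef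
  choose g hg1 hg2 using hmem
  set idx : ℕ → ℕ := fun k => g (m + (k : ZMod N)) with hidx
  have hq : ∀ k, q k = pt (idx k) := fun k => (hg2 _).symm
  have hcastN : ((N : ℕ) : ZMod N) = 0 := ZMod.natCast_self N
  have hidxper : ∀ k, idx (k + N) = idx k := by
    intro k; simp only [hidx, Nat.cast_add, hcastN, add_zero]
  have hqper : ∀ k, q (k + N) = q k := by
    intro k; simp only [hqdef, Nat.cast_add, hcastN, add_zero]
  have hcast_inj : ∀ i, i < N → ∀ j, j < N → (i : ZMod N) = (j : ZMod N) → i = j := by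
    intro i hi j hj hij
    have := congrArg ZMod.val hij
    rwa [ZMod.val_natCast_of_lt hi, ZMod.val_natCast_of_lt hj] at this
  have hidxinj : ∀ i, i < N → ∀ j, j < N → idx i = idx j → i = j := by
    intro i hi j hj hij
    have h1 : q i = q j := by rw [hq, hq, hij]
    exact hcast_inj i hi j hj (add_left_cancel (hinj h1))
  have hq0 : q 0 = pt 0 := by simp only [hqdef, Nat.cast_zero, add_zero, hm]
  have hidx0 : idx 0 = 0 := by
    have := hq 0; rw [hq0] at this; exact (pt_inj this).symm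
  have hqs : ∀ k, q (k + 1) = p (m + (k : ZMod N) + 1) := by
    intro k; simp only [hqdef, Nat.cast_add, Nat.cast_one, add_assoc]
  have hqp : ∀ k, q (k + (N - 1)) = p (m + (k : ZMod N) - 1) := by
    intro k
    simp only [hqdef]
    congr 1
    rw [Nat.cast_add, Nat.cast_sub (by omega), hcastN, Nat.cast_one]
    ring
  have hPg : Pg N q := by
    refine ⟨hN, hqper, ?_, ?_, ?_, ?_⟩
    · intro i hi j hj hij
      rw [hq, hq] at hij
      exact hidxinj i hi j hj (pt_strictMono.injective hij)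
    · intro i hi j hj k hk hij hjk hik
      rw [hq i, hq j, hq k]
      exact cross_ne_of_distinct (fun h => hij (hidxinj i hi j hj h))
        (fun h => hjk (hidxinj j hj k hk h)) (fun h => hik (hidxinj i hi k hk h))
    · intro i hi j hj hij z hz1 hz2
      rw [hqs] at hz1 hz2 ⊢
      rw [hqs]
      exact hsimple _ _ (fun h => hij (hcast_inj i hi j hj (add_left_cancel h))) z hz1 hz2
    · intro i hi1 hi2
      rw [hq0, hq i]
      apply pt_strictMono
      have : idx i ≠ idx 0 := fun h => by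
        have := hidxinj i hi2 0 (by omega) h
        omega
      omega
  -- the weights
  have hw := wt_sum hPg
  have hlow : 8 * (N / 10) ≤ ∑ k ∈ range N, wtG N q k := by
    have hpart : ∑ j ∈ range (N / 10), ∑ k ∈ (range N).filter (fun k => idx k / 10 = j),
        wtG N q k ≤ ∑ k ∈ range N, wtG N q k := by
      simp_rw [Finset.sum_filter]
      rw [Finset.sum_comm]
      apply Finset.sum_le_sum
      intro k _
      rw [Finset.sum_ite_eq]
      split_ifs
      · exact le_rfl
      · exact Nat.zero_le _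
    have h8 : ∑ j ∈ range (N / 10), 8 ≤ ∑ j ∈ range (N / 10),
        ∑ k ∈ (range N).filter (fun k => idx k / 10 = j), wtG N q k := by
      apply Finset.sum_le_sum
      intro j hj
      have hj' := mem_range.1 hj
      exact block_weight hPg idx hq hidxper (fun k => hg1 _) hidxinj (by omega)
    rw [sum_const, card_range, smul_eq_mul] at h8
    omega
  -- reflex vertices
  have harea : area2 p = ∑ i ∈ range N, ((q i).1 * (q (i + 1)).2 - (q (i + 1)).1 * (q i).2) := by
    unfold area2
    rw [finsum_eq_sum_of_fintype, sum_zmod m]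
    apply Finset.sum_congr rfl
    intro k _
    rw [hqs]
  have hsgn := area_sign hPg
  rw [← harea] at hsgn
  have hrefl : {i | IsReflex p i} = (fun k : ℕ => m + (k : ZMod N)) ''
      (((range N).filter (fun k => turn N q 0 * turn N q k < 0) : Finset ℕ) : Set ℕ) := by
    have hk : ∀ k : ℕ, IsReflex p (m + (k : ZMod N)) ↔ turn N q 0 * turn N q k < 0 := by
      intro k
      have ht : turn N q k = cross (p (m + (k : ZMod N) - 1)) (p (m + (k : ZMod N)))
          (p (m + (k : ZMod N) + 1)) := by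
        unfold turn
        rw [hqp, hqs]
      unfold IsReflex
      rw [← ht]
      exact sign_auxF hsgn
    ext i
    constructor
    · intro hi
      refine ⟨(i - m).val, ?_, ?_⟩
      · rw [mem_coe, mem_filter]
        refine ⟨mem_range.2 (ZMod.val_lt _), ?_⟩
        rw [← hk]
        simpa using hi
      · simp
    · rintro ⟨k, hk1, rfl⟩
      rw [mem_coe, mem_filter] at hk1
      exact (hk k).2 hk1.2
  have hinjOn : Set.InjOn (fun k : ℕ => m + (k : ZMod N))
      (((range N).filter (fun k => turn N q 0 * turn N q k < 0) : Finset ℕ) : Set ℕ) := by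
    intro a ha b hb hab
    rw [mem_coe, mem_filter, mem_range] at ha hb
    exact hcast_inj a ha.1 b hb.1 (add_left_cancel hab)
  rw [hrefl, hinjOn.ncard_image, Set.ncard_coe_finset]
  omega

theorem reflexivity_bound {n : ℕ} (hn : 3 ≤ n) :
    8 * (n / 10) ≤ 3 * reflexivity (PS n) + 4 := by
  have hcard := PS_card n
  have hne : {k | ∃ p : ZMod (PS n).card → ℝ × ℝ, IsPolygonization (PS n) p ∧
      k = {i | IsReflex p i}.ncard}.Nonempty := by
    obtain ⟨p, hp⟩ := exists_polygonization (PS n) (by omega) (PS_genPos n) (by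
      intro a ha b hb hab
      unfold PS at ha hb
      rw [mem_image] at ha hb
      obtain ⟨i, _, rfl⟩ := ha
      obtain ⟨j, _, rfl⟩ := hb
      rw [pt_strictMono.injective hab])
    exact ⟨_, p, hp, rfl⟩
  obtain ⟨p, hp, hk⟩ := Nat.sInf_mem hne
  have hr : reflexivity (PS n) = {i | IsReflex p i}.ncard := hk
  rw [hr]
  have := reflex_count_bound (N := (PS n).card) (by omega) p hp.inj (by
    rw [hp.range_eq, hcard]) hp.simple
  have h10 : (PS n).card / 10 = n / 10 := by rw [hcard]
  omega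

theorem reflexivity_le (S : Finset (ℝ × ℝ)) (h : 0 < S.card) : reflexivity S ≤ S.card := by
  have : NeZero S.card := ⟨by omega⟩
  unfold reflexivity
  rcases Set.eq_empty_or_nonempty {k | ∃ p : ZMod S.card → ℝ × ℝ, IsPolygonization S p ∧
      k = {i | IsReflex p i}.ncard} with h' | h'
  · rw [h']; simp
  · obtain ⟨k, p, hp, hk⟩ := h'
    refine (Nat.sInf_le (show k ∈ {k | ∃ p : ZMod S.card → ℝ × ℝ, IsPolygonization S p ∧
      k = {i | IsReflex p i}.ncard} from ⟨p, hp, hk⟩)).trans ?_
    rw [hk]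
    calc {i | IsReflex p i}.ncard ≤ (Set.univ : Set (ZMod S.card)).ncard :=
          Set.ncard_le_ncard (Set.subset_univ _)
      _ = S.card := by rw [Set.ncard_univ, Nat.card_zmod]

theorem rho_bound (n : ℕ) (hn : 3 ≤ n) : 4 * n ≤ 15 * rho n + 56 := by
  have h1 := reflexivity_bound hn
  have h2 : reflexivity (PS n) ≤ rho n := by
    unfold rho
    apply le_csSup
    · refine ⟨n, ?_⟩
      rintro k ⟨S, hS, _, rfl⟩
      rw [← hS]
      exact reflexivity_le S (by omega)
    · exact ⟨PS n, PS_card n, PS_genPos n, rfl⟩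
  omega

end Pool.Agent.Lib.MP_9bb24e_co
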