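import Pool.Agent.Lib.MP_9bb24e_co.Geom

/-!
More elementary geometry of the edges of a polygon (heights, crossing, generic abscissas).
-/

set_option autoImplicit false

namespace Pool.Agent.Lib.MP_9bb24e_co

open Finset

variable {n : ℕ} {q : ℕ → ℝ × ℝ}

/-! ### cross -/

theorem cross_swap12 (a b c : ℝ × ℝ) : cross b a c = -cross a b c := by
  unfold cross; ring

theorem cross_swap23 (a b c : ℝ × ℝ) : cross a c b = -cross a b c := by
  unfold cross; ring

theorem cross_swap13 (a b c : ℝ × ℝ) : cross c b a = -cross a b c := by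
  unfold cross; ring

theorem cross_rot (a b c : ℝ × ℝ) : cross b c a = cross a b c := by
  unfold cross; ring

/-! ### heights -/

theorem ht_comm {a b : ℝ × ℝ} (h : a.1 ≠ b.1) (x : ℝ) : ht a b x = ht b a x := by
  have h1 : b.1 - a.1 ≠ 0 := sub_ne_zero.2 h.symm
  have h2 : a.1 - b.1 ≠ 0 := sub_ne_zero.2 h
  unfold ht
  field_simp
  ring

/-- heights are affine functions of the abscissa -/
theorem ht_eq (a b : ℝ × ℝ) (x y : ℝ) :
    ht a b x = ht a b y + (x - y) * ((b.2 - a.2) / (b.1 - a.1)) := by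
  unfold ht; ring

theorem continuous_ht (a b : ℝ × ℝ) : Continuous (ht a b) := by
  unfold ht
  exact continuous_const.add (((continuous_id.sub continuous_const).mul continuous_const).div_const _)

/-- difference of a height and the ordinate of a point, in terms of `cross` -/
theorem ht_sub_eq {a b : ℝ × ℝ} (h : a.1 ≠ b.1) (v : ℝ × ℝ) :
    (ht a b v.1 - v.2) * (b.1 - a.1) = cross a v b := by
  have h1 : b.1 - a.1 ≠ 0 := sub_ne_zero.2 h.symm
  unfold ht cross
  field_simp
  ring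

theorem lt_ht_iff {a b : ℝ × ℝ} (h : a.1 < b.1) (v : ℝ × ℝ) :
    v.2 < ht a b v.1 ↔ 0 < cross a v b := by
  rw [← ht_sub_eq h.ne v, mul_pos_iff_of_pos_right (sub_pos.2 h), sub_pos]

theorem ht_lt_iff {a b : ℝ × ℝ} (h : a.1 < b.1) (v : ℝ × ℝ) :
    ht a b v.1 < v.2 ↔ cross a v b < 0 := by
  rw [← ht_sub_eq h.ne v, ← neg_pos, ← neg_mul, mul_pos_iff_of_pos_right (sub_pos.2 h), neg_pos,
    sub_neg]

theorem ht_eq_iff {a b : ℝ × ℝ} (h : a.1 ≠ b.1) (v : ℝ × ℝ) :
    ht a b v.1 = v.2 ↔ cross a v b = 0 := by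
  rw [← ht_sub_eq h v, mul_eq_zero, sub_eq_zero, or_iff_left (sub_ne_zero.2 h.symm)]

/-- version for an edge directed to the left -/
theorem lt_ht_iff' {a b : ℝ × ℝ} (h : b.1 < a.1) (v : ℝ × ℝ) :
    v.2 < ht a b v.1 ↔ cross a v b < 0 := by
  rw [ht_comm h.ne', lt_ht_iff h, cross_swap13, neg_pos]

theorem ht_lt_iff' {a b : ℝ × ℝ} (h : b.1 < a.1) (v : ℝ × ℝ) :
    ht a b v.1 < v.2 ↔ 0 < cross a v b := by
  rw [ht_comm h.ne', ht_lt_iff h, cross_swap13, neg_lt_zero]

/-! ### Spans and Above -/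

theorem spans_comm {a b : ℝ × ℝ} {x : ℝ} : Spans a b x ↔ Spans b a x := by
  unfold Spans; exact or_comm

theorem spans_iff_min_max {a b : ℝ × ℝ} {x : ℝ} :
    Spans a b x ↔ min a.1 b.1 < x ∧ x < max a.1 b.1 := by
  unfold Spans
  rcases le_total a.1 b.1 with h | h
  · rw [min_eq_left h, max_eq_right h]
    constructor
    · rintro (h1 | h1)
      · exact h1
      · exact absurd (h1.1.trans h1.2) (not_lt.2 h)
    · exact Or.inl
  · rw [min_eq_right h, max_eq_left h]
    constructor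
    · rintro (h1 | h1)
      · exact absurd (h1.1.trans h1.2) (not_lt.2 h)
      · exact h1
    · exact Or.inr

/-! ### consequences of the structure `Pg` -/

theorem Pg.per_mul (h : Pg n q) (k m : ℕ) : q (k + m * n) = q k := by
  induction m with
  | zero => simp
  | succ m ih => rw [Nat.succ_mul, ← Nat.add_assoc, h.per, ih]

theorem Pg.q_mod (h : Pg n q) (k : ℕ) : q (k % n) = q k := by
  conv_rhs => rw [← Nat.mod_add_div k n, Nat.mul_comm n]
  rw [h.per_mul]

theorem Pg.inj (h : Pg n q) {i j : ℕ} (hi : i < n) (hj : j < n) (hij : q i = q j) : i = j :=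
  h.xinj i hi j hj (by rw [hij])

/-- equal abscissas of vertices with arbitrary indices -/
theorem Pg.mod_eq_of_fst (h : Pg n q) {i j : ℕ} (hij : (q i).1 = (q j).1) : i % n = j % n := by
  have hn : 0 < n := by have := h.three; omega
  apply h.xinj _ (Nat.mod_lt _ hn) _ (Nat.mod_lt _ hn)
  rw [h.q_mod, h.q_mod, hij]

theorem Pg.edge_ne (h : Pg n q) (i : ℕ) : (q i).1 ≠ (q (i + 1)).1 := by
  intro he
  have h1 := h.mod_eq_of_fst he
  have h3 := h.three
  have h2 : (i + 1) % n = (i % n + 1) % n := by rw [Nat.add_mod, Nat.mod_eq_of_lt (by omega : 1 < n)]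
  have hl := Nat.mod_lt i (by omega : 0 < n)
  rcases Nat.lt_or_ge (i % n + 1) n with h4 | h4
  · rw [Nat.mod_eq_of_lt h4] at h2; omega
  · have : i % n + 1 = n := by omega
    rw [this, Nat.mod_self] at h2; omega

theorem Pg.edge_lt_or (h : Pg n q) (i : ℕ) : (q i).1 < (q (i + 1)).1 ∨ (q (i + 1)).1 < (q i).1 :=
  lt_or_gt_of_ne (h.edge_ne i)

/-- a point of the closed abscissa range of an edge -/
theorem mem_edge {a b : ℝ × ℝ} (hab : a.1 ≠ b.1) {x : ℝ} (h1 : min a.1 b.1 ≤ x)
    (h2 : x ≤ max a.1 b.1) : (x, ht a b x) ∈ segment ℝ a b := by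
  apply mem_segment_ht hab
  rcases le_total a.1 b.1 with h | h
  · rw [min_eq_left h] at h1; rw [max_eq_right h] at h2
    exact Or.inl ⟨h1, h2⟩
  · rw [min_eq_right h] at h1; rw [max_eq_left h] at h2
    exact Or.inr ⟨h1, h2⟩

/-- two different edges have the same height at `x` only at a common end point -/
theorem ht_eq_imp (h : Pg n q) {i j : ℕ} (hi : i < n) (hj : j < n) (hij : i ≠ j) {x : ℝ}
    (hi1 : min (q i).1 (q (i + 1)).1 ≤ x) (hi2 : x ≤ max (q i).1 (q (i + 1)).1)
    (hj1 : min (q j).1 (q (j + 1)).1 ≤ x) (hj2 : x ≤ max (q j).1 (q (j + 1)).1)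
    (he : ht (q i) (q (i + 1)) x = ht (q j) (q (j + 1)) x) :
    ∃ k l, (k = i ∨ k = i + 1) ∧ (l = j ∨ l = j + 1) ∧ q k = q l ∧ (q k).1 = x := by
  have h1 := mem_edge (h.edge_ne i) hi1 hi2
  have h2 := mem_edge (h.edge_ne j) hj1 hj2
  rw [← he] at h2
  obtain ⟨h3, h4⟩ := h.simple i hi j hj hij _ h1 h2
  rcases h3 with h3 | h3 <;> rcases h4 with h4 | h4
  · exact ⟨i, j, Or.inl rfl, Or.inl rfl, h3.symm.trans h4, by rw [← h3]⟩
  · exact ⟨i, j + 1, Or.inl rfl, Or.inr rfl, h3.symm.trans h4, by rw [← h3]⟩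
  · exact ⟨i + 1, j, Or.inr rfl, Or.inl rfl, h3.symm.trans h4, by rw [← h3]⟩
  · exact ⟨i + 1, j + 1, Or.inr rfl, Or.inr rfl, h3.symm.trans h4, by rw [← h3]⟩

/-- the same for open ranges: an edge pair spanning two abscissas -/
theorem edge_sep_spans (h : Pg n q) {i j : ℕ} (hi : i < n) (hj : j < n) (hij : i ≠ j) {x1 x2 : ℝ}
    (hi1 : Spans (q i) (q (i + 1)) x1) (hi2 : Spans (q i) (q (i + 1)) x2)
    (hj1 : Spans (q j) (q (j + 1)) x1) (hj2 : Spans (q j) (q (j + 1)) x2) :
    ht (q i) (q (i + 1)) x1 < ht (q j) (q (j + 1)) x1 ↔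
      ht (q i) (q (i + 1)) x2 < ht (q j) (q (j + 1)) x2 := by
  wlog h12 : x1 ≤ x2 generalizing x1 x2
  · exact (this hi2 hi1 hj2 hj1 (le_of_not_ge h12)).symm
  have ki : ∀ k, (k = i ∨ k = i + 1) → (q k).1 < x1 ∨ x2 < (q k).1 := by
    intro k hk
    have e1 := hi1; have e2 := hi2
    unfold Spans at e1 e2
    rcases hk with rfl | rfl <;> rcases e1 with e1 | e1 <;> rcases e2 with e2 | e2
    all_goals first
      | exact Or.inl e1.1
      | exact Or.inr e2.2
      | (exfalso; linarith [e1.1, e1.2, e2.1, e2.2])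
  have hs := edge_sep h hi hj hij h12 (spans_iff_min_max.1 hi1).1.le (spans_iff_min_max.1 hi2).2.le
    (spans_iff_min_max.1 hj1).1.le (spans_iff_min_max.1 hj2).2.le (fun k l hk _ _ => ki k hk)
  rcases hs with ⟨h1, h2⟩ | ⟨h1, h2⟩
  · exact ⟨fun _ => h2, fun _ => h1⟩
  · exact ⟨fun h => absurd h (not_lt.2 h1.le), fun h => absurd h (not_lt.2 h2.le)⟩

/-- different edges spanning a common abscissa have different heights there -/
theorem ht_ne_of_spans (h : Pg n q) {i j : ℕ} (hi : i < n) (hj : j < n) (hij : i ≠ j) {x : ℝ}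
    (h1 : Spans (q i) (q (i + 1)) x) (h2 : Spans (q j) (q (j + 1)) x) :
    ht (q i) (q (i + 1)) x ≠ ht (q j) (q (j + 1)) x := by
  intro he
  obtain ⟨k, l, hk, hl, hkl, hx⟩ := ht_eq_imp h hi hj hij (spans_iff_min_max.1 h1).1.le
    (spans_iff_min_max.1 h1).2.le (spans_iff_min_max.1 h2).1.le (spans_iff_min_max.1 h2).2.le he
  have e1 := h1
  unfold Spans at e1
  rcases hk with rfl | rfl <;> rcases e1 with e1 | e1 <;> linarith [e1.1, e1.2]

/-- a vertex is never on an edge that spans its abscissa -/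
theorem ht_ne_vertex (h : Pg n q) {i k : ℕ} (hi : i < n) (hk : k < n)
    (h1 : Spans (q i) (q (i + 1)) (q k).1) : ht (q i) (q (i + 1)) (q k).1 ≠ (q k).2 := by
  intro he
  have hne := h1.ne
  rw [ht_eq_iff hne] at he
  have h3 := h.three
  have hk' : i ≠ k := by
    rintro rfl
    rcases h1 with h1 | h1 <;> exact lt_irrefl _ (by first | exact h1.1 | exact h1.2)
  rcases Nat.lt_or_ge (i + 1) n with hlt | hge
  · have hk2 : k ≠ i + 1 := by
      rintro rfl
      rcases h1 with h1 | h1 <;> exact lt_irrefl _ (by first | exact h1.1 | exact h1.2)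
    exact h.gp i hi k hk (i + 1) hlt hk' hk2 (by omega) he
  · have hin : i + 1 = n := by omega
    rw [hin, h.q_n] at he h1
    have hk2 : k ≠ 0 := by
      rintro rfl
      rcases h1 with h1 | h1 <;> exact lt_irrefl _ (by first | exact h1.1 | exact h1.2)
    exact h.gp i hi k hk 0 (by omega) hk' hk2 (by omega) he

/-! ### generic abscissas near a vertex -/

/-- to the right of an abscissa there is an interval without vertex abscissas -/
theorem exists_right (n : ℕ) (q : ℕ → ℝ × ℝ) (x : ℝ) :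
    ∃ ε : ℝ, 0 < ε ∧ ∀ i, i < n → (q i).1 ≤ x ∨ x + ε < (q i).1 := by
  induction n with
  | zero => exact ⟨1, one_pos, fun i hi => absurd hi (Nat.not_lt_zero i)⟩
  | succ n ih =>
    obtain ⟨ε, hε, h⟩ := ih
    rcases le_or_gt (q n).1 x with h1 | h1
    · refine ⟨ε, hε, fun i hi => ?_⟩
      rcases Nat.lt_succ_iff_lt_or_eq.1 hi with h2 | rfl
      · exact h i h2
      · exact Or.inl h1
    · refine ⟨min ε (((q n).1 - x) / 2), lt_min hε (by linarith), fun i hi => ?_⟩
      rcases Nat.lt_succ_iff_lt_or_eq.1 hi with h2 | rfl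
      · rcases h i h2 with h3 | h3
        · exact Or.inl h3
        · exact Or.inr (lt_of_le_of_lt (by linarith [min_le_left ε (((q n).1 - x) / 2)]) h3)
      · exact Or.inr (by linarith [min_le_right ε (((q i).1 - x) / 2)])

/-- to the left of an abscissa there is an interval without vertex abscissas -/
theorem exists_left (n : ℕ) (q : ℕ → ℝ × ℝ) (x : ℝ) :
    ∃ ε : ℝ, 0 < ε ∧ ∀ i, i < n → x ≤ (q i).1 ∨ (q i).1 < x - ε := by
  obtain ⟨ε, hε, h⟩ := exists_right n (fun i => -q i) (-x)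
  refine ⟨ε, hε, fun i hi => ?_⟩
  rcases h i hi with h1 | h1
  · left; simp only [Prod.fst_neg] at h1; linarith
  · right; simp only [Prod.fst_neg] at h1; linarith

/-- the leftmost vertex -/
theorem Pg.left_le (h : Pg n q) (i : ℕ) : (q 0).1 ≤ (q i).1 := by
  have h3 := h.three
  rw [← h.q_mod i]
  rcases Nat.eq_zero_or_pos (i % n) with h0 | h0
  · rw [h0]
  · exact (h.left _ h0 (Nat.mod_lt _ (by omega))).le

/-- no edge spans an abscissa to the left of the leftmost vertex -/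
theorem not_spans_left (h : Pg n q) (i : ℕ) {x : ℝ} (hx : x ≤ (q 0).1) :
    ¬ Spans (q i) (q (i + 1)) x := by
  have h1 := h.left_le i
  have h2 := h.left_le (i + 1)
  rintro (h3 | h3) <;> linarith [h3.1, h3.2]

/-- shifting the index set: a sum over a period does not depend on its start -/
theorem sum_shift {M : Type*} [AddCommMonoid M] (f : ℕ → M) (hf : ∀ k, f (k + n) = f k) :
    ∑ k ∈ range n, f (k + 1) = ∑ k ∈ range n, f k := by
  rcases Nat.eq_zero_or_pos n with h0 | h0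
  · subst h0; simp
  obtain ⟨m, rfl⟩ : ∃ m, n = m + 1 := ⟨n - 1, by omega⟩
  have h1 := hf 0
  rw [Nat.zero_add] at h1
  rw [Finset.sum_range_succ, Finset.sum_range_succ', h1]

end Pool.Agent.Lib.MP_9bb24e_co
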