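import Pool.Agent.Lib.MP_9bb24e_co.Geom
import Pool.Agent.Lib.MP_9bb24e_co.Coord
import Pool.Agent.Lib.MP_9bb24e_co.Check

set_option autoImplicit false
namespace Pool.Agent.Lib.MP_9bb24e_co
open Finset

variable {n : ℕ} {q : ℕ → ℝ × ℝ}



theorem code_le (j t : ℕ) : code j t ≤ 11 := by
  unfold code; split_ifs <;> omega

theorem code_block {j v : ℕ} (h1 : 1 ≤ v) (h2 : v ≤ 10) : code j (10 * j + v - 1) = v := by
  unfold code
  have : (10 * j + v - 1) / 10 = j := by omega
  rw [if_neg (by omega), if_pos this]; omega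

theorem code_eq_iff {j v t : ℕ} (h1 : 1 ≤ v) (h2 : v ≤ 10) :
    code j t = v ↔ t = 10 * j + v - 1 := by
  unfold code
  split_ifs <;> omega

theorem code_lt_iff {j v t : ℕ} (h1 : 1 ≤ v) (h2 : v ≤ 10) :
    code j t < v ↔ t < 10 * j + v - 1 := by
  unfold code
  split_ifs <;> omega

theorem lt_code_iff {j v t : ℕ} (h1 : 1 ≤ v) (h2 : v ≤ 10) :
    v < code j t ↔ 10 * j + v - 1 < t := by
  unfold code
  split_ifs <;> omega

/-- Data of a polygon on the points `pt 0, ..., pt (n - 1)`. -/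
structure PgPt (n : ℕ) (q : ℕ → ℝ × ℝ) (idx : ℕ → ℕ) : Prop where
  pg : Pg n q
  hq : ∀ k, q k = pt (idx k)
  per : ∀ k, idx (k + n) = idx k
  lt : ∀ k, idx k < n
  inj : ∀ i, i < n → ∀ j, j < n → idx i = idx j → i = j

variable {idx : ℕ → ℕ}

theorem PgPt.npos (H : PgPt n q idx) : 0 < n := by have := H.pg.three; omega

theorem PgPt.mod (H : PgPt n q idx) (k : ℕ) : idx (k % n) = idx k := by
  conv_rhs => rw [← Nat.mod_add_div k n]
  generalize k % n = r
  induction (k / n) with
  | zero => simp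
  | succ m ih => rw [Nat.mul_succ, ← Nat.add_assoc, H.per, ← ih]

theorem PgPt.qmod (H : PgPt n q idx) (k : ℕ) : q (k % n) = q k := by
  rw [H.hq, H.hq, H.mod]

theorem PgPt.eq_iff (H : PgPt n q idx) {i k : ℕ} : idx i = idx k ↔ i % n = k % n := by
  constructor
  · intro h
    exact H.inj _ (Nat.mod_lt _ H.npos) _ (Nat.mod_lt _ H.npos) (by rw [H.mod, H.mod, h])
  · intro h
    rw [← H.mod i, h, H.mod]

theorem PgPt.lt_iff (H : PgPt n q idx) {i k : ℕ} : (q i).1 < (q k).1 ↔ idx i < idx k := by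
  rw [H.hq, H.hq]
  exact pt_strictMono.lt_iff_lt

theorem PgPt.surj (H : PgPt n q idx) {t : ℕ} (ht : t < n) : ∃ k, k < n ∧ idx k = t := by
  have h1 : (range n).image idx ⊆ range n := by
    intro x hx
    rw [mem_image] at hx
    obtain ⟨k, _, rfl⟩ := hx
    exact mem_range.2 (H.lt k)
  have h2 : (range n).image idx = range n := by
    apply eq_of_subset_of_card_le h1
    rw [card_image_of_injOn]
    intro i hi j hj hij
    exact H.inj i (by simpa using hi) j (by simpa using hj) hij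
  have : t ∈ (range n).image idx := by rw [h2]; exact mem_range.2 ht
  rw [mem_image] at this
  obtain ⟨k, hk, rfl⟩ := this
  exact ⟨k, mem_range.1 hk, rfl⟩

open Classical in
/-- position on the polygon of the point with index `t` -/
noncomputable def pos (n : ℕ) (idx : ℕ → ℕ) (t : ℕ) : ℕ :=
  if h : ∃ k, k < n ∧ idx k = t then h.choose else 0

theorem PgPt.pos_lt (H : PgPt n q idx) {t : ℕ} (ht : t < n) : pos n idx t < n := by
  have h := H.surj ht
  unfold pos
  rw [dif_pos h]
  exact h.choose_spec.1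

theorem PgPt.idx_pos (H : PgPt n q idx) {t : ℕ} (ht : t < n) : idx (pos n idx t) = t := by
  have h := H.surj ht
  unfold pos
  rw [dif_pos h]
  exact h.choose_spec.2

theorem PgPt.pos_idx (H : PgPt n q idx) {k : ℕ} (hk : k < n) : pos n idx (idx k) = k :=
  H.inj _ (H.pos_lt (H.lt k)) _ hk (H.idx_pos (H.lt k))

/-- code of the predecessor -/
noncomputable def cA (n : ℕ) (idx : ℕ → ℕ) (j v : ℕ) : ℕ :=
  code j (idx (pos n idx (10 * j + v - 1) + (n - 1)))

/-- code of the successor -/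
noncomputable def cB (n : ℕ) (idx : ℕ → ℕ) (j v : ℕ) : ℕ :=
  code j (idx (pos n idx (10 * j + v - 1) + 1))


theorem code_mono (j : ℕ) : Monotone (code j) := by
  intro s t hst
  unfold code
  split_ifs <;> omega

theorem code_mid {j t : ℕ} (h1 : 0 < code j t) (h2 : code j t < 11) : t / 10 = j := by
  unfold code at h1 h2
  split_ifs at h1 h2 <;> omega

theorem ht_comm_aux {a b : ℝ × ℝ} (h : a.1 ≠ b.1) (x : ℝ) : ht a b x = ht b a x := by
  unfold ht
  have h1 : b.1 - a.1 ≠ 0 := sub_ne_zero.2 (Ne.symm h)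
  have h2 : a.1 - b.1 ≠ 0 := sub_ne_zero.2 h
  field_simp
  ring

theorem ht_at_left (a b : ℝ × ℝ) : ht a b a.1 = a.2 := by
  unfold ht; simp

theorem ht_at_right {a b : ℝ × ℝ} (h : a.1 ≠ b.1) : ht a b b.1 = b.2 := by
  rw [ht_comm_aux h]; exact ht_at_left b a

theorem pt_x_ne {a b : ℕ} (h : a ≠ b) : (pt a).1 ≠ (pt b).1 := fun h' =>
  h (pt_strictMono.injective h')

/-- Edge `i` of the polygon joins the points with indices `A` and `B`. -/
def EdgeOf (q : ℕ → ℝ × ℝ) (i A B : ℕ) : Prop :=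
  (q i = pt A ∧ q (i + 1) = pt B) ∨ (q i = pt B ∧ q (i + 1) = pt A)

theorem EdgeOf.ht_eq {i A B : ℕ} (he : EdgeOf q i A B) (hAB : A ≠ B) (x : ℝ) :
    ht (q i) (q (i + 1)) x = ht (pt A) (pt B) x := by
  rcases he with ⟨h1, h2⟩ | ⟨h1, h2⟩
  · rw [h1, h2]
  · rw [h1, h2]; exact ht_comm_aux (pt_x_ne (Ne.symm hAB)) x

theorem EdgeOf.min_eq {i A B : ℕ} (he : EdgeOf q i A B) (hAB : A < B) :
    min (q i).1 (q (i + 1)).1 = (pt A).1 := by
  have := pt_strictMono hAB
  simp only at this
  rcases he with ⟨h1, h2⟩ | ⟨h1, h2⟩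
  · rw [h1, h2]; exact min_eq_left this.le
  · rw [h1, h2]; exact min_eq_right this.le

theorem EdgeOf.max_eq {i A B : ℕ} (he : EdgeOf q i A B) (hAB : A < B) :
    max (q i).1 (q (i + 1)).1 = (pt B).1 := by
  have := pt_strictMono hAB
  simp only at this
  rcases he with ⟨h1, h2⟩ | ⟨h1, h2⟩
  · rw [h1, h2]; exact max_eq_right this.le
  · rw [h1, h2]; exact max_eq_left this.le

theorem pt_inj {a b : ℕ} (h : pt a = pt b) : a = b :=
  pt_strictMono.injective (by simp only [h])

theorem sep_idx (h : Pg n q) {i k A B C D : ℕ} (hi : i < n) (hk : k < n) (he : EdgeOf q i A B)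
    (hf : EdgeOf q k C D) (hAB : A < B) (hCD : C < D) (h1 : A ≠ C) (h2 : A ≠ D) (h3 : B ≠ C)
    (h4 : B ≠ D) {x1 x2 : ℝ} (h12 : x1 ≤ x2) (hA : (pt A).1 ≤ x1) (hB : x2 ≤ (pt B).1)
    (hC : (pt C).1 ≤ x1) (hD : x2 ≤ (pt D).1) :
    (ht (pt A) (pt B) x1 < ht (pt C) (pt D) x1 ∧ ht (pt A) (pt B) x2 < ht (pt C) (pt D) x2) ∨
    (ht (pt C) (pt D) x1 < ht (pt A) (pt B) x1 ∧ ht (pt C) (pt D) x2 < ht (pt A) (pt B) x2) := by
  have hik : i ≠ k := by
    rintro rfl
    rcases he with ⟨e1, e2⟩ | ⟨e1, e2⟩ <;> rcases hf with ⟨f1, f2⟩ | ⟨f1, f2⟩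
    · exact h1 (pt_inj (e1.symm.trans f1))
    · exact h2 (pt_inj (e1.symm.trans f1))
    · exact h3 (pt_inj (e1.symm.trans f1))
    · exact h4 (pt_inj (e1.symm.trans f1))
  have key := edge_sep h hi hk hik (x1 := x1) (x2 := x2) h12
    (by rw [he.min_eq hAB]; exact hA) (by rw [he.max_eq hAB]; exact hB)
    (by rw [hf.min_eq hCD]; exact hC) (by rw [hf.max_eq hCD]; exact hD)
    (by
      intro a b ha hb hab
      exfalso
      rcases he with ⟨e1, e2⟩ | ⟨e1, e2⟩ <;> rcases hf with ⟨f1, f2⟩ | ⟨f1, f2⟩ <;>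
        rcases ha with rfl | rfl <;> rcases hb with rfl | rfl <;>
        simp only [e1, e2, f1, f2] at hab <;> have := pt_inj hab <;> omega)
  rw [he.ht_eq hAB.ne, he.ht_eq hAB.ne, hf.ht_eq hCD.ne, hf.ht_eq hCD.ne] at key
  exact key

theorem above_pt {A C B : ℕ} (h1 : A < C) (h2 : C < B) :
    (pt C).2 < ht (pt A) (pt B) (pt C).1 ↔ 0 < cross (pt A) (pt C) (pt B) := by
  have e1 := pt_strictMono h1
  have e2 := pt_strictMono h2
  simp only at e1 e2
  rw [← above_iff_cross e1 e2]
  unfold Above Spans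
  constructor
  · intro h; exact ⟨Or.inl ⟨e1, e2⟩, h⟩
  · intro h; exact h.2

theorem interleaved (h : Pg n q) {i k A B C D : ℕ} (hi : i < n) (hk : k < n)
    (he : EdgeOf q i A B) (hf : EdgeOf q k C D) (h1 : A < C) (h2 : C < B) (h3 : B < D) :
    ¬ (0 < cross (pt A) (pt C) (pt B) ↔ 0 < cross (pt C) (pt B) (pt D)) := by
  have e1 := pt_strictMono h1
  have e2 := pt_strictMono h2
  have e3 := pt_strictMono h3
  simp only at e1 e2 e3
  have key := sep_idx h hi hk he hf (by omega) (by omega) (by omega) (by omega) (by omega)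
    (by omega) (x1 := (pt C).1) (x2 := (pt B).1) e2.le e1.le le_rfl le_rfl e3.le
  rw [ht_at_left, ht_at_right (pt_x_ne (by omega))] at key
  rw [← above_pt h1 h2, ← above_pt h2 h3]
  rcases key with ⟨k1, k2⟩ | ⟨k1, k2⟩
  · intro hh; exact absurd (hh.2 k2) (not_lt.2 k1.le)
  · intro hh; exact absurd (hh.1 k1) (not_lt.2 k2.le)

theorem nested (h : Pg n q) {i k A B C D : ℕ} (hi : i < n) (hk : k < n)
    (he : EdgeOf q i A B) (hf : EdgeOf q k C D) (h1 : A < C) (h2 : C < D) (h3 : D < B) :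
    (0 < cross (pt A) (pt C) (pt B) ↔ 0 < cross (pt A) (pt D) (pt B)) := by
  have e1 := pt_strictMono h1
  have e2 := pt_strictMono h2
  have e3 := pt_strictMono h3
  simp only at e1 e2 e3
  have key := sep_idx h hi hk he hf (by omega) (by omega) (by omega) (by omega) (by omega)
    (by omega) (x1 := (pt C).1) (x2 := (pt D).1) e2.le e1.le e3.le le_rfl le_rfl
  rw [ht_at_left, ht_at_right (pt_x_ne (by omega))] at key
  rw [← above_pt h1 (by omega), ← above_pt (by omega) h3]
  rcases key with ⟨k1, k2⟩ | ⟨k1, k2⟩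
  · exact ⟨fun hh => absurd hh (not_lt.2 k1.le), fun hh => absurd hh (not_lt.2 k2.le)⟩
  · exact ⟨fun _ => k2, fun _ => k1⟩

theorem ncross_aux (h : Pg n q) {j i k A B C D : ℕ} (hi : i < n) (hk : k < n)
    (he : EdgeOf q i A B) (hf : EdgeOf q k C D) :
    ¬ CrossC (code j A) (code j B) (code j C) (code j D) := by
  have hm : ∀ {s t : ℕ}, code j s < code j t → s < t := fun {s t} hst =>
    (code_mono j).reflect_lt hst
  have hB := code_le j B
  have hD := code_le j D
  rintro (⟨h1, h2, h3, h4⟩ | ⟨h1, h2, h3, h4⟩ | ⟨h1, h2, h3, h4⟩ | ⟨h1, h2, h3, h4⟩)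
  · apply interleaved h hi hk he hf (hm h1) (hm h2) (hm h3)
    rw [pt_cross (hm h1) (hm h2) (code_mid (j := j) (by omega) (by omega)),
      pt_cross (hm h2) (hm h3) (code_mid (j := j) (by omega) (by omega)), h4]
  · apply interleaved h hk hi hf he (hm h1) (hm h2) (hm h3)
    rw [pt_cross (hm h1) (hm h2) (code_mid (j := j) (by omega) (by omega)),
      pt_cross (hm h2) (hm h3) (code_mid (j := j) (by omega) (by omega)), h4]
  · have := nested h hi hk he hf (hm h1) (hm h2) (hm h3)
    rw [pt_cross (hm h1) ((hm h2).trans (hm h3)) (code_mid (j := j) (by omega) (by omega)),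
      pt_cross ((hm h1).trans (hm h2)) (hm h3) (code_mid (j := j) (by omega) (by omega))] at this
    exact h4 (Bool.eq_iff_iff.2 this)
  · have := nested h hk hi hf he (hm h1) (hm h2) (hm h3)
    rw [pt_cross (hm h1) ((hm h2).trans (hm h3)) (code_mid (j := j) (by omega) (by omega)),
      pt_cross ((hm h1).trans (hm h2)) (hm h3) (code_mid (j := j) (by omega) (by omega))] at this
    exact h4 (Bool.eq_iff_iff.2 this)

theorem PgPt.q_succ_mod (H : PgPt n q idx) (m : ℕ) : q (m % n + 1) = q (m + 1) := by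
  rw [← H.qmod (m % n + 1), ← H.qmod (m + 1), Nat.mod_add_mod]

theorem edge_of_code (H : PgPt n q idx) {j v s : ℕ} (hj : 10 * (j + 1) ≤ n) (h1 : 1 ≤ v)
    (h2 : v ≤ 10) (hs : s = cA n idx j v ∨ s = cB n idx j v) :
    ∃ i A B, i < n ∧ EdgeOf q i A B ∧ code j A = min v s ∧ code j B = max v s := by
  have hV : 10 * j + v - 1 < n := by omega
  have hp := H.pos_lt hV
  have hi := H.idx_pos hV
  have hn := H.pg.three
  have main : ∀ i S, i < n → EdgeOf q i S (10 * j + v - 1) → code j S = s →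
      ∃ i A B, i < n ∧ EdgeOf q i A B ∧ code j A = min v s ∧ code j B = max v s := by
    intro i S hi' he hS
    have hcv := code_block (j := j) h1 h2
    rcases le_total S (10 * j + v - 1) with hle | hle
    · refine ⟨i, S, 10 * j + v - 1, hi', he, ?_, ?_⟩
      · have := code_mono j hle
        rw [hcv, hS] at this
        rw [hS, min_eq_right this]
      · have := code_mono j hle
        rw [hcv, hS] at this
        rw [hcv, max_eq_left this]
    · refine ⟨i, 10 * j + v - 1, S, hi', he.symm, ?_, ?_⟩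
      · have := code_mono j hle
        rw [hcv, hS] at this
        rw [hcv, min_eq_left this]
      · have := code_mono j hle
        rw [hcv, hS] at this
        rw [hS, max_eq_right this]
  rcases hs with hs | hs
  · refine main ((pos n idx (10 * j + v - 1) + (n - 1)) % n)
      (idx (pos n idx (10 * j + v - 1) + (n - 1))) (Nat.mod_lt _ (by omega)) ?_ ?_
    · left
      refine ⟨?_, ?_⟩
      · rw [H.qmod, H.hq]
      · rw [H.q_succ_mod]
        have : pos n idx (10 * j + v - 1) + (n - 1) + 1 = pos n idx (10 * j + v - 1) + n := by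
          omega
        rw [this, H.pg.per, H.hq, hi]
    · rw [hs]; rfl
  · refine main (pos n idx (10 * j + v - 1)) (idx (pos n idx (10 * j + v - 1) + 1)) hp ?_ ?_
    · right
      exact ⟨by rw [H.hq, hi], by rw [H.hq]⟩
    · rw [hs]; rfl

theorem valid_cfg (H : PgPt n q idx) {j : ℕ} (hj : 10 * (j + 1) ≤ n) :
    ValidCfg (cA n idx j) (cB n idx j) := by
  have h3 := H.pg.three
  have hlt : ∀ v, 1 ≤ v → v ≤ 10 → 10 * j + v - 1 < n := fun v h1 h2 => by omega
  have key : ∀ v w s, 1 ≤ v → v ≤ 10 → 1 ≤ w → w ≤ 10 →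
      (code j (idx (pos n idx (10 * j + v - 1) + s)) = w ↔
        (pos n idx (10 * j + v - 1) + s) % n = pos n idx (10 * j + w - 1)) := by
    intro v w s hv1 hv2 hw1 hw2
    rw [code_eq_iff hw1 hw2, ← H.idx_pos (hlt w hw1 hw2), H.eq_iff,
      H.idx_pos (hlt w hw1 hw2), Nat.mod_eq_of_lt (H.pos_lt (hlt w hw1 hw2))]
  have hmod : ∀ m, m < n → (m + (n - 1)) % n = if m = 0 then n - 1 else m - 1 := by
    intro m hm
    split_ifs with h
    · subst h; rw [Nat.zero_add]; exact Nat.mod_eq_of_lt (by omega)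
    · have : m + (n - 1) = (m - 1) + n := by omega
      rw [this, Nat.add_mod_right]; exact Nat.mod_eq_of_lt (by omega)
  have hmod1 : ∀ m, m < n → (m + 1) % n = if m + 1 = n then 0 else m + 1 := by
    intro m hm
    split_ifs with h
    · rw [h]; exact Nat.mod_self n
    · exact Nat.mod_eq_of_lt (by omega)
  refine ⟨fun v _ _ => code_le _ _, fun v _ _ => code_le _ _, ?_, ?_, ?_, ?_, ?_⟩
  · intro v h1 h2 h
    have hp := H.pos_lt (hlt v h1 h2)
    unfold cA at h
    rw [key v v (n - 1) h1 h2 h1 h2, hmod _ hp] at h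
    split_ifs at h <;> omega
  · intro v h1 h2 h
    have hp := H.pos_lt (hlt v h1 h2)
    unfold cB at h
    rw [key v v 1 h1 h2 h1 h2, hmod1 _ hp] at h
    split_ifs at h <;> omega
  · intro v h1 h2 h
    have hp := H.pos_lt (hlt v h1 h2)
    by_contra hcon
    push Not at hcon
    have hle : cA n idx j v ≤ 11 := code_le _ _
    have hw1 : 1 ≤ cA n idx j v := by omega
    have hw2 : cA n idx j v ≤ 10 := by omega
    have e1 := (key v (cA n idx j v) (n - 1) h1 h2 hw1 hw2).1 rfl
    have e2 := (key v (cA n idx j v) 1 h1 h2 hw1 hw2).1 h.symm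
    rw [hmod _ hp] at e1
    rw [hmod1 _ hp] at e2
    split_ifs at e1 e2 <;> omega
  · intro v w hv1 hv2 hw1 hw2
    have hp := H.pos_lt (hlt v hv1 hv2)
    have hr := H.pos_lt (hlt w hw1 hw2)
    unfold cA cB
    rw [key v w (n - 1) hv1 hv2 hw1 hw2, key w v 1 hw1 hw2 hv1 hv2, hmod _ hp, hmod1 _ hr]
    split_ifs <;> omega
  · intro v w s t hv1 hv2 hw1 hw2 hs ht'
    obtain ⟨i, A, B, hi, he, eA, eB⟩ := edge_of_code H hj hv1 hv2 hs
    obtain ⟨k, C, D, hk, hf, eC, eD⟩ := edge_of_code H hj hw1 hw2 ht'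
    rw [← eA, ← eB, ← eC, ← eD]
    exact ncross_aux H.pg hi hk he hf


theorem sum_shiftL (F : ℕ → ℕ) {m : ℕ} (hF : F m = F 0) :
    ∑ i ∈ range m, F (i + 1) = ∑ i ∈ range m, F i := by
  have h1 := Finset.sum_range_succ' F m
  have h2 := Finset.sum_range_succ F m
  omega

open Classical in
/-- indicator of: the segment between the points with indices `L < V < R` passes above `V` -/
noncomputable def Gi (V L R : ℕ) : ℕ :=
  if L < V ∧ V < R ∧ 0 < cross (pt L) (pt V) (pt R) then 1 else 0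

theorem above_iff_idx (H : PgPt n q idx) {i V k : ℕ} (hk : idx k = V) :
    Above (q i) (q (i + 1)) (q k) ↔
      ((idx i < V ∧ V < idx (i + 1) ∧ 0 < cross (pt (idx i)) (pt V) (pt (idx (i + 1)))) ∨
       (idx (i + 1) < V ∧ V < idx i ∧ 0 < cross (pt (idx (i + 1))) (pt V) (pt (idx i)))) := by
  rw [H.hq i, H.hq (i + 1), H.hq k, hk]
  constructor
  · intro h
    rcases h.1 with ⟨h1, h2⟩ | ⟨h1, h2⟩
    · left
      have e1 : idx i < V := pt_strictMono.lt_iff_lt.1 h1
      have e2 : V < idx (i + 1) := pt_strictMono.lt_iff_lt.1 h2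
      exact ⟨e1, e2, (above_iff_cross h1 h2).1 h⟩
    · right
      have e1 : idx (i + 1) < V := pt_strictMono.lt_iff_lt.1 h1
      have e2 : V < idx i := pt_strictMono.lt_iff_lt.1 h2
      exact ⟨e1, e2, (above_iff_cross h1 h2).1 (above_symm.1 h)⟩
  · rintro (⟨h1, h2, h3⟩ | ⟨h1, h2, h3⟩)
    · exact (above_iff_cross (pt_strictMono h1) (pt_strictMono h2)).2 h3
    · exact above_symm.1 ((above_iff_cross (pt_strictMono h1) (pt_strictMono h2)).2 h3)

theorem aboveCount_eq_sum (H : PgPt n q idx) {V k : ℕ} (hk : idx k = V) :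
    aboveCount n q k =
      ∑ i ∈ range n, (Gi V (idx (i + (n - 1))) (idx i) + Gi V (idx (i + 1)) (idx i)) := by
  classical
  have h3 := H.pg.three
  unfold aboveCount
  rw [Finset.card_filter, Finset.sum_add_distrib]
  have hs : ∑ i ∈ range n, Gi V (idx (i + (n - 1))) (idx i) =
      ∑ i ∈ range n, Gi V (idx i) (idx (i + 1)) := by
    rw [← sum_shiftL (fun i => Gi V (idx (i + (n - 1))) (idx i))]
    · apply Finset.sum_congr rfl
      intro i _
      have : i + 1 + (n - 1) = i + n := by omega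
      simp only [this, H.per]
    · have e1 : n + (n - 1) = (n - 1) + n := by omega
      have e2 : idx n = idx 0 := by have := H.per 0; rwa [Nat.zero_add] at this
      simp only [e1, H.per, e2, Nat.zero_add]
  rw [hs, ← Finset.sum_add_distrib]
  apply Finset.sum_congr rfl
  intro i _
  unfold Gi
  by_cases h1 : (idx i < V ∧ V < idx (i + 1) ∧ 0 < cross (pt (idx i)) (pt V) (pt (idx (i + 1))))
  · have h2 : ¬ (idx (i + 1) < V ∧ V < idx i ∧
        0 < cross (pt (idx (i + 1))) (pt V) (pt (idx i))) := by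
      rintro ⟨a, b, _⟩; omega
    rw [if_pos ((above_iff_idx H hk).2 (Or.inl h1)), if_pos h1, if_neg h2]
  · by_cases h2 : (idx (i + 1) < V ∧ V < idx i ∧
        0 < cross (pt (idx (i + 1))) (pt V) (pt (idx i)))
    · rw [if_pos ((above_iff_idx H hk).2 (Or.inr h2)), if_neg h1, if_pos h2]
    · rw [if_neg (fun h => ((above_iff_idx H hk).1 h).elim h1 h2), if_neg h1, if_neg h2]

theorem Gi_zero {j V L R : ℕ} (hV : V / 10 = j) (hR : ¬ (V < R ∧ R / 10 = j)) : Gi V L R = 0 := by
  unfold Gi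
  rw [if_neg]
  rintro ⟨h1, h2, h3⟩
  apply hR
  refine ⟨h2, ?_⟩
  by_contra hne
  rw [pt_cross h1 h2 hV] at h3
  have : code j R = 11 := by
    unfold code
    have : j ≤ R / 10 := by omega
    rw [if_neg (by omega), if_neg hne]
  rw [this] at h3
  simp [chi] at h3

theorem Gi_code {j v w L : ℕ} (h1 : 1 ≤ v) (hvw : v < w) (h2 : w ≤ 10) :
    Gi (10 * j + v - 1) L (10 * j + w - 1) =
      if code j L < v ∧ chi (code j L) v w = true then 1 else 0 := by
  unfold Gi
  have e1 := code_lt_iff (j := j) (v := v) (t := L) h1 (by omega)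
  have cv := code_block (j := j) (v := v) h1 (by omega)
  have cw := code_block (j := j) (v := w) (by omega) h2
  by_cases hL : code j L < v
  · have hL' := e1.1 hL
    have hc := pt_cross (j := j) (a := L) (b := 10 * j + v - 1) (c := 10 * j + w - 1) hL'
      (by omega) (by omega)
    rw [cv, cw] at hc
    by_cases hchi : chi (code j L) v w = true
    · rw [if_pos ⟨hL', by omega, hc.2 hchi⟩, if_pos ⟨hL, hchi⟩]
    · rw [if_neg (fun h => hchi (hc.1 h.2.2)), if_neg (fun h => hchi h.2)]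
  · rw [if_neg (fun h => hL (e1.2 h.1)), if_neg (fun h => hL h.1)]

theorem aboveCount_eq_parC (H : PgPt n q idx) {j v : ℕ} (hj : 10 * (j + 1) ≤ n) (h1 : 1 ≤ v)
    (h2 : v ≤ 10) :
    aboveCount n q (pos n idx (10 * j + v - 1)) = parC (cA n idx j) (cB n idx j) v := by
  classical
  have hV : 10 * j + v - 1 < n := by omega
  rw [aboveCount_eq_sum H (H.idx_pos hV)]
  unfold parC
  have hsub : (Ioc v 10).image (fun w => pos n idx (10 * j + w - 1)) ⊆ range n := by
    intro x hx
    rw [mem_image] at hx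
    obtain ⟨w, hw, rfl⟩ := hx
    rw [mem_Ioc] at hw
    exact mem_range.2 (H.pos_lt (by omega))
  rw [← Finset.sum_subset hsub]
  · rw [Finset.sum_image]
    · apply Finset.sum_congr rfl
      intro w hw
      rw [mem_Ioc] at hw
      have hW : 10 * j + w - 1 < n := by omega
      rw [H.idx_pos hW, Gi_code h1 hw.1 hw.2, Gi_code h1 hw.1 hw.2]
      rfl
    · intro a ha b hb hab
      simp only [coe_Ioc, Set.mem_Ioc] at ha hb
      have := congrArg idx hab
      simp only at this
      rw [H.idx_pos (by omega), H.idx_pos (by omega)] at this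
      omega
  · intro k hk hkn
    have hk' := mem_range.1 hk
    have hne : ¬ (10 * j + v - 1 < idx k ∧ idx k / 10 = j) := by
      rintro ⟨a, b⟩
      apply hkn
      rw [mem_image]
      refine ⟨idx k - 10 * j + 1, ?_, ?_⟩
      · rw [mem_Ioc]; omega
      · have : 10 * j + (idx k - 10 * j + 1) - 1 = idx k := by omega
        rw [this]; exact H.pos_idx hk'
    have hv10 : (10 * j + v - 1) / 10 = j := by omega
    simp [Gi_zero (j := j) hv10 hne]

theorem ext_iff_code (H : PgPt n q idx) {j v : ℕ} (hj : 10 * (j + 1) ≤ n) (h1 : 1 ≤ v)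
    (h2 : v ≤ 10) :
    Ext n q (pos n idx (10 * j + v - 1)) ↔
      ¬ ((cA n idx j v < v ∧ v < cB n idx j v) ∨ (cB n idx j v < v ∧ v < cA n idx j v)) := by
  have hV : 10 * j + v - 1 < n := by omega
  have hc := valid_cfg H hj
  have a1 := hc.ane v h1 h2
  have b1 := hc.bne v h1 h2
  have ea := code_lt_iff (j := j) (v := v)
    (t := idx (pos n idx (10 * j + v - 1) + (n - 1))) h1 h2
  have eb := code_lt_iff (j := j) (v := v) (t := idx (pos n idx (10 * j + v - 1) + 1)) h1 h2
  have fa := lt_code_iff (j := j) (v := v)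
    (t := idx (pos n idx (10 * j + v - 1) + (n - 1))) h1 h2
  have fb := lt_code_iff (j := j) (v := v) (t := idx (pos n idx (10 * j + v - 1) + 1)) h1 h2
  unfold Ext
  rw [H.lt_iff, H.lt_iff, H.lt_iff, H.lt_iff, H.idx_pos hV]
  change (_ ∧ _ ∨ _ ∧ _) ↔ _
  rw [← ea, ← eb, ← fa, ← fb]
  change ((v < cA n idx j v ∧ v < cB n idx j v) ∨ (cA n idx j v < v ∧ cB n idx j v < v)) ↔ _
  omega

theorem cup_iff_code (H : PgPt n q idx) {j v : ℕ} (hj : 10 * (j + 1) ≤ n) (h1 : 1 ≤ v)
    (h2 : v ≤ 10) (ht : (cA n idx j v < v ∧ v < cB n idx j v) ∨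
      (cB n idx j v < v ∧ v < cA n idx j v)) :
    Cup n q (pos n idx (10 * j + v - 1)) ↔
      chi (min (cA n idx j v) (cB n idx j v)) v (max (cA n idx j v) (cB n idx j v)) = true := by
  have hV : 10 * j + v - 1 < n := by omega
  have ea := code_lt_iff (j := j) (v := v)
    (t := idx (pos n idx (10 * j + v - 1) + (n - 1))) h1 h2
  have eb := code_lt_iff (j := j) (v := v) (t := idx (pos n idx (10 * j + v - 1) + 1)) h1 h2
  have fa := lt_code_iff (j := j) (v := v)
    (t := idx (pos n idx (10 * j + v - 1) + (n - 1))) h1 h2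
  have fb := lt_code_iff (j := j) (v := v) (t := idx (pos n idx (10 * j + v - 1) + 1)) h1 h2
  have cv := code_block (j := j) (v := v) h1 h2
  unfold Cup
  rw [H.lt_iff, H.lt_iff, H.hq (pos n idx (10 * j + v - 1)), H.idx_pos hV,
    H.hq (pos n idx (10 * j + v - 1) + (n - 1)), H.hq (pos n idx (10 * j + v - 1) + 1)]
  rcases ht with ⟨t1, t2⟩ | ⟨t1, t2⟩
  · have u1 := ea.1 t1
    have u2 := fb.1 t2
    have hc := pt_cross (j := j) u1 u2 (by omega)
    rw [cv] at hc
    rw [min_eq_left (by omega), max_eq_right (by omega)]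
    change _ ↔ chi (code j _) v (code j _) = true
    rw [← hc]
    constructor
    · rintro (⟨_, h⟩ | ⟨h, _⟩)
      · exact h
      · omega
    · intro h; exact Or.inl ⟨by omega, h⟩
  · have u1 := eb.1 t1
    have u2 := fa.1 t2
    have hc := pt_cross (j := j) u1 u2 (by omega)
    rw [cv] at hc
    rw [min_eq_right (by omega), max_eq_left (by omega)]
    change _ ↔ chi (code j _) v (code j _) = true
    rw [← hc]
    constructor
    · rintro (⟨h, _⟩ | ⟨_, h⟩)
      · omega
      · exact h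
    · intro h; exact Or.inr ⟨by omega, h⟩

theorem wt_eq (H : PgPt n q idx) {j v : ℕ} (hj : 10 * (j + 1) ≤ n) (h1 : 1 ≤ v)
    (h2 : v ≤ 10) :
    wtG n q (pos n idx (10 * j + v - 1)) = wtC (cA n idx j) (cB n idx j) v := by
  unfold wtG wtC
  rw [aboveCount_eq_parC H hj h1 h2]
  by_cases ht : (cA n idx j v < v ∧ v < cB n idx j v) ∨ (cB n idx j v < v ∧ v < cA n idx j v)
  · rw [if_neg (fun h => (ext_iff_code H hj h1 h2).1 h ht), if_pos ht]
    have hc := cup_iff_code H hj h1 h2 ht
    by_cases hcc : Cup n q (pos n idx (10 * j + v - 1)) ↔ Odd (parC (cA n idx j) (cB n idx j) v)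
    · rw [if_pos hcc, if_pos (by rw [← hc]; exact hcc)]
    · rw [if_neg hcc, if_neg (by rw [← hc]; exact hcc)]
  · rw [if_pos ((ext_iff_code H hj h1 h2).2 ht), if_neg ht]

open Classical in
theorem block_weight (h : Pg n q) (idx : ℕ → ℕ) (hq : ∀ k, q k = pt (idx k))
    (hper : ∀ k, idx (k + n) = idx k) (hlt : ∀ k, idx k < n)
    (hinj : ∀ i, i < n → ∀ j, j < n → idx i = idx j → i = j)
    {j : ℕ} (hj : 10 * (j + 1) ≤ n) :
    8 ≤ ∑ k ∈ (range n).filter (fun k => idx k / 10 = j), wtG n q k := by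
  have H : PgPt n q idx := ⟨h, hq, hper, hlt, hinj⟩
  have key := gadget_check (valid_cfg H hj)
  have himg : (range n).filter (fun k => idx k / 10 = j) =
      (Icc 1 10).image (fun v => pos n idx (10 * j + v - 1)) := by
    ext k
    rw [mem_filter, mem_range, mem_image]
    constructor
    · rintro ⟨hk, hkj⟩
      refine ⟨idx k - 10 * j + 1, ?_, ?_⟩
      · rw [mem_Icc]; omega
      · have : 10 * j + (idx k - 10 * j + 1) - 1 = idx k := by omega
        rw [this]; exact H.pos_idx hk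
    · rintro ⟨v, hv, rfl⟩
      rw [mem_Icc] at hv
      refine ⟨H.pos_lt (by omega), ?_⟩
      rw [H.idx_pos (by omega)]; omega
  rw [himg, Finset.sum_image]
  · refine key.trans (le_of_eq ?_)
    apply Finset.sum_congr rfl
    intro v hv
    rw [mem_Icc] at hv
    exact (wt_eq H hj hv.1 hv.2).symm
  · intro a ha b hb hab
    simp only [coe_Icc, Set.mem_Icc] at ha hb
    have := congrArg idx hab
    simp only at this
    rw [H.idx_pos (by omega), H.idx_pos (by omega)] at this
    omega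

end Pool.Agent.Lib.MP_9bb24e_co
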