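import Pool.Agent.Lib.MP_9bb24e_co.Turn

/-!
The number of edges above an edge: its parity is constant along the edge, and its value near a
vertex.
-/

set_option autoImplicit false
set_option linter.unusedSimpArgs false

namespace Pool.Agent.Lib.MP_9bb24e_co

open Finset

variable {n : ℕ} {q : ℕ → ℝ × ℝ}

open Classical in
theorem Pg.aboveAt_eq (P : Pg n q) {i : ℕ} (hi : i < n) {x : ℝ}
    (hs : Spans (q i) (q (i + 1)) x) :
    aboveAt n q i x =
      ∑ j ∈ range n, (if EOver q i j ∧ elo q j < x ∧ x < ehi q j then 1 else 0) := by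
  unfold aboveAt
  rw [card_filter]
  refine sum_congr rfl fun j hj => ?_
  rw [mem_range] at hj
  have hs' := spans_iff_lo_hi.mp hs
  have : (Spans (q j) (q (j + 1)) x ∧ ht (q i) (q (i + 1)) x < ht (q j) (q (j + 1)) x) ↔
      (EOver q i j ∧ elo q j < x ∧ x < ehi q j) := by
    rw [spans_iff_lo_hi]
    constructor
    · rintro ⟨h1, h2⟩
      exact ⟨(P.over_iff hi hj hs'.1.le hs'.2.le h1.1.le h1.2.le (Or.inl hs')).mp h2, h1⟩
    · rintro ⟨h1, h2⟩
      exact ⟨h2, (P.over_iff hi hj hs'.1.le hs'.2.le h2.1.le h2.2.le (Or.inl hs')).mpr h1⟩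
  by_cases h : EOver q i j ∧ elo q j < x ∧ x < ehi q j
  · rw [if_pos h, if_pos (this.mpr h)]
  · rw [if_neg h, if_neg (fun h' => h (this.mp h'))]

open Classical in
/-- the parity of the number of edges above an edge does not depend on the abscissa -/
theorem Pg.aboveAt_parity (P : Pg n q) {i : ℕ} (hi : i < n) {x y : ℝ} (hxy : x ≤ y)
    (hx : ∀ k, k < n → (q k).1 ≠ x) (hy : ∀ k, k < n → (q k).1 ≠ y)
    (hs : Spans (q i) (q (i + 1)) x) (hs' : Spans (q i) (q (i + 1)) y) :
    Even (aboveAt n q i x + aboveAt n q i y) := by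
  have hn := P.three
  have hx' : ∀ k, k ≤ n → (q k).1 ≠ x := by
    intro k hk
    rcases Nat.lt_or_ge k n with h | h
    · exact hx k h
    · rw [le_antisymm hk h, P.q_n]
      exact hx 0 (by omega)
  have hy' : ∀ k, k ≤ n → (q k).1 ≠ y := by
    intro k hk
    rcases Nat.lt_or_ge k n with h | h
    · exact hy k h
    · rw [le_antisymm hk h, P.q_n]
      exact hy 0 (by omega)
  rw [P.aboveAt_eq hi hs, P.aboveAt_eq hi hs']
  have r1 := spans_iff_lo_hi.mp hs
  have r2 := spans_iff_lo_hi.mp hs'
  set s : ℕ → ℕ := fun k =>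
    if x < (q k).1 ∧ (q k).1 < y ∧ eht q i (q k).1 < (q k).2 then 1 else 0 with hs_def
  set c : ℕ → ℕ := fun j => (if EOver q i j ∧ elo q j < x ∧ x < ehi q j then 1 else 0) +
    (if EOver q i j ∧ elo q j < y ∧ y < ehi q j then 1 else 0) with hc_def
  have hcomb : ∀ j, j < n → Even (c j + (s j + s (j + 1))) := by
    intro j hj
    have hsk : ∀ k, (k = j ∨ k = j + 1) →
        (¬ EOver q i j → s k = 0) ∧
        (EOver q i j → s k = if x < (q k).1 ∧ (q k).1 < y then 1 else 0) := by
      intro k hk
      have hek : eht q j (q k).1 = (q k).2 := by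
        unfold eht
        rcases hk with rfl | rfl
        · exact ht_left _ _
        · exact ht_right (P.ne_succ hj)
      have a1 : elo q j ≤ (q k).1 := by
        rcases hk with rfl | rfl
        · exact elo_le_left _
        · exact elo_le_right _
      have a2 : (q k).1 ≤ ehi q j := by
        rcases hk with rfl | rfl
        · exact le_ehi_left _
        · exact le_ehi_right _
      constructor
      · intro hno
        rw [hs_def]
        refine if_neg ?_
        rintro ⟨h1, h2, h3⟩
        by_cases hij : i = j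
        · subst hij
          rcases end_not_inside (q := q) hk with h4 | h4 <;> linarith [r1.1, r2.2]
        · have h5 : elo q i < (q k).1 ∧ (q k).1 < ehi q i := ⟨r1.1.trans h1, h2.trans r2.2⟩
          rw [← hek] at h3
          exact hno ((P.over_iff hi hj h5.1.le h5.2.le a1 a2 (Or.inl h5)).mp h3)
      · intro hov
        rw [hs_def]
        refine if_congr ?_ rfl rfl
        constructor
        · exact fun h => ⟨h.1, h.2.1⟩
        · rintro ⟨h1, h2⟩
          refine ⟨h1, h2, ?_⟩
          have h5 : elo q i < (q k).1 ∧ (q k).1 < ehi q i := ⟨r1.1.trans h1, h2.trans r2.2⟩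
          rw [← hek]
          exact P.over_lt hi hj hov h5.1.le h5.2.le a1 a2 (Or.inl h5)
    by_cases hov : EOver q i j
    · rw [(hsk j (Or.inl rfl)).2 hov, (hsk (j + 1) (Or.inr rfl)).2 hov, hc_def]
      simp only [hov, true_and]
      have n1 := hx' j (by omega)
      have n2 := hx' (j + 1) (by omega)
      have n3 := hy' j (by omega)
      have n4 := hy' (j + 1) (by omega)
      unfold elo ehi
      rcases le_total (q j).1 (q (j + 1)).1 with h | h
      · rw [min_eq_left h, max_eq_right h]
        rcases lt_or_gt_of_ne n1 with m1 | m1 <;> rcases lt_or_gt_of_ne n2 with m2 | m2 <;>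
          rcases lt_or_gt_of_ne n3 with m3 | m3 <;> rcases lt_or_gt_of_ne n4 with m4 | m4 <;>
          first
            | (exfalso; linarith)
            | (simp only [m1, m2, m3, m4, not_lt_of_gt m1, not_lt_of_gt m2, not_lt_of_gt m3,
                not_lt_of_gt m4, and_true, true_and, false_and, and_false, if_true, if_false]
               decide)
      · rw [min_eq_right h, max_eq_left h]
        rcases lt_or_gt_of_ne n1 with m1 | m1 <;> rcases lt_or_gt_of_ne n2 with m2 | m2 <;>
          rcases lt_or_gt_of_ne n3 with m3 | m3 <;> rcases lt_or_gt_of_ne n4 with m4 | m4 <;>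
          first
            | (exfalso; linarith)
            | (simp only [m1, m2, m3, m4, not_lt_of_gt m1, not_lt_of_gt m2, not_lt_of_gt m3,
                not_lt_of_gt m4, and_true, true_and, false_and, and_false, if_true, if_false]
               decide)
    · rw [(hsk j (Or.inl rfl)).1 hov, (hsk (j + 1) (Or.inr rfl)).1 hov, hc_def]
      simp only [hov, false_and, if_false]
      decide
  have hsum : Even (∑ j ∈ range n, (c j + (s j + s (j + 1)))) := by
    rw [even_iff_two_dvd]
    exact dvd_sum fun j hj => even_iff_two_dvd.mp (hcomb j (mem_range.mp hj))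
  rw [sum_add_distrib] at hsum
  have hss : ∑ j ∈ range n, (s j + s (j + 1)) = 2 * ∑ j ∈ range n, s j := by
    rw [sum_add_distrib]
    have h1 := sum_range_succ s n
    have h2 := sum_range_succ' s n
    have h3 : s n = s 0 := by
      simp only [hs_def, P.q_n]
    omega
  rw [hss, Nat.even_add] at hsum
  rw [← sum_add_distrib]
  exact hsum.mpr (even_two_mul _)


theorem near_right (q : ℕ → ℝ × ℝ) (N : ℕ) {a b : ℝ} (hab : a < b) :
    ∃ x, a < x ∧ x < b ∧ ∀ l, l < N → ¬ (a < (q l).1 ∧ (q l).1 ≤ x) := by
  induction N with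
  | zero =>
    obtain ⟨x, h1, h2⟩ := exists_between hab
    exact ⟨x, h1, h2, fun l hl => absurd hl (Nat.not_lt_zero l)⟩
  | succ N ih =>
    obtain ⟨x, h1, h2, h3⟩ := ih
    by_cases h : a < (q N).1
    · obtain ⟨y, h4, h5⟩ := exists_between (lt_min h1 h)
      rw [lt_min_iff] at h5
      refine ⟨y, h4, h5.1.trans h2, ?_⟩
      rintro l hl ⟨h6, h7⟩
      rcases Nat.lt_succ_iff_lt_or_eq.mp hl with h8 | h8
      · exact h3 l h8 ⟨h6, h7.trans h5.1.le⟩
      · subst h8
        exact absurd h7 (not_le.mpr h5.2)
    · refine ⟨x, h1, h2, ?_⟩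
      rintro l hl ⟨h6, h7⟩
      rcases Nat.lt_succ_iff_lt_or_eq.mp hl with h8 | h8
      · exact h3 l h8 ⟨h6, h7⟩
      · subst h8
        exact h h6

theorem near_left (q : ℕ → ℝ × ℝ) (N : ℕ) {a b : ℝ} (hab : b < a) :
    ∃ x, x < a ∧ b < x ∧ ∀ l, l < N → ¬ ((q l).1 < a ∧ x ≤ (q l).1) := by
  induction N with
  | zero =>
    obtain ⟨x, h1, h2⟩ := exists_between hab
    exact ⟨x, h2, h1, fun l hl => absurd hl (Nat.not_lt_zero l)⟩
  | succ N ih =>
    obtain ⟨x, h1, h2, h3⟩ := ih
    by_cases h : (q N).1 < a
    · obtain ⟨y, h4, h5⟩ := exists_between (max_lt h1 h)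
      rw [max_lt_iff] at h4
      refine ⟨y, h5, h2.trans h4.1, ?_⟩
      rintro l hl ⟨h6, h7⟩
      rcases Nat.lt_succ_iff_lt_or_eq.mp hl with h8 | h8
      · exact h3 l h8 ⟨h6, h4.1.le.trans h7⟩
      · subst h8
        exact absurd h7 (not_le.mpr h4.2)
    · refine ⟨x, h1, h2, ?_⟩
      rintro l hl ⟨h6, h7⟩
      rcases Nat.lt_succ_iff_lt_or_eq.mp hl with h8 | h8
      · exact h3 l h8 ⟨h6, h7⟩
      · subst h8
        exact h h6

/-- every end of a range is the abscissa of a vertex with index `< n` -/
theorem Pg.elo_vertex (P : Pg n q) {j : ℕ} (hj : j < n) : ∃ l, l < n ∧ elo q j = (q l).1 := by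
  have hn := P.three
  obtain ⟨k, hk, e⟩ := elo_end (q := q) j
  rcases Nat.lt_or_ge k n with h | h
  · exact ⟨k, h, e⟩
  · refine ⟨0, by omega, ?_⟩
    have : k = n := by omega
    rw [e, this, P.q_n]

theorem Pg.ehi_vertex (P : Pg n q) {j : ℕ} (hj : j < n) : ∃ l, l < n ∧ ehi q j = (q l).1 := by
  have hn := P.three
  obtain ⟨k, hk, e⟩ := ehi_end (q := q) j
  rcases Nat.lt_or_ge k n with h | h
  · exact ⟨k, h, e⟩
  · refine ⟨0, by omega, ?_⟩
    have : k = n := by omega
    rw [e, this, P.q_n]

open Classical in
theorem Pg.local_right (P : Pg n q) {k i o : ℕ} (hin : i < n) (hon : o < n)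
    (hinc : ∀ j, j < n → ((q j).1 = (q k).1 ∨ (q (j + 1)).1 = (q k).1) → j = i ∨ j = o)
    (e : elo q i = (q k).1) (hl : ∃ l, (l = i ∨ l = i + 1) ∧ q l = q k)
    {x : ℝ} (hx : (q k).1 < x) (hx2 : x < ehi q i)
    (hnear : ∀ l, l < n → ¬ ((q k).1 < (q l).1 ∧ (q l).1 ≤ x)) :
    aboveAt n q i x = aboveCount n q k +
      (if EOver q i o ∧ elo q o = (q k).1 then 1 else 0) := by
  obtain ⟨l, hl, hlk⟩ := hl
  rw [P.aboveAt_eq hin (spans_iff_lo_hi.mpr ⟨by rw [e]; exact hx, hx2⟩)]
  unfold aboveCount
  rw [card_filter]
  have hterm : ∀ j ∈ range n,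
      (if EOver q i j ∧ elo q j < x ∧ x < ehi q j then 1 else 0) =
        (if Above (q j) (q (j + 1)) (q k) then 1 else 0) +
        (if o = j then (if EOver q i o ∧ elo q o = (q k).1 then 1 else 0) else 0) := by
    intro j hj
    rw [mem_range] at hj
    obtain ⟨l1, hl1, el1⟩ := P.elo_vertex hj
    obtain ⟨l2, hl2, el2⟩ := P.ehi_vertex hj
    have hlh := P.lo_lt_hi hj
    have c1 : elo q j < x ↔ elo q j ≤ (q k).1 := by
      constructor
      · intro h
        by_contra hcon
        push Not at hcon
        rw [el1] at h hcon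
        exact hnear l1 hl1 ⟨hcon, h.le⟩
      · intro h
        exact h.trans_lt hx
    have c2 : x < ehi q j ↔ (q k).1 < ehi q j := by
      constructor
      · intro h
        exact hx.trans h
      · intro h
        by_contra hcon
        push Not at hcon
        rw [el2] at h hcon
        exact hnear l2 hl2 ⟨h, hcon⟩
    have c3 : Above (q j) (q (j + 1)) (q k) ↔
        (EOver q i j ∧ elo q j < (q k).1 ∧ (q k).1 < ehi q j) := by
      constructor
      · intro h
        have hs := h.1
        rw [← hlk] at h hs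
        refine ⟨(P.above_vertex_iff hin hj hl hs).mp h, ?_⟩
        rw [← hlk]
        exact spans_iff_lo_hi.mp hs
      · rintro ⟨h1, h2⟩
        rw [← hlk] at h2 ⊢
        exact (P.above_vertex_iff hin hj hl (spans_iff_lo_hi.mpr h2)).mpr h1
    simp only [c1, c2]
    by_cases hov : EOver q i j
    · rcases lt_trichotomy (elo q j) (q k).1 with h | h | h
      · have hoj : ¬ (o = j ∧ EOver q i o ∧ elo q o = (q k).1) := by
          rintro ⟨rfl, -, h2⟩
          exact absurd h2 h.ne
        have : (if o = j then (if EOver q i o ∧ elo q o = (q k).1 then 1 else 0) else 0) = 0 := by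
          split_ifs with h1 h2
          · exact absurd ⟨h1, h2⟩ hoj
          · rfl
          · rfl
        rw [this, add_zero]
        refine if_congr ?_ rfl rfl
        rw [c3]
        constructor
        · rintro ⟨h1, h2, h3⟩
          exact ⟨h1, h, h3⟩
        · rintro ⟨h1, h2, h3⟩
          exact ⟨h1, h.le, h3⟩
      · -- `j` starts at the vertex
        have hoj : o = j := by
          have : (q j).1 = (q k).1 ∨ (q (j + 1)).1 = (q k).1 := by
            obtain ⟨m, hm, em⟩ := elo_end (q := q) j
            rcases hm with rfl | rfl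
            · exact Or.inl (em.symm.trans h)
            · exact Or.inr (em.symm.trans h)
          rcases hinc j hj this with h1 | h1
          · exact absurd h1.symm (over_ne hov)
          · exact h1.symm
        subst hoj
        have hna : ¬ Above (q o) (q (o + 1)) (q k) := by
          rw [c3]
          rintro ⟨-, h2, -⟩
          exact absurd h h2.ne
        rw [if_pos ⟨hov, h.le, by rw [← h]; exact hlh⟩, if_neg hna, if_pos rfl, if_pos ⟨hov, h⟩]
      · have hoj : ¬ (o = j ∧ EOver q i o ∧ elo q o = (q k).1) := by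
          rintro ⟨rfl, -, h2⟩
          exact absurd h2 h.ne'
        have : (if o = j then (if EOver q i o ∧ elo q o = (q k).1 then 1 else 0) else 0) = 0 := by
          split_ifs with h1 h2
          · exact absurd ⟨h1, h2⟩ hoj
          · rfl
          · rfl
        rw [this, add_zero, if_neg, if_neg]
        · rw [c3]
          rintro ⟨-, h2, -⟩
          exact lt_asymm h h2
        · rintro ⟨-, h2, -⟩
          exact absurd h (not_lt.mpr h2)
    · have : (if o = j then (if EOver q i o ∧ elo q o = (q k).1 then 1 else 0) else 0) = 0 := by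
        split_ifs with h1 h2
        · rw [h1] at h2
          exact absurd h2.1 hov
        · rfl
        · rfl
      rw [this, add_zero, if_neg, if_neg]
      · rw [c3]
        exact fun h => hov h.1
      · exact fun h => hov h.1
  rw [sum_congr rfl hterm, sum_add_distrib, sum_ite_eq, if_pos (mem_range.mpr hon)]

open Classical in
theorem Pg.local_left (P : Pg n q) {k i o : ℕ} (hin : i < n) (hon : o < n)
    (hinc : ∀ j, j < n → ((q j).1 = (q k).1 ∨ (q (j + 1)).1 = (q k).1) → j = i ∨ j = o)
    (e : ehi q i = (q k).1) (hl : ∃ l, (l = i ∨ l = i + 1) ∧ q l = q k)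
    {x : ℝ} (hx : x < (q k).1) (hx2 : elo q i < x)
    (hnear : ∀ l, l < n → ¬ ((q l).1 < (q k).1 ∧ x ≤ (q l).1)) :
    aboveAt n q i x = aboveCount n q k +
      (if EOver q i o ∧ ehi q o = (q k).1 then 1 else 0) := by
  obtain ⟨l, hl, hlk⟩ := hl
  rw [P.aboveAt_eq hin (spans_iff_lo_hi.mpr ⟨hx2, by rw [e]; exact hx⟩)]
  unfold aboveCount
  rw [card_filter]
  have hterm : ∀ j ∈ range n,
      (if EOver q i j ∧ elo q j < x ∧ x < ehi q j then 1 else 0) =
        (if Above (q j) (q (j + 1)) (q k) then 1 else 0) +
        (if o = j then (if EOver q i o ∧ ehi q o = (q k).1 then 1 else 0) else 0) := by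
    intro j hj
    rw [mem_range] at hj
    obtain ⟨l1, hl1, el1⟩ := P.elo_vertex hj
    obtain ⟨l2, hl2, el2⟩ := P.ehi_vertex hj
    have hlh := P.lo_lt_hi hj
    have c1 : x < ehi q j ↔ (q k).1 ≤ ehi q j := by
      constructor
      · intro h
        by_contra hcon
        push Not at hcon
        rw [el2] at h hcon
        exact hnear l2 hl2 ⟨hcon, h.le⟩
      · intro h
        exact hx.trans_le h
    have c2 : elo q j < x ↔ elo q j < (q k).1 := by
      constructor
      · intro h
        exact h.trans hx
      · intro h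
        by_contra hcon
        push Not at hcon
        rw [el1] at h hcon
        exact hnear l1 hl1 ⟨h, hcon⟩
    have c3 : Above (q j) (q (j + 1)) (q k) ↔
        (EOver q i j ∧ elo q j < (q k).1 ∧ (q k).1 < ehi q j) := by
      constructor
      · intro h
        have hs := h.1
        rw [← hlk] at h hs
        refine ⟨(P.above_vertex_iff hin hj hl hs).mp h, ?_⟩
        rw [← hlk]
        exact spans_iff_lo_hi.mp hs
      · rintro ⟨h1, h2⟩
        rw [← hlk] at h2 ⊢
        exact (P.above_vertex_iff hin hj hl (spans_iff_lo_hi.mpr h2)).mpr h1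
    simp only [c1, c2]
    by_cases hov : EOver q i j
    · rcases lt_trichotomy (ehi q j) (q k).1 with h | h | h
      · have hoj : ¬ (o = j ∧ EOver q i o ∧ ehi q o = (q k).1) := by
          rintro ⟨rfl, -, h2⟩
          exact absurd h2 h.ne
        have : (if o = j then (if EOver q i o ∧ ehi q o = (q k).1 then 1 else 0) else 0) = 0 := by
          split_ifs with h1 h2
          · exact absurd ⟨h1, h2⟩ hoj
          · rfl
          · rfl
        rw [this, add_zero, if_neg, if_neg]
        · rw [c3]
          rintro ⟨-, -, h2⟩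
          exact lt_asymm h h2
        · rintro ⟨-, -, h2⟩
          exact absurd h (not_lt.mpr h2)
      · -- `j` ends at the vertex
        have hoj : o = j := by
          have : (q j).1 = (q k).1 ∨ (q (j + 1)).1 = (q k).1 := by
            obtain ⟨m, hm, em⟩ := ehi_end (q := q) j
            rcases hm with rfl | rfl
            · exact Or.inl (em.symm.trans h)
            · exact Or.inr (em.symm.trans h)
          rcases hinc j hj this with h1 | h1
          · exact absurd h1.symm (over_ne hov)
          · exact h1.symm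
        subst hoj
        have hna : ¬ Above (q o) (q (o + 1)) (q k) := by
          rw [c3]
          rintro ⟨-, -, h2⟩
          exact absurd h h2.ne'
        rw [if_pos ⟨hov, by rw [← h]; exact hlh, h.ge⟩, if_neg hna, if_pos rfl, if_pos ⟨hov, h⟩]
      · have hoj : ¬ (o = j ∧ EOver q i o ∧ ehi q o = (q k).1) := by
          rintro ⟨rfl, -, h2⟩
          exact absurd h2 h.ne'
        have : (if o = j then (if EOver q i o ∧ ehi q o = (q k).1 then 1 else 0) else 0) = 0 := by
          split_ifs with h1 h2
          · exact absurd ⟨h1, h2⟩ hoj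
          · rfl
          · rfl
        rw [this, add_zero]
        refine if_congr ?_ rfl rfl
        rw [c3]
        constructor
        · rintro ⟨h1, h2, h3⟩
          exact ⟨h1, h2, h⟩
        · rintro ⟨h1, h2, h3⟩
          exact ⟨h1, h2, h.le⟩
    · have : (if o = j then (if EOver q i o ∧ ehi q o = (q k).1 then 1 else 0) else 0) = 0 := by
        split_ifs with h1 h2
        · rw [h1] at h2
          exact absurd h2.1 hov
        · rfl
        · rfl
      rw [this, add_zero, if_neg, if_neg]
      · rw [c3]
        exact fun h => hov h.1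
      · exact fun h => hov h.1
  rw [sum_congr rfl hterm, sum_add_distrib, sum_ite_eq, if_pos (mem_range.mpr hon)]

end Pool.Agent.Lib.MP_9bb24e_co
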