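import Pool.Agent.Lib.MP_9bb24e_co.Geom

/-!
The vertical order of the edges of a polygon.
-/

set_option autoImplicit false

namespace Pool.Agent.Lib.MP_9bb24e_co

open Finset

variable {n : ℕ} {q : ℕ → ℝ × ℝ}

/-- left end of the `x`-range of edge `i` -/
noncomputable def elo (q : ℕ → ℝ × ℝ) (i : ℕ) : ℝ := min (q i).1 (q (i + 1)).1

/-- right end of the `x`-range of edge `i` -/
noncomputable def ehi (q : ℕ → ℝ × ℝ) (i : ℕ) : ℝ := max (q i).1 (q (i + 1)).1

/-- height of edge `i` at abscissa `t` -/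
noncomputable def eht (q : ℕ → ℝ × ℝ) (i : ℕ) (t : ℝ) : ℝ := ht (q i) (q (i + 1)) t

/-- edge `j` is above edge `i` somewhere -/
def EOver (q : ℕ → ℝ × ℝ) (i j : ℕ) : Prop :=
  ∃ t : ℝ, elo q i < t ∧ t < ehi q i ∧ elo q j < t ∧ t < ehi q j ∧ eht q i t < eht q j t

theorem Pg.lo_lt_hi (P : Pg n q) {i : ℕ} (hi : i < n) : elo q i < ehi q i := by
  have h := P.ne_succ hi
  unfold elo ehi
  rcases lt_or_gt_of_ne h with h | h
  · rw [min_eq_left h.le, max_eq_right h.le]
    exact h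
  · rw [min_eq_right h.le, max_eq_left h.le]
    exact h

theorem elo_le_left (i : ℕ) : elo q i ≤ (q i).1 := min_le_left _ _
theorem elo_le_right (i : ℕ) : elo q i ≤ (q (i + 1)).1 := min_le_right _ _
theorem le_ehi_left (i : ℕ) : (q i).1 ≤ ehi q i := le_max_left _ _
theorem le_ehi_right (i : ℕ) : (q (i + 1)).1 ≤ ehi q i := le_max_right _ _

/-- an end point of an edge is not strictly inside its range -/
theorem end_not_inside {k i : ℕ} (h : k = i ∨ k = i + 1) :
    (q k).1 = elo q i ∨ (q k).1 = ehi q i := by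
  unfold elo ehi
  rcases le_total (q i).1 (q (i + 1)).1 with h3 | h3
  · rw [min_eq_left h3, max_eq_right h3]
    rcases h with rfl | rfl
    · exact Or.inl rfl
    · exact Or.inr rfl
  · rw [min_eq_right h3, max_eq_left h3]
    rcases h with rfl | rfl
    · exact Or.inr rfl
    · exact Or.inl rfl

/-- the range ends are attained at end points -/
theorem elo_end (i : ℕ) : ∃ k, (k = i ∨ k = i + 1) ∧ elo q i = (q k).1 := by
  unfold elo
  rcases le_total (q i).1 (q (i + 1)).1 with h3 | h3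
  · exact ⟨i, Or.inl rfl, min_eq_left h3⟩
  · exact ⟨i + 1, Or.inr rfl, min_eq_right h3⟩

theorem ehi_end (i : ℕ) : ∃ k, (k = i ∨ k = i + 1) ∧ ehi q i = (q k).1 := by
  unfold ehi
  rcases le_total (q i).1 (q (i + 1)).1 with h3 | h3
  · exact ⟨i + 1, Or.inr rfl, max_eq_right h3⟩
  · exact ⟨i, Or.inl rfl, max_eq_left h3⟩

/-- the order of two edges on an interval of common abscissas which is not reduced to common end
points -/
theorem Pg.sep (P : Pg n q) {i j : ℕ} (hin : i < n) (hjn : j < n) (hij : i ≠ j) {s t : ℝ}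
    (h1 : elo q i ≤ s) (h2 : s ≤ ehi q i) (h3 : elo q j ≤ s) (h4 : s ≤ ehi q j)
    (k1 : elo q i ≤ t) (k2 : t ≤ ehi q i) (k3 : elo q j ≤ t) (k4 : t ≤ ehi q j)
    (h5 : (elo q i < s ∧ s < ehi q i) ∨ (elo q j < s ∧ s < ehi q j))
    (h6 : (elo q i < t ∧ t < ehi q i) ∨ (elo q j < t ∧ t < ehi q j)) :
    (eht q i s < eht q j s ∧ eht q i t < eht q j t) ∨
      (eht q j s < eht q i s ∧ eht q j t < eht q i t) := by
  have main : ∀ x1 x2 : ℝ, x1 ≤ x2 → elo q i ≤ x1 → x2 ≤ ehi q i → elo q j ≤ x1 →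
      x2 ≤ ehi q j → ((elo q i < x1 ∧ x1 < ehi q i) ∨ (elo q j < x1 ∧ x1 < ehi q j)) →
      ((elo q i < x2 ∧ x2 < ehi q i) ∨ (elo q j < x2 ∧ x2 < ehi q j)) →
      (eht q i x1 < eht q j x1 ∧ eht q i x2 < eht q j x2) ∨
      (eht q j x1 < eht q i x1 ∧ eht q j x2 < eht q i x2) := by
    intro x1 x2 h12 a1 a2 a3 a4 a5 a6
    refine edge_sep P hin hjn hij h12 a1 a2 a3 a4 ?_
    intro k l hk hl hkl
    by_contra hcon
    push Not at hcon
    obtain ⟨c1, c2⟩ := hcon
    have e1 := end_not_inside (q := q) hk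
    have e2 := end_not_inside (q := q) hl
    rw [← hkl] at e2
    rcases a5 with a5 | a5 <;> rcases a6 with a6 | a6 <;> rcases e1 with e1 | e1 <;>
      rcases e2 with e2 | e2 <;> linarith [a5.1, a5.2, a6.1, a6.2]
  rcases le_total s t with hst | hst
  · exact main s t hst h1 k2 h3 k4 h5 h6
  · rcases main t s hst k1 h2 k3 h4 h6 h5 with h | h
    · exact Or.inl h.symm
    · exact Or.inr h.symm

theorem over_ne {i j : ℕ} (h : EOver q i j) : i ≠ j := by
  rintro rfl
  obtain ⟨t, -, -, -, -, h⟩ := h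
  exact lt_irrefl _ h

theorem Pg.over_lt (P : Pg n q) {i j : ℕ} (hin : i < n) (hjn : j < n) (h : EOver q i j) {t : ℝ}
    (h1 : elo q i ≤ t) (h2 : t ≤ ehi q i) (h3 : elo q j ≤ t) (h4 : t ≤ ehi q j)
    (h5 : (elo q i < t ∧ t < ehi q i) ∨ (elo q j < t ∧ t < ehi q j)) :
    eht q i t < eht q j t := by
  have hij := over_ne h
  obtain ⟨u, u1, u2, u3, u4, hu⟩ := h
  rcases P.sep hin hjn hij u1.le u2.le u3.le u4.le h1 h2 h3 h4 (Or.inl ⟨u1, u2⟩) h5 with h | h
  · exact h.2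
  · exact absurd h.1 (lt_asymm hu)

theorem Pg.not_over (P : Pg n q) {i j : ℕ} (hin : i < n) (hjn : j < n) (h : EOver q i j) :
    ¬ EOver q j i := by
  intro h'
  obtain ⟨t, t1, t2, t3, t4, ht'⟩ := h'
  have := P.over_lt hin hjn h t3.le t4.le t1.le t2.le (Or.inl ⟨t3, t4⟩)
  exact lt_asymm this ht'

/-- overlapping ranges -/
theorem Pg.over_or (P : Pg n q) {i j : ℕ} (hin : i < n) (hjn : j < n) (hij : i ≠ j)
    (h1 : elo q i < ehi q j) (h2 : elo q j < ehi q i) : EOver q i j ∨ EOver q j i := by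
  have hi' := P.lo_lt_hi hin
  have hj' := P.lo_lt_hi hjn
  have h3 : max (elo q i) (elo q j) < min (ehi q i) (ehi q j) := by
    rw [max_lt_iff, lt_min_iff, lt_min_iff]
    exact ⟨⟨hi', h1⟩, ⟨h2, hj'⟩⟩
  obtain ⟨t, ht1, ht2⟩ := exists_between h3
  rw [max_lt_iff] at ht1
  rw [lt_min_iff] at ht2
  rcases P.sep hin hjn hij ht1.1.le ht2.1.le ht1.2.le ht2.2.le ht1.1.le ht2.1.le ht1.2.le ht2.2.le
    (Or.inl ⟨ht1.1, ht2.1⟩) (Or.inl ⟨ht1.1, ht2.1⟩) with h | h
  · exact Or.inl ⟨t, ht1.1, ht2.1, ht1.2, ht2.2, h.1⟩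
  · exact Or.inr ⟨t, ht1.2, ht2.2, ht1.1, ht2.1, h.1⟩

theorem over_overlap {i j : ℕ} (h : EOver q i j) : elo q i < ehi q j ∧ elo q j < ehi q i := by
  obtain ⟨t, t1, t2, t3, t4, -⟩ := h
  exact ⟨t1.trans t4, t3.trans t2⟩

theorem spans_iff_lo_hi {i : ℕ} {x : ℝ} :
    Spans (q i) (q (i + 1)) x ↔ elo q i < x ∧ x < ehi q i := spans_iff

/-- at a common abscissa inside one of the ranges, the order decides `EOver` -/
theorem Pg.over_iff (P : Pg n q) {i j : ℕ} (hin : i < n) (hjn : j < n) {t : ℝ}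
    (h1 : elo q i ≤ t) (h2 : t ≤ ehi q i) (h3 : elo q j ≤ t) (h4 : t ≤ ehi q j)
    (h5 : (elo q i < t ∧ t < ehi q i) ∨ (elo q j < t ∧ t < ehi q j)) :
    eht q i t < eht q j t ↔ EOver q i j := by
  constructor
  · intro h
    have hij : i ≠ j := by
      rintro rfl
      exact lt_irrefl _ h
    have hi' := P.lo_lt_hi hin
    have hj' := P.lo_lt_hi hjn
    have o1 : elo q i < ehi q j := by
      rcases h5 with h5 | h5 <;> linarith [h5.1, h5.2]
    have o2 : elo q j < ehi q i := by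
      rcases h5 with h5 | h5 <;> linarith [h5.1, h5.2]
    rcases P.over_or hin hjn hij o1 o2 with h6 | h6
    · exact h6
    · exact absurd (P.over_lt hjn hin h6 h3 h4 h1 h2 h5.symm) (lt_asymm h)
  · intro h
    exact P.over_lt hin hjn h h1 h2 h3 h4 h5

/-- a vertex strictly inside the range of an edge, against this edge -/
theorem Pg.above_vertex_iff (P : Pg n q) {i j k : ℕ} (hin : i < n) (hjn : j < n)
    (hk : k = i ∨ k = i + 1) (hs : Spans (q j) (q (j + 1)) (q k).1) :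
    Above (q j) (q (j + 1)) (q k) ↔ EOver q i j := by
  have hs' := spans_iff_lo_hi.mp hs
  have e : eht q i (q k).1 = (q k).2 := by
    unfold eht
    rcases hk with rfl | rfl
    · exact ht_left _ _
    · exact ht_right (P.ne_succ hin)
  have h1 : elo q i ≤ (q k).1 := by
    rcases hk with rfl | rfl
    · exact elo_le_left _
    · exact elo_le_right _
  have h2 : (q k).1 ≤ ehi q i := by
    rcases hk with rfl | rfl
    · exact le_ehi_left _
    · exact le_ehi_right _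
  rw [← P.over_iff hin hjn h1 h2 hs'.1.le hs'.2.le (Or.inr hs'), e]
  unfold Above eht
  exact ⟨fun h => h.2, fun h => ⟨hs, h⟩⟩

end Pool.Agent.Lib.MP_9bb24e_co
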