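import Pool.Agent.Lib.MP_9bb24e_co.Geom

/-!
Parity of the number of edges above an edge: directions of the edges alternate, and the
convexity of a vertex is read off from the parity of the number of edges above it.
-/

set_option autoImplicit false

namespace Pool.Agent.Lib.MP_9bb24e_co.PB

open Finset Pool.Agent.Lib.MP_9bb24e_co

variable {n : ℕ} {q : ℕ → ℝ × ℝ}

/-- Index of the edge entering the vertex `v`. -/
def pe (n v : ℕ) : ℕ := if v = 0 then n - 1 else v - 1

lemma pg_periodic (h : Pg n q) : Function.Periodic q n := h.per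

lemma pg_pos (h : Pg n q) : 0 < n := lt_of_lt_of_le (by norm_num) h.three

lemma pe_lt (h : Pg n q) {v : ℕ} (hv : v < n) : pe n v < n := by
  have := h.three
  unfold pe; split_ifs <;> omega

lemma pe_ne (h : Pg n q) {v : ℕ} : pe n v ≠ v := by
  have := h.three
  unfold pe; split_ifs <;> omega

lemma q_pe (h : Pg n q) (v : ℕ) : q (pe n v) = q (v + (n - 1)) := by
  have h3 := h.three
  unfold pe; split_ifs with h0
  · subst h0; simp
  · have : v + (n - 1) = (v - 1) + n := by omega
    rw [this, h.per]

lemma q_pe_succ (h : Pg n q) (v : ℕ) : q (pe n v + 1) = q v := by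
  have h3 := h.three
  unfold pe; split_ifs with h0
  · subst h0
    have : n - 1 + 1 = 0 + n := by omega
    rw [this, h.per]
  · congr 1; omega

/-- Residue of an index modulo `n`. -/
lemma q_mod (h : Pg n q) (m : ℕ) : q (m % n) = q m := (pg_periodic h).map_mod_nat m

lemma mod_ne {v j : ℕ} (hj : j < n) (h1 : j ≠ pe n v) :
    (j + 1) % n ≠ v := by
  unfold pe at h1
  rcases Nat.lt_or_ge (j + 1) n with h2 | h2
  · rw [Nat.mod_eq_of_lt h2]
    split_ifs at h1 <;> omega
  · have : j + 1 = n := by omega
    rw [this, Nat.mod_self]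
    split_ifs at h1 <;> omega

lemma xne (h : Pg n q) {i j : ℕ} (hi : i < n) (hj : j < n) (hij : i ≠ j) :
    (q i).1 ≠ (q j).1 := fun he => hij (h.xinj i hi j hj he)

lemma xne_succ (h : Pg n q) {i : ℕ} (hi : i < n) : (q i).1 ≠ (q (i + 1)).1 := by
  have h3 := h.three
  rw [← q_mod h (i + 1)]
  refine xne h hi (Nat.mod_lt _ (pg_pos h)) ?_
  rcases Nat.lt_or_ge (i + 1) n with h2 | h2
  · rw [Nat.mod_eq_of_lt h2]; omega
  · have : i + 1 = n := by omega
    rw [this, Nat.mod_self]; omega

lemma ht_fst (a b : ℝ × ℝ) : ht a b a.1 = a.2 := by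
  unfold ht; simp

lemma ht_snd {a b : ℝ × ℝ} (hab : a.1 ≠ b.1) : ht a b b.1 = b.2 := by
  unfold ht
  have : b.1 - a.1 ≠ 0 := sub_ne_zero.mpr (Ne.symm hab)
  field_simp; ring

/-- `x` is close to the abscissa of the vertex `v`: no other vertex abscissa in between. -/
def Near (n : ℕ) (q : ℕ → ℝ × ℝ) (v : ℕ) (x : ℝ) : Prop :=
  x ≠ (q v).1 ∧ ∀ k, k < n → k ≠ v → ((q k).1 < min x (q v).1 ∨ max x (q v).1 < (q k).1)

lemma Near.out (h : Pg n q) {v : ℕ} {x : ℝ} (hN : Near n q v x) {m : ℕ} (hm : m % n ≠ v) :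
    (q m).1 < min x (q v).1 ∨ max x (q v).1 < (q m).1 := by
  rw [← q_mod h m]
  exact hN.2 _ (Nat.mod_lt _ (pg_pos h)) hm

lemma Near.generic {v : ℕ} {x : ℝ} (hN : Near n q v x) : ∀ k, k < n → (q k).1 ≠ x := by
  intro k hk
  by_cases hkv : k = v
  · subst hkv; exact Ne.symm hN.1
  · rcases hN.2 k hk hkv with h1 | h1
    · exact ne_of_lt (lt_of_lt_of_le h1 (min_le_left _ _))
    · exact ne_of_gt (lt_of_le_of_lt (le_max_left _ _) h1)

lemma exists_near (h : Pg n q) {v : ℕ} (hv : v < n) :
    ∃ δ : ℝ, 0 < δ ∧ Near n q v ((q v).1 + δ) ∧ Near n q v ((q v).1 - δ) := by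
  obtain ⟨δ, hδ, hk⟩ : ∃ δ : ℝ, 0 < δ ∧ ∀ k, k < n → k ≠ v → δ < |(q k).1 - (q v).1| := by
    have hne : ((range n).erase v).Nonempty := by
      have h3 := h.three
      by_cases h0 : v = 0
      · exact ⟨1, by simp; omega⟩
      · exact ⟨0, by simp; omega⟩
    obtain ⟨m, hm, hmin⟩ := exists_min_image ((range n).erase v)
      (fun k => |(q k).1 - (q v).1|) hne
    have hm' : m ≠ v ∧ m < n := by simpa using hm
    have hpos : 0 < |(q m).1 - (q v).1| := abs_pos.mpr (sub_ne_zero.mpr (xne h hm'.2 hv hm'.1))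
    refine ⟨|(q m).1 - (q v).1| / 2, by positivity, ?_⟩
    intro k hk hkv
    have := hmin k (by simp [hk, hkv])
    linarith
  refine ⟨δ, hδ, ⟨by linarith, ?_⟩, ⟨by linarith, ?_⟩⟩
  · intro k hk' hkv
    have h1 := hk k hk' hkv
    rcases lt_abs.mp h1 with h2 | h2
    · right; rw [max_eq_left (by linarith)]; linarith
    · left; rw [min_eq_right (by linarith)]; linarith
  · intro k hk' hkv
    have h1 := hk k hk' hkv
    rcases lt_abs.mp h1 with h2 | h2
    · right; rw [max_eq_right (by linarith)]; linarith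
    · left; rw [min_eq_left (by linarith)]; linarith

/-- Edges not incident with `v` span a near abscissa iff they span the abscissa of `v`. -/
lemma Near.spans_iff (h : Pg n q) {v : ℕ} (hv : v < n) {x : ℝ} (hN : Near n q v x) {j : ℕ}
    (hj : j < n) (h1 : j ≠ v) (h2 : j ≠ pe n v) :
    Spans (q j) (q (j + 1)) x ↔ Spans (q j) (q (j + 1)) (q v).1 := by
  have ha := hN.out h (m := j) (by rw [Nat.mod_eq_of_lt hj]; exact h1)
  have hb := hN.out h (m := j + 1) (mod_ne hj h2)
  simp only [lt_min_iff, max_lt_iff] at ha hb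
  unfold Spans
  constructor
  · rintro (⟨h3, h4⟩ | ⟨h3, h4⟩)
    · left
      refine ⟨?_, ?_⟩
      · rcases ha with ha | ha
        · exact ha.2
        · exact absurd ha.1 (by linarith)
      · rcases hb with hb | hb
        · exact absurd hb.1 (by linarith)
        · exact hb.2
    · right
      refine ⟨?_, ?_⟩
      · rcases hb with hb | hb
        · exact hb.2
        · exact absurd hb.1 (by linarith)
      · rcases ha with ha | ha
        · exact absurd ha.1 (by linarith)
        · exact ha.2
  · rintro (⟨h3, h4⟩ | ⟨h3, h4⟩)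
    · left
      refine ⟨?_, ?_⟩
      · rcases ha with ha | ha
        · exact ha.1
        · exact absurd ha.2 (by linarith)
      · rcases hb with hb | hb
        · exact absurd hb.2 (by linarith)
        · exact hb.1
    · right
      refine ⟨?_, ?_⟩
      · rcases hb with hb | hb
        · exact hb.1
        · exact absurd hb.2 (by linarith)
      · rcases ha with ha | ha
        · exact absurd ha.2 (by linarith)
        · exact ha.1

lemma spans_min_max {a b : ℝ × ℝ} {x : ℝ} (hs : Spans a b x) :
    min a.1 b.1 < x ∧ x < max a.1 b.1 := by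
  rcases hs with ⟨h1, h2⟩ | ⟨h1, h2⟩
  · exact ⟨lt_of_le_of_lt (min_le_left _ _) h1, lt_of_lt_of_le h2 (le_max_right _ _)⟩
  · exact ⟨lt_of_le_of_lt (min_le_right _ _) h1, lt_of_lt_of_le h2 (le_max_left _ _)⟩

lemma not_spans_fst (a b : ℝ × ℝ) : ¬ Spans a b a.1 := by
  rintro (⟨h1, _⟩ | ⟨_, h2⟩)
  · exact lt_irrefl _ h1
  · exact lt_irrefl _ h2

lemma not_spans_snd (a b : ℝ × ℝ) : ¬ Spans a b b.1 := by
  rintro (⟨_, h2⟩ | ⟨h1, _⟩)
  · exact lt_irrefl _ h2
  · exact lt_irrefl _ h1

/-- Height of an edge incident with `v` at the abscissa of `v`. -/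
lemma ht_inc (h : Pg n q) {v e : ℕ} (hv : v < n) (he : e = v ∨ e = pe n v) :
    ht (q e) (q (e + 1)) (q v).1 = (q v).2 := by
  rcases he with rfl | rfl
  · exact ht_fst _ _
  · have hne := xne_succ h (pe_lt h hv)
    rw [q_pe_succ h] at hne ⊢
    exact ht_snd hne

lemma inc_range (h : Pg n q) {v e : ℕ} (he : e = v ∨ e = pe n v) :
    min (q e).1 (q (e + 1)).1 ≤ (q v).1 ∧ (q v).1 ≤ max (q e).1 (q (e + 1)).1 := by
  rcases he with rfl | rfl
  · exact ⟨min_le_left _ _, le_max_left _ _⟩
  · rw [q_pe_succ h]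
    exact ⟨min_le_right _ _, le_max_right _ _⟩

/-- An edge not incident with `v` is above an incident edge at a near abscissa iff it is above
`v`. -/
lemma Near.above_iff (h : Pg n q) {v : ℕ} (hv : v < n) {x : ℝ} (hN : Near n q v x) {e j : ℕ}
    (he : e = v ∨ e = pe n v) (hs : Spans (q e) (q (e + 1)) x)
    (hj : j < n) (h1 : j ≠ v) (h2 : j ≠ pe n v) (hsj : Spans (q j) (q (j + 1)) x) :
    ht (q e) (q (e + 1)) x < ht (q j) (q (j + 1)) x ↔
      (q v).2 < ht (q j) (q (j + 1)) (q v).1 := by
  have hen : e < n := by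
    rcases he with rfl | rfl
    · exact hv
    · exact pe_lt h hv
  have hej : e ≠ j := by
    rcases he with rfl | rfl
    · exact Ne.symm h1
    · exact Ne.symm h2
  have hsj' := (hN.spans_iff h hv hj h1 h2).mp hsj
  have e1 := spans_min_max hs
  have e2 := inc_range h he
  have e3 := spans_min_max hsj
  have e4 := spans_min_max hsj'
  have hc : ∀ k l, (k = e ∨ k = e + 1) → (l = j ∨ l = j + 1) → q k = q l →
      (q k).1 < min x (q v).1 ∨ max x (q v).1 < (q k).1 := by
    intro k l _ hl hkl
    rw [hkl]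
    refine hN.out h ?_
    rcases hl with rfl | rfl
    · rw [Nat.mod_eq_of_lt hj]; exact h1
    · exact mod_ne hj h2
  have key := edge_sep h hen hj hej (x1 := min x (q v).1) (x2 := max x (q v).1) min_le_max
    (le_min e1.1.le e2.1) (max_le e1.2.le e2.2) (le_min e3.1.le e4.1.le)
    (max_le e3.2.le e4.2.le) hc
  have key' : (ht (q e) (q (e + 1)) x < ht (q j) (q (j + 1)) x ∧
      ht (q e) (q (e + 1)) (q v).1 < ht (q j) (q (j + 1)) (q v).1) ∨
    (ht (q j) (q (j + 1)) x < ht (q e) (q (e + 1)) x ∧
      ht (q j) (q (j + 1)) (q v).1 < ht (q e) (q (e + 1)) (q v).1) := by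
    rcases le_total x (q v).1 with hx | hx
    · rwa [min_eq_left hx, max_eq_right hx] at key
    · rw [min_eq_right hx, max_eq_left hx] at key
      tauto
  rw [ht_inc h hv he] at key'
  constructor
  · intro h3
    rcases key' with h4 | h4
    · exact h4.2
    · exact absurd h3 (not_lt.mpr h4.1.le)
  · intro h3
    rcases key' with h4 | h4
    · exact h4.1
    · exact absurd h3 (not_lt.mpr h4.2.le)

open Classical in
/-- Number of edges above an edge incident with `v`, near `v`; `o` is the other incident edge. -/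
lemma Near.aboveAt_eq (h : Pg n q) {v : ℕ} (hv : v < n) {x : ℝ} (hN : Near n q v x) {e o : ℕ}
    (he : (e = v ∧ o = pe n v) ∨ (e = pe n v ∧ o = v)) (hs : Spans (q e) (q (e + 1)) x) :
    aboveAt n q e x = aboveCount n q v +
      (if Spans (q o) (q (o + 1)) x ∧ ht (q e) (q (e + 1)) x < ht (q o) (q (o + 1)) x
        then 1 else 0) := by
  have he' : e = v ∨ e = pe n v := by tauto
  have ho' : o = v ∨ o = pe n v := by tauto
  have hpe := pe_lt h hv
  have hon : o < n := by rcases ho' with rfl | rfl <;> assumption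
  have hcover : ∀ j, j = e ∨ j = o ∨ (j ≠ v ∧ j ≠ pe n v) := by
    intro j; rcases he with ⟨rfl, rfl⟩ | ⟨rfl, rfl⟩ <;> tauto
  have heo : e ≠ o := by
    rcases he with ⟨rfl, rfl⟩ | ⟨rfl, rfl⟩
    · exact Ne.symm (pe_ne h)
    · exact pe_ne h
  have hns : ∀ j, (j = v ∨ j = pe n v) → ¬ Spans (q j) (q (j + 1)) (q v).1 := by
    rintro j (rfl | rfl)
    · exact not_spans_fst _ _
    · rw [q_pe_succ h]; exact not_spans_snd _ _
  unfold aboveAt aboveCount
  set A := (range n).filter (fun i => Above (q i) (q (i + 1)) (q v)) with hA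
  have hoA : o ∉ A := by
    rw [hA, mem_filter]
    rintro ⟨_, h3, _⟩
    exact hns o ho' h3
  have hset : (range n).filter (fun j => Spans (q j) (q (j + 1)) x ∧
      ht (q e) (q (e + 1)) x < ht (q j) (q (j + 1)) x) =
      if Spans (q o) (q (o + 1)) x ∧ ht (q e) (q (e + 1)) x < ht (q o) (q (o + 1)) x
        then insert o A else A := by
    ext j
    have hmemA : j ∈ A ↔ j < n ∧ Above (q j) (q (j + 1)) (q v) := by rw [hA, mem_filter, mem_range]
    rw [mem_filter, mem_range]
    rcases hcover j with rfl | rfl | ⟨h1, h2⟩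
    · have hnA : j ∉ A := by
        rw [hmemA]; rintro ⟨_, h3, _⟩; exact hns j he' h3
      constructor
      · rintro ⟨_, _, h3⟩; exact absurd h3 (lt_irrefl _)
      · intro h3
        split_ifs at h3
        · rcases mem_insert.mp h3 with h4 | h4
          · exact absurd h4 heo
          · exact absurd h4 hnA
        · exact absurd h3 hnA
    · split_ifs with h3
      · constructor
        · intro _; exact mem_insert_self _ _
        · intro _; exact ⟨hon, h3⟩
      · constructor
        · rintro ⟨_, h4⟩; exact absurd h4 h3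
        · intro h4; exact absurd h4 hoA
    · have hj_iff : (j < n ∧ Spans (q j) (q (j + 1)) x ∧
          ht (q e) (q (e + 1)) x < ht (q j) (q (j + 1)) x) ↔ j ∈ A := by
        rw [hmemA]
        constructor
        · rintro ⟨h3, h4, h5⟩
          exact ⟨h3, (hN.spans_iff h hv h3 h1 h2).mp h4,
            (hN.above_iff h hv he' hs h3 h1 h2 h4).mp h5⟩
        · rintro ⟨h3, h4, h5⟩
          have h6 := (hN.spans_iff h hv h3 h1 h2).mpr h4
          exact ⟨h3, h6, (hN.above_iff h hv he' hs h3 h1 h2 h6).mpr h5⟩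
      rw [hj_iff]
      have hjo : j ≠ o := by rcases ho' with rfl | rfl <;> assumption
      split_ifs
      · rw [mem_insert]; tauto
      · rfl
  rw [hset]
  split_ifs
  · rw [card_insert_of_notMem hoA]
  · simp

/-- Parity of the number of edges above edge `i` does not change along the edge. -/
lemma parity_const (h : Pg n q) {i : ℕ} (hi : i < n) {x x' : ℝ} (hxx : x < x')
    (hx : ∀ k, k < n → (q k).1 ≠ x) (hx' : ∀ k, k < n → (q k).1 ≠ x')
    (hs : Spans (q i) (q (i + 1)) x) (hs' : Spans (q i) (q (i + 1)) x') :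
    (Odd (aboveAt n q i x) ↔ Odd (aboveAt n q i x')) := by
  classical
  -- vertices in between and above
  set B : ℕ → ℕ := fun k => if x < (q k).1 ∧ (q k).1 < x' ∧
    ht (q i) (q (i + 1)) (q k).1 < (q k).2 then 1 else 0 with hB
  set A : ℝ → ℕ → ℕ := fun y j => if Spans (q j) (q (j + 1)) y ∧
    ht (q i) (q (i + 1)) y < ht (q j) (q (j + 1)) y then 1 else 0 with hAdef
  have hsum : ∀ y, aboveAt n q i y = ∑ j ∈ range n, A y j := by
    intro y; unfold aboveAt; rw [card_filter]
  have hxm : ∀ m, (q m).1 ≠ x := by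
    intro m; rw [← q_mod h m]; exact hx _ (Nat.mod_lt _ (pg_pos h))
  have hxm' : ∀ m, (q m).1 ≠ x' := by
    intro m; rw [← q_mod h m]; exact hx' _ (Nat.mod_lt _ (pg_pos h))
  have ei := spans_min_max hs
  have ei' := spans_min_max hs'
  have hB0 : ∀ k, (k = i ∨ k = i + 1) → B k = 0 := by
    intro k hk
    simp only [hB]
    rw [if_neg]
    rintro ⟨h1, h2, _⟩
    rcases hs with ⟨h3, h4⟩ | ⟨h3, h4⟩ <;> rcases hs' with ⟨h5, h6⟩ | ⟨h5, h6⟩ <;>
      rcases hk with rfl | rfl <;> linarith
  have key : ∀ j, j < n → Even (A x j + A x' j + (B j + B (j + 1))) := by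
    intro j hj
    by_cases hji : j = i
    · subst hji
      have h1 : A x j = 0 := by
        simp only [hAdef]; rw [if_neg]; rintro ⟨_, h2⟩; exact lt_irrefl _ h2
      have h2 : A x' j = 0 := by
        simp only [hAdef]; rw [if_neg]; rintro ⟨_, h2⟩; exact lt_irrefl _ h2
      rw [h1, h2, hB0 j (Or.inl rfl), hB0 (j + 1) (Or.inr rfl)]; simp
    · -- lower and upper ends
      have hjne := xne_succ h hj
      have hc : ∀ x1 x2 : ℝ, x ≤ x1 → x2 ≤ x' → ∀ k l, (k = i ∨ k = i + 1) →
          (l = j ∨ l = j + 1) → q k = q l → (q k).1 < x1 ∨ x2 < (q k).1 := by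
        intro x1 x2 hx1 hx2 k l hk _ _
        rcases hs with ⟨h3, h4⟩ | ⟨h3, h4⟩ <;> rcases hs' with ⟨h5, h6⟩ | ⟨h5, h6⟩ <;>
          rcases hk with rfl | rfl
        all_goals first
          | (left; linarith)
          | (right; linarith)
      -- reduce to an oriented statement: `a` is the left end, `b` the right end
      have main : ∀ a b : ℕ, (a = j ∧ b = j + 1 ∨ a = j + 1 ∧ b = j) → (q a).1 < (q b).1 →
          Even (A x j + A x' j + (B a + B b)) := by
        intro a b hab hlt
        have hspan : ∀ y, Spans (q j) (q (j + 1)) y ↔ (q a).1 < y ∧ y < (q b).1 := by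
          intro y
          unfold Spans
          rcases hab with ⟨rfl, rfl⟩ | ⟨rfl, rfl⟩
          · constructor
            · rintro (h1 | h1)
              · exact h1
              · exfalso; linarith [h1.1, h1.2]
            · intro h1; exact Or.inl h1
          · constructor
            · rintro (h1 | h1)
              · exfalso; linarith [h1.1, h1.2]
              · exact h1
            · intro h1; exact Or.inr h1
        have hmin : min (q j).1 (q (j + 1)).1 = (q a).1 := by
          rcases hab with ⟨rfl, rfl⟩ | ⟨rfl, rfl⟩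
          · exact min_eq_left hlt.le
          · exact min_eq_right hlt.le
        have hmax : max (q j).1 (q (j + 1)).1 = (q b).1 := by
          rcases hab with ⟨rfl, rfl⟩ | ⟨rfl, rfl⟩
          · exact max_eq_right hlt.le
          · exact max_eq_left hlt.le
        have hta : ht (q j) (q (j + 1)) (q a).1 = (q a).2 := by
          rcases hab with ⟨rfl, rfl⟩ | ⟨rfl, rfl⟩
          · exact ht_fst _ _
          · exact ht_snd hjne
        have htb : ht (q j) (q (j + 1)) (q b).1 = (q b).2 := by
          rcases hab with ⟨rfl, rfl⟩ | ⟨rfl, rfl⟩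
          · exact ht_snd hjne
          · exact ht_fst _ _
        by_cases hdis : (q b).1 < x ∨ x' < (q a).1
        · have h1 : A x j = 0 := by
            simp only [hAdef]; rw [if_neg]; rintro ⟨h2, _⟩
            have := (hspan x).mp h2
            rcases hdis with h3 | h3 <;> linarith [this.1, this.2]
          have h2 : A x' j = 0 := by
            simp only [hAdef]; rw [if_neg]; rintro ⟨h2, _⟩
            have := (hspan x').mp h2
            rcases hdis with h3 | h3 <;> linarith [this.1, this.2]
          have h3 : B a = 0 := by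
            simp only [hB]; rw [if_neg]; rintro ⟨h4, h5, _⟩
            rcases hdis with h6 | h6 <;> linarith
          have h4 : B b = 0 := by
            simp only [hB]; rw [if_neg]; rintro ⟨h4, h5, _⟩
            rcases hdis with h6 | h6 <;> linarith
          rw [h1, h2, h3, h4]; simp
        · push Not at hdis
          have hbx : x < (q b).1 := lt_of_le_of_ne hdis.1 (Ne.symm (hxm b))
          have hax : (q a).1 < x' := lt_of_le_of_ne hdis.2 (hxm' a)
          set x1 := max (q a).1 x with hx1
          set x2 := min (q b).1 x' with hx2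
          have h12 : x1 ≤ x2 := max_le (le_min hlt.le hax.le) (le_min hbx.le hxx.le)
          have hsep := edge_sep h hi hj (Ne.symm hji) h12
            (le_trans ei.1.le (le_max_right _ _)) (le_trans (min_le_right _ _) ei'.2.le)
            (by rw [hmin]; exact le_max_left _ _) (by rw [hmax]; exact min_le_left _ _)
            (hc x1 x2 (le_max_right _ _) (min_le_right _ _))
          -- the common order
          have hex : ∃ σ : ℕ, (σ = 0 ∨ σ = 1) ∧
              ((ht (q i) (q (i + 1)) x1 < ht (q j) (q (j + 1)) x1) ↔ σ = 1) ∧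
              ((ht (q i) (q (i + 1)) x2 < ht (q j) (q (j + 1)) x2) ↔ σ = 1) := by
            rcases hsep with h1 | h1
            · exact ⟨1, Or.inr rfl, by simp [h1.1], by simp [h1.2]⟩
            · exact ⟨0, Or.inl rfl, by simp [h1.1.le], by simp [h1.2.le]⟩
          obtain ⟨σ, hσ, hσ1, hσ2⟩ := hex
          have f1 : A x j + B a = σ := by
            rcases lt_or_gt_of_ne (hxm a) with h1 | h1
            · have e1 : x1 = x := max_eq_right h1.le
              rw [e1] at hσ1
              have h2 : B a = 0 := by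
                simp only [hB]; rw [if_neg]; rintro ⟨h4, _⟩; linarith
              have h3 : A x j = σ := by
                simp only [hAdef]
                rcases hσ with h4 | h4
                · rw [if_neg, h4]; rintro ⟨_, h5⟩
                  have := hσ1.mp h5; omega
                · rw [if_pos, h4]; exact ⟨(hspan x).mpr ⟨h1, hbx⟩, hσ1.mpr h4⟩
              omega
            · have e1 : x1 = (q a).1 := max_eq_left (le_of_lt h1)
              rw [e1, hta] at hσ1
              have h2 : A x j = 0 := by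
                simp only [hAdef]; rw [if_neg]; rintro ⟨h4, _⟩
                have := (hspan x).mp h4; linarith [this.1]
              have h3 : B a = σ := by
                simp only [hB]
                rcases hσ with h4 | h4
                · rw [if_neg, h4]; rintro ⟨_, _, h5⟩
                  have := hσ1.mp h5; omega
                · rw [if_pos, h4]; exact ⟨h1, hax, hσ1.mpr h4⟩
              omega
          have f2 : A x' j + B b = σ := by
            rcases lt_or_gt_of_ne (hxm' b) with h1 | h1
            · have e1 : x2 = (q b).1 := min_eq_left h1.le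
              rw [e1, htb] at hσ2
              have h2 : A x' j = 0 := by
                simp only [hAdef]; rw [if_neg]; rintro ⟨h4, _⟩
                have := (hspan x').mp h4; linarith [this.2]
              have h3 : B b = σ := by
                simp only [hB]
                rcases hσ with h4 | h4
                · rw [if_neg, h4]; rintro ⟨_, _, h5⟩
                  have := hσ2.mp h5; omega
                · rw [if_pos, h4]; exact ⟨hbx, h1, hσ2.mpr h4⟩
              omega
            · have e1 : x2 = x' := min_eq_right (le_of_lt h1)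
              rw [e1] at hσ2
              have h2 : B b = 0 := by
                simp only [hB]; rw [if_neg]; rintro ⟨_, h4, _⟩; linarith
              have h3 : A x' j = σ := by
                simp only [hAdef]
                rcases hσ with h4 | h4
                · rw [if_neg, h4]; rintro ⟨_, h5⟩
                  have := hσ2.mp h5; omega
                · rw [if_pos, h4]; exact ⟨(hspan x').mpr ⟨hax, h1⟩, hσ2.mpr h4⟩
              omega
          have : A x j + A x' j + (B a + B b) = σ + σ := by omega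
          rw [this]; exact ⟨σ, rfl⟩
      rcases lt_or_gt_of_ne hjne with h1 | h1
      · exact main j (j + 1) (Or.inl ⟨rfl, rfl⟩) h1
      · have := main (j + 1) j (Or.inr ⟨rfl, rfl⟩) h1
        rwa [add_comm (B (j + 1)) (B j)] at this
  have hBper : ∑ j ∈ range n, B (j + 1) = ∑ j ∈ range n, B j := by
    have h1 : ∑ j ∈ range n, B (j + 1) + B 0 = ∑ j ∈ range (n + 1), B j := by
      rw [sum_range_succ']
    have h2 : ∑ j ∈ range (n + 1), B j = ∑ j ∈ range n, B j + B n := sum_range_succ _ _
    have h3 : B n = B 0 := by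
      simp only [hB]
      have : q n = q 0 := by have := h.per 0; rwa [zero_add] at this
      rw [this]
    omega
  have htot : Even (∑ j ∈ range n, (A x j + A x' j + (B j + B (j + 1)))) :=
    even_sum _ (fun j hj => key j (mem_range.mp hj))
  simp only [sum_add_distrib] at htot
  rw [hBper, ← hsum x, ← hsum x'] at htot
  rw [← Nat.not_even_iff_odd, ← Nat.not_even_iff_odd]
  have : Even (aboveAt n q i x + aboveAt n q i x') := by
    rcases htot with ⟨c, hc⟩
    exact ⟨c - ∑ j ∈ range n, B j, by omega⟩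
  rw [Nat.even_add] at this
  tauto

/-- Difference of the heights of the two edges at a common vertex `b`. -/
lemma ht_sub_ht {a b c : ℝ × ℝ} {x : ℝ} (hab : a.1 ≠ b.1) (hbc : b.1 ≠ c.1) :
    ht a b x - ht b c x = (x - b.1) * cross a b c / ((a.1 - b.1) * (c.1 - b.1)) := by
  unfold ht cross
  have h1 : a.1 - b.1 ≠ 0 := sub_ne_zero.mpr hab
  have h2 : c.1 - b.1 ≠ 0 := sub_ne_zero.mpr (Ne.symm hbc)
  have h3 : b.1 - a.1 ≠ 0 := sub_ne_zero.mpr (Ne.symm hab)
  field_simp
  ring

/-- The two edges at `v`: entering edge from `a = q (pe n v)`, leaving edge to `c = q (v + 1)`. -/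
lemma turn_eq (h : Pg n q) (v : ℕ) : turn n q v = cross (q (pe n v)) (q v) (q (v + 1)) := by
  unfold turn; rw [q_pe h]

lemma pe_fst_ne (h : Pg n q) {v : ℕ} (hv : v < n) : (q (pe n v)).1 ≠ (q v).1 := by
  have := xne_succ h (pe_lt h hv)
  rwa [q_pe_succ h] at this

lemma turn_ne (h : Pg n q) {v : ℕ} (hv : v < n) : turn n q v ≠ 0 := by
  rw [turn_eq h, ← q_mod h (v + 1)]
  have h3 := h.three
  refine h.gp _ (pe_lt h hv) _ hv _ (Nat.mod_lt _ (pg_pos h)) (pe_ne h) ?_ ?_
  · rcases Nat.lt_or_ge (v + 1) n with h2 | h2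
    · rw [Nat.mod_eq_of_lt h2]; omega
    · have : v + 1 = n := by omega
      rw [this, Nat.mod_self]; omega
  · unfold pe
    rcases Nat.lt_or_ge (v + 1) n with h2 | h2
    · rw [Nat.mod_eq_of_lt h2]; split_ifs <;> omega
    · have : v + 1 = n := by omega
      rw [this, Nat.mod_self]; split_ifs <;> omega

lemma succ_mod_ne (h : Pg n q) {v : ℕ} (hv : v < n) : (v + 1) % n ≠ v := by
  have h3 := h.three
  rcases Nat.lt_or_ge (v + 1) n with h2 | h2
  · rw [Nat.mod_eq_of_lt h2]; omega
  · have : v + 1 = n := by omega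
    rw [this, Nat.mod_self]; omega

lemma pe_mod_ne (h : Pg n q) {v : ℕ} (hv : v < n) : pe n v % n ≠ v := by
  rw [Nat.mod_eq_of_lt (pe_lt h hv)]; exact pe_ne h

/-- Data near a vertex `v` on the right side. -/
lemma near_right (h : Pg n q) {v : ℕ} {δ : ℝ} (hδ : 0 < δ)
    (hN : Near n q v ((q v).1 + δ)) {m : ℕ} (hm : m % n ≠ v) :
    (q m).1 < (q v).1 ∨ (q v).1 + δ < (q m).1 := by
  have := hN.out h hm
  rwa [min_eq_right (by linarith), max_eq_left (by linarith)] at this

lemma near_left (h : Pg n q) {v : ℕ} {δ : ℝ} (hδ : 0 < δ)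
    (hN : Near n q v ((q v).1 - δ)) {m : ℕ} (hm : m % n ≠ v) :
    (q m).1 < (q v).1 - δ ∨ (q v).1 < (q m).1 := by
  have := hN.out h hm
  rwa [min_eq_left (by linarith), max_eq_right (by linarith)] at this

/-- Parities and directions at the two edges of a vertex. For each incident edge there is a
generic abscissa spanned by it at which the number of edges above is known. -/
lemma vertex_data (h : Pg n q) {v : ℕ} (hv : v < n) :
    ∃ x y : ℝ, (∀ k, k < n → (q k).1 ≠ x) ∧ (∀ k, k < n → (q k).1 ≠ y) ∧
      Spans (q (pe n v)) (q (pe n v + 1)) x ∧ Spans (q v) (q (v + 1)) y ∧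
      (((q (pe n v)).1 < (q v).1 ∧ (q v).1 < (q (v + 1)).1 ∧
          aboveAt n q (pe n v) x = aboveCount n q v ∧ aboveAt n q v y = aboveCount n q v) ∨
        ((q v).1 < (q (pe n v)).1 ∧ (q (v + 1)).1 < (q v).1 ∧
          aboveAt n q (pe n v) x = aboveCount n q v ∧ aboveAt n q v y = aboveCount n q v) ∨
        ((q v).1 < (q (pe n v)).1 ∧ (q v).1 < (q (v + 1)).1 ∧
          aboveAt n q (pe n v) x = aboveCount n q v + (if 0 < turn n q v then 0 else 1) ∧
          aboveAt n q v y = aboveCount n q v + (if 0 < turn n q v then 1 else 0)) ∨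
        ((q (pe n v)).1 < (q v).1 ∧ (q (v + 1)).1 < (q v).1 ∧
          aboveAt n q (pe n v) x = aboveCount n q v + (if 0 < turn n q v then 1 else 0) ∧
          aboveAt n q v y = aboveCount n q v + (if 0 < turn n q v then 0 else 1))) := by
  classical
  obtain ⟨δ, hδ, hR, hL⟩ := exists_near h hv
  have hp := pe_fst_ne h hv
  have hs := (xne_succ h hv)
  have htn := turn_ne h hv
  have hsub := fun x : ℝ => ht_sub_ht (a := q (pe n v)) (b := q v) (c := q (v + 1)) (x := x) hp hs
  have hte := turn_eq h v
  have epe : ∀ x, ht (q (pe n v)) (q (pe n v + 1)) x = ht (q (pe n v)) (q v) x := by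
    intro x; rw [q_pe_succ h]
  have spe : ∀ x, Spans (q (pe n v)) (q (pe n v + 1)) x = Spans (q (pe n v)) (q v) x := by
    intro x; rw [q_pe_succ h]
  rcases lt_or_gt_of_ne hp with h1 | h1 <;> rcases lt_or_gt_of_ne hs with h2 | h2
  · -- through, to the right
    have h3 : (q (pe n v)).1 < (q v).1 - δ := by
      rcases near_left h hδ hL (pe_mod_ne h hv) with h3 | h3
      · exact h3
      · linarith
    have h4 : (q v).1 + δ < (q (v + 1)).1 := by
      rcases near_right h hδ hR (succ_mod_ne h hv) with h4 | h4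
      · linarith
      · exact h4
    have s1 : Spans (q (pe n v)) (q (pe n v + 1)) ((q v).1 - δ) := by
      rw [spe]; left; constructor <;> linarith
    have s2 : Spans (q v) (q (v + 1)) ((q v).1 + δ) := by
      left; constructor <;> linarith
    refine ⟨(q v).1 - δ, (q v).1 + δ, hL.generic, hR.generic, s1, s2, Or.inl ⟨h1, h2, ?_, ?_⟩⟩
    · rw [hL.aboveAt_eq h hv (Or.inr ⟨rfl, rfl⟩) s1, if_neg, add_zero]
      rintro ⟨(h5 | h5), _⟩ <;> linarith [h5.1, h5.2]
    · rw [hR.aboveAt_eq h hv (Or.inl ⟨rfl, rfl⟩) s2, if_neg, add_zero]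
      rw [spe]
      rintro ⟨(h5 | h5), _⟩ <;> linarith [h5.1, h5.2]
  · -- both neighbours to the left
    have h3 : (q (pe n v)).1 < (q v).1 - δ := by
      rcases near_left h hδ hL (pe_mod_ne h hv) with h3 | h3
      · exact h3
      · linarith
    have h4 : (q (v + 1)).1 < (q v).1 - δ := by
      rcases near_left h hδ hL (succ_mod_ne h hv) with h4 | h4
      · exact h4
      · linarith
    have s1 : Spans (q (pe n v)) (q (pe n v + 1)) ((q v).1 - δ) := by
      rw [spe]; left; constructor <;> linarith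
    have s2 : Spans (q v) (q (v + 1)) ((q v).1 - δ) := by
      right; constructor <;> linarith
    have hpos : 0 < ((q (pe n v)).1 - (q v).1) * ((q (v + 1)).1 - (q v).1) :=
      mul_pos_of_neg_of_neg (by linarith) (by linarith)
    have hlt : (ht (q (pe n v)) (q v) ((q v).1 - δ) < ht (q v) (q (v + 1)) ((q v).1 - δ)) ↔
        0 < turn n q v := by
      rw [← sub_neg, hsub, ← hte, div_neg_iff]
      constructor
      · rintro (h5 | h5)
        · linarith [h5.2]
        · have := h5.1
          have h6 : (q v).1 - δ - (q v).1 = -δ := by ring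
          rw [h6] at this
          nlinarith
      · intro h5
        right
        refine ⟨?_, hpos⟩
        have h6 : (q v).1 - δ - (q v).1 = -δ := by ring
        rw [h6]; nlinarith
    have hgt : (ht (q v) (q (v + 1)) ((q v).1 - δ) < ht (q (pe n v)) (q v) ((q v).1 - δ)) ↔
        ¬ 0 < turn n q v := by
      rw [← hlt, not_lt]
      constructor
      · exact le_of_lt
      · intro h5
        refine lt_of_le_of_ne h5 ?_
        intro h6
        have h7 := hsub ((q v).1 - δ)
        rw [h6, sub_self, ← hte] at h7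
        have h8 : (q v).1 - δ - (q v).1 = -δ := by ring
        rw [h8] at h7
        have h9 := (div_eq_zero_iff.mp h7.symm)
        rcases h9 with h9 | h9
        · rcases mul_eq_zero.mp h9 with h10 | h10
          · linarith
          · exact htn h10
        · exact absurd h9 (ne_of_gt hpos)
    refine ⟨(q v).1 - δ, (q v).1 - δ, hL.generic, hL.generic, s1, s2,
      Or.inr (Or.inr (Or.inr ⟨h1, h2, ?_, ?_⟩))⟩
    · rw [hL.aboveAt_eq h hv (Or.inr ⟨rfl, rfl⟩) s1, epe]
      congr 1
      by_cases ht0 : 0 < turn n q v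
      · rw [if_pos ⟨s2, hlt.mpr ht0⟩, if_pos ht0]
      · rw [if_neg (fun h5 => ht0 (hlt.mp h5.2)), if_neg ht0]
    · rw [hL.aboveAt_eq h hv (Or.inl ⟨rfl, rfl⟩) s2, epe]
      congr 1
      by_cases ht0 : 0 < turn n q v
      · rw [if_neg (fun h5 => hgt.mp h5.2 ht0), if_pos ht0]
      · rw [if_pos ⟨s1, hgt.mpr ht0⟩, if_neg ht0]
  · -- both neighbours to the right
    have h3 : (q v).1 + δ < (q (pe n v)).1 := by
      rcases near_right h hδ hR (pe_mod_ne h hv) with h3 | h3
      · linarith
      · exact h3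
    have h4 : (q v).1 + δ < (q (v + 1)).1 := by
      rcases near_right h hδ hR (succ_mod_ne h hv) with h4 | h4
      · linarith
      · exact h4
    have s1 : Spans (q (pe n v)) (q (pe n v + 1)) ((q v).1 + δ) := by
      rw [spe]; right; constructor <;> linarith
    have s2 : Spans (q v) (q (v + 1)) ((q v).1 + δ) := by
      left; constructor <;> linarith
    have hpos : 0 < ((q (pe n v)).1 - (q v).1) * ((q (v + 1)).1 - (q v).1) :=
      mul_pos (by linarith) (by linarith)
    have hgt : (ht (q v) (q (v + 1)) ((q v).1 + δ) < ht (q (pe n v)) (q v) ((q v).1 + δ)) ↔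
        0 < turn n q v := by
      rw [← sub_pos, hsub, ← hte, div_pos_iff]
      have h6 : (q v).1 + δ - (q v).1 = δ := by ring
      rw [h6]
      constructor
      · rintro (h5 | h5)
        · exact (mul_pos_iff_of_pos_left hδ).mp h5.1
        · linarith [h5.2]
      · intro h5
        exact Or.inl ⟨mul_pos hδ h5, hpos⟩
    have hlt : (ht (q (pe n v)) (q v) ((q v).1 + δ) < ht (q v) (q (v + 1)) ((q v).1 + δ)) ↔
        ¬ 0 < turn n q v := by
      rw [← hgt, not_lt]
      constructor
      · exact le_of_lt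
      · intro h5
        refine lt_of_le_of_ne h5 ?_
        intro h6
        have h7 := hsub ((q v).1 + δ)
        rw [h6, sub_self, ← hte] at h7
        have h8 : (q v).1 + δ - (q v).1 = δ := by ring
        rw [h8] at h7
        have h9 := (div_eq_zero_iff.mp h7.symm)
        rcases h9 with h9 | h9
        · rcases mul_eq_zero.mp h9 with h10 | h10
          · linarith
          · exact htn h10
        · exact absurd h9 (ne_of_gt hpos)
    refine ⟨(q v).1 + δ, (q v).1 + δ, hR.generic, hR.generic, s1, s2,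
      Or.inr (Or.inr (Or.inl ⟨h1, h2, ?_, ?_⟩))⟩
    · rw [hR.aboveAt_eq h hv (Or.inr ⟨rfl, rfl⟩) s1, epe]
      congr 1
      by_cases ht0 : 0 < turn n q v
      · rw [if_neg (fun h5 => hlt.mp h5.2 ht0), if_pos ht0]
      · rw [if_pos ⟨s2, hlt.mpr ht0⟩, if_neg ht0]
    · rw [hR.aboveAt_eq h hv (Or.inl ⟨rfl, rfl⟩) s2, epe]
      congr 1
      by_cases ht0 : 0 < turn n q v
      · rw [if_pos ⟨s1, hgt.mpr ht0⟩, if_pos ht0]
      · rw [if_neg (fun h5 => ht0 (hgt.mp h5.2)), if_neg ht0]
  · -- through, to the left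
    have h3 : (q v).1 + δ < (q (pe n v)).1 := by
      rcases near_right h hδ hR (pe_mod_ne h hv) with h3 | h3
      · linarith
      · exact h3
    have h4 : (q (v + 1)).1 < (q v).1 - δ := by
      rcases near_left h hδ hL (succ_mod_ne h hv) with h4 | h4
      · exact h4
      · linarith
    have s1 : Spans (q (pe n v)) (q (pe n v + 1)) ((q v).1 + δ) := by
      rw [spe]; right; constructor <;> linarith
    have s2 : Spans (q v) (q (v + 1)) ((q v).1 - δ) := by
      right; constructor <;> linarith
    refine ⟨(q v).1 + δ, (q v).1 - δ, hR.generic, hL.generic, s1, s2,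
      Or.inr (Or.inl ⟨h1, h2, ?_, ?_⟩)⟩
    · rw [hR.aboveAt_eq h hv (Or.inr ⟨rfl, rfl⟩) s1, if_neg, add_zero]
      rintro ⟨(h5 | h5), _⟩ <;> linarith [h5.1, h5.2]
    · rw [hL.aboveAt_eq h hv (Or.inl ⟨rfl, rfl⟩) s2, if_neg, add_zero]
      rw [spe]
      rintro ⟨(h5 | h5), _⟩ <;> linarith [h5.1, h5.2]

/-- The parity of the number of edges above an edge is the same at all generic abscissas. -/
lemma parity_const' (h : Pg n q) {i : ℕ} (hi : i < n) {x x' : ℝ}
    (hx : ∀ k, k < n → (q k).1 ≠ x) (hx' : ∀ k, k < n → (q k).1 ≠ x')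
    (hs : Spans (q i) (q (i + 1)) x) (hs' : Spans (q i) (q (i + 1)) x') :
    (Odd (aboveAt n q i x) ↔ Odd (aboveAt n q i x')) := by
  rcases lt_trichotomy x x' with h1 | h1 | h1
  · exact parity_const h hi h1 hx hx' hs hs'
  · rw [h1]
  · exact (parity_const h hi h1 hx' hx hs' hs).symm

lemma aboveCount_zero (h : Pg n q) : aboveCount n q 0 = 0 := by
  classical
  unfold aboveCount
  rw [card_eq_zero, filter_eq_empty_iff]
  intro i _ h1
  have h2 : ∀ m, (q 0).1 ≤ (q m).1 := by
    intro m
    rw [← q_mod h m]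
    rcases Nat.eq_zero_or_pos (m % n) with h3 | h3
    · rw [h3]
    · exact (h.left _ h3 (Nat.mod_lt _ (pg_pos h))).le
  rcases h1.1 with h3 | h3
  · linarith [h2 i, h3.1]
  · linarith [h2 (i + 1), h3.1]

theorem alternation (h : Pg n q) {i : ℕ} (hi : i < n) {x : ℝ} (hx : ∀ k, k < n → (q k).1 ≠ x)
    (hs : Spans (q i) (q (i + 1)) x) :
    (q i).1 < (q (i + 1)).1 ↔ (0 < turn n q 0 ↔ Odd (aboveAt n q i x)) := by
  induction i generalizing x with
  | zero =>
    obtain ⟨x0, y0, hx0, hy0, sx0, sy0, hd⟩ := vertex_data h (pg_pos h)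
    have h3 := h.three
    have hl1 : (q 0).1 < (q 1).1 := h.left 1 (by norm_num) (by omega)
    have hl2 : (q 0).1 < (q (pe n 0)).1 := h.left _ (by unfold pe; simp; omega) (pe_lt h (pg_pos h))
    rw [parity_const' h hi hx hy0 hs sy0]
    simp only [zero_add] at hd hl1 ⊢
    rw [aboveCount_zero h] at hd
    rcases hd with ⟨h4, _⟩ | ⟨_, h4, _⟩ | ⟨_, _, _, h4⟩ | ⟨h4, _⟩
    · linarith
    · linarith
    · rw [h4]
      by_cases ht0 : 0 < turn n q 0
      · simp [ht0, hl1]
      · simp [ht0, hl1]
    · linarith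
  | succ i ih =>
    have hi' : i < n := by omega
    obtain ⟨x0, y0, hx0, hy0, sx0, sy0, hd⟩ := vertex_data h hi
    have hpe : pe n (i + 1) = i := by unfold pe; simp
    rw [hpe] at sx0 hd
    have ih' := ih hi' hx0 sx0
    rw [parity_const' h hi hx hy0 hs sy0]
    have hsucc := xne_succ h hi'
    have hsucc' := xne_succ h hi
    rcases hd with ⟨h4, h5, h6, h7⟩ | ⟨h4, h5, h6, h7⟩ | ⟨h4, h5, h6, h7⟩ | ⟨h4, h5, h6, h7⟩
    · rw [h6] at ih'; rw [h7]; simp only [h4, h5, true_iff] at ih' ⊢; exact ih'
    · rw [h6] at ih'; rw [h7]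
      have h4' := not_lt.mpr h4.le
      have h5' := not_lt.mpr h5.le
      simp only [h4', h5', false_iff] at ih' ⊢; exact ih'
    · rw [h6] at ih'; rw [h7]
      have h4' := not_lt.mpr h4.le
      simp only [h4', h5, false_iff, true_iff] at ih' ⊢
      by_cases ht0 : 0 < turn n q (i + 1)
      · simp only [ht0, if_true, add_zero, Nat.odd_add_one] at ih' ⊢
        tauto
      · simp only [ht0, if_false, add_zero, Nat.odd_add_one] at ih' ⊢
        tauto
    · rw [h6] at ih'; rw [h7]
      have h5' := not_lt.mpr h5.le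
      simp only [h4, h5', false_iff, true_iff] at ih' ⊢
      by_cases ht0 : 0 < turn n q (i + 1)
      · simp only [ht0, if_true, add_zero, Nat.odd_add_one] at ih' ⊢
        tauto
      · simp only [ht0, if_false, add_zero, Nat.odd_add_one] at ih' ⊢
        tauto

theorem parity_right (h : Pg n q) {k : ℕ} (hk : k < n) (h1 : (q (k + (n - 1))).1 < (q k).1)
    (h2 : (q k).1 < (q (k + 1)).1) : 0 < turn n q 0 ↔ Odd (aboveCount n q k) := by
  obtain ⟨x0, y0, hx0, hy0, sx0, sy0, hd⟩ := vertex_data h hk
  have ha := alternation h hk hy0 sy0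
  rw [← q_pe h] at h1
  rcases hd with ⟨h4, h5, h6, h7⟩ | ⟨h4, h5, h6, h7⟩ | ⟨h4, h5, h6, h7⟩ | ⟨h4, h5, h6, h7⟩
  · rw [h7] at ha; tauto
  all_goals linarith

theorem parity_left (h : Pg n q) {k : ℕ} (hk : k < n) (h1 : (q k).1 < (q (k + (n - 1))).1)
    (h2 : (q (k + 1)).1 < (q k).1) : 0 < turn n q 0 ↔ Even (aboveCount n q k) := by
  obtain ⟨x0, y0, hx0, hy0, sx0, sy0, hd⟩ := vertex_data h hk
  have ha := alternation h hk hy0 sy0
  rw [← q_pe h] at h1
  rcases hd with ⟨h4, h5, h6, h7⟩ | ⟨h4, h5, h6, h7⟩ | ⟨h4, h5, h6, h7⟩ | ⟨h4, h5, h6, h7⟩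
  · linarith
  · rw [h7] at ha
    rw [← Nat.not_odd_iff_even]
    have := not_lt.mpr h5.le
    tauto
  all_goals linarith

theorem parity_ext (h : Pg n q) {k : ℕ} (hk : k < n) (he : Ext n q k) :
    0 < turn n q 0 * turn n q k ↔ Even (aboveCount n q k) := by
  obtain ⟨x0, y0, hx0, hy0, sx0, sy0, hd⟩ := vertex_data h hk
  have ha := alternation h hk hy0 sy0
  have ht0 := turn_ne h (pg_pos h)
  have htk := turn_ne h hk
  unfold Ext at he
  rw [← q_pe h] at he
  have hmul : (0 < turn n q 0 * turn n q k) ↔ (0 < turn n q 0 ↔ 0 < turn n q k) := by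
    rcases lt_or_gt_of_ne ht0 with h1 | h1 <;> rcases lt_or_gt_of_ne htk with h2 | h2
    · have h3 := not_lt.mpr h1.le
      have h4 := not_lt.mpr h2.le
      have h5 := mul_pos_of_neg_of_neg h1 h2
      tauto
    · have h3 := not_lt.mpr h1.le
      have h4 : 0 < turn n q k := h2
      have h5 := not_lt.mpr (mul_neg_of_neg_of_pos h1 h2).le
      tauto
    · have h3 : 0 < turn n q 0 := h1
      have h4 := not_lt.mpr h2.le
      have h5 := not_lt.mpr (mul_neg_of_pos_of_neg h1 h2).le
      tauto
    · have h3 : 0 < turn n q 0 := h1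
      have h4 : 0 < turn n q k := h2
      have h5 := mul_pos h3 h4
      tauto
  rw [hmul, ← Nat.not_odd_iff_even]
  rcases hd with ⟨h4, h5, h6, h7⟩ | ⟨h4, h5, h6, h7⟩ | ⟨h4, h5, h6, h7⟩ | ⟨h4, h5, h6, h7⟩
  · rcases he with he | he <;> linarith [he.1, he.2]
  · rcases he with he | he <;> linarith [he.1, he.2]
  · rw [h7] at ha
    by_cases htk' : 0 < turn n q k
    · simp only [htk', if_true, Nat.odd_add_one] at ha ⊢
      tauto
    · simp only [htk', if_false, add_zero] at ha ⊢
      tauto
  · rw [h7] at ha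
    have h5' := not_lt.mpr h5.le
    by_cases htk' : 0 < turn n q k
    · simp only [htk', if_true, add_zero] at ha ⊢
      tauto
    · simp only [htk', if_false, Nat.odd_add_one] at ha ⊢
      tauto

end Pool.Agent.Lib.MP_9bb24e_co.PB
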