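import Pool.Agent.Lib.MP_9bb24e_co.Order

/-!
Turns at extremal vertices and the vertical order of the two edges.
-/

set_option autoImplicit false

namespace Pool.Agent.Lib.MP_9bb24e_co

open Finset

variable {n : ℕ} {q : ℕ → ℝ × ℝ}

/-- index of the edge entering vertex `k` -/
def pe (n k : ℕ) : ℕ := if k = 0 then n - 1 else k - 1

theorem pe_lt {k : ℕ} (hn : 0 < n) (hk : k < n) : pe n k < n := by
  unfold pe
  split_ifs <;> omega

theorem Pg.pe_succ (P : Pg n q) (k : ℕ) : q (pe n k + 1) = q k := by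
  have hn := P.three
  unfold pe
  split_ifs with h
  · rw [h, Nat.sub_add_cancel (by omega), P.q_n]
  · rw [Nat.sub_add_cancel (by omega)]

theorem Pg.q_pe (P : Pg n q) (k : ℕ) : q (k + (n - 1)) = q (pe n k) := by
  have hn := P.three
  unfold pe
  split_ifs with h
  · rw [h, zero_add]
  · have : k + (n - 1) = (k - 1) + n := by omega
    rw [this, P.per]

theorem pe_ne {k : ℕ} (hn : 3 ≤ n) : pe n k ≠ k := by
  unfold pe
  split_ifs <;> omega

theorem cross_left_iff {u v w : ℝ × ℝ} {x : ℝ} (h1 : v.1 < u.1) (h2 : v.1 < w.1) (h3 : v.1 < x) :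
    ht v w x < ht u v x ↔ 0 < cross u v w := by
  rw [ht_symm h1.ne']
  unfold ht cross
  have a1 : 0 < u.1 - v.1 := by linarith
  have a2 : 0 < w.1 - v.1 := by linarith
  have a3 : 0 < x - v.1 := by linarith
  have e1 : v.2 + (x - v.1) * (w.2 - v.2) / (w.1 - v.1) < v.2 + (x - v.1) * (u.2 - v.2) / (u.1 - v.1)
      ↔ (w.2 - v.2) / (w.1 - v.1) < (u.2 - v.2) / (u.1 - v.1) := by
    rw [mul_div_assoc, mul_div_assoc, add_lt_add_iff_left, mul_lt_mul_iff_right₀ a3]
  rw [e1, div_lt_div_iff₀ a2 a1]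
  constructor <;> intro h <;> nlinarith

theorem cross_right_iff {u v w : ℝ × ℝ} {x : ℝ} (h1 : u.1 < v.1) (h2 : w.1 < v.1) (h3 : x < v.1) :
    ht u v x < ht v w x ↔ 0 < cross u v w := by
  rw [ht_symm h1.ne, ht]
  unfold ht cross
  have a1 : 0 < v.1 - u.1 := by linarith
  have a2 : 0 < v.1 - w.1 := by linarith
  have a3 : 0 < v.1 - x := by linarith
  have e1 : v.2 + (x - v.1) * (u.2 - v.2) / (u.1 - v.1) < v.2 + (x - v.1) * (w.2 - v.2) / (w.1 - v.1)
      ↔ (u.2 - v.2) / (v.1 - u.1) < (w.2 - v.2) / (v.1 - w.1) := by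
    have f1 : (x - v.1) * (u.2 - v.2) / (u.1 - v.1) = (v.1 - x) * ((u.2 - v.2) / (v.1 - u.1)) := by
      have : u.1 - v.1 = -(v.1 - u.1) := by ring
      rw [this, div_neg]
      ring
    have f2 : (x - v.1) * (w.2 - v.2) / (w.1 - v.1) = (v.1 - x) * ((w.2 - v.2) / (v.1 - w.1)) := by
      have : w.1 - v.1 = -(v.1 - w.1) := by ring
      rw [this, div_neg]
      ring
    rw [f1, f2, add_lt_add_iff_left, mul_lt_mul_iff_right₀ a3]
  rw [e1, div_lt_div_iff₀ a1 a2]
  constructor <;> intro h <;> nlinarith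

theorem Pg.lo_eq {i : ℕ} (h : (q i).1 < (q (i + 1)).1) : elo q i = (q i).1 ∧ ehi q i = (q (i + 1)).1 :=
  ⟨min_eq_left h.le, max_eq_right h.le⟩

theorem Pg.lo_eq' {i : ℕ} (h : (q (i + 1)).1 < (q i).1) :
    elo q i = (q (i + 1)).1 ∧ ehi q i = (q i).1 :=
  ⟨min_eq_right h.le, max_eq_left h.le⟩

/-- At a vertex with both neighbours to its right, the polygon turns left iff the entering edge is
above the leaving edge. -/
theorem Pg.turn_pos_left (P : Pg n q) {k : ℕ} (hk : k < n)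
    (h1 : (q k).1 < (q (pe n k)).1) (h2 : (q k).1 < (q (k + 1)).1) :
    0 < turn n q k ↔ EOver q k (pe n k) := by
  have hn := P.three
  have hpe : pe n k < n := pe_lt (by omega) hk
  have e1 : q (pe n k + 1) = q k := P.pe_succ k
  obtain ⟨a1, a2⟩ := Pg.lo_eq h2
  obtain ⟨b1, b2⟩ := Pg.lo_eq' (q := q) (i := pe n k) (by rw [e1]; exact h1)
  rw [e1] at b1
  obtain ⟨x, hx1, hx2⟩ : ∃ x, (q k).1 < x ∧ x < min (q (pe n k)).1 (q (k + 1)).1 :=
    exists_between (lt_min h1 h2)
  rw [lt_min_iff] at hx2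
  rw [← P.over_iff hk hpe (t := x) (by rw [a1]; exact hx1.le) (by rw [a2]; exact hx2.2.le)
    (by rw [b1]; exact hx1.le) (by rw [b2]; exact hx2.1.le)
    (Or.inl ⟨by rw [a1]; exact hx1, by rw [a2]; exact hx2.2⟩)]
  unfold turn eht
  rw [P.q_pe, e1]
  exact (cross_left_iff h1 h2 hx1).symm

/-- At a vertex with both neighbours to its left, the polygon turns left iff the leaving edge is
above the entering edge. -/
theorem Pg.turn_pos_right (P : Pg n q) {k : ℕ} (hk : k < n)
    (h1 : (q (pe n k)).1 < (q k).1) (h2 : (q (k + 1)).1 < (q k).1) :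
    0 < turn n q k ↔ EOver q (pe n k) k := by
  have hn := P.three
  have hpe : pe n k < n := pe_lt (by omega) hk
  have e1 : q (pe n k + 1) = q k := P.pe_succ k
  obtain ⟨a1, a2⟩ := Pg.lo_eq' h2
  obtain ⟨b1, b2⟩ := Pg.lo_eq (q := q) (i := pe n k) (by rw [e1]; exact h1)
  rw [e1] at b2
  obtain ⟨x, hx1, hx2⟩ : ∃ x, max (q (pe n k)).1 (q (k + 1)).1 < x ∧ x < (q k).1 :=
    exists_between (max_lt h1 h2)
  rw [max_lt_iff] at hx1
  rw [← P.over_iff hpe hk (t := x) (by rw [b1]; exact hx1.1.le) (by rw [b2]; exact hx2.le)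
    (by rw [a1]; exact hx1.2.le) (by rw [a2]; exact hx2.le)
    (Or.inl ⟨by rw [b1]; exact hx1.1, by rw [b2]; exact hx2⟩)]
  unfold turn eht
  rw [P.q_pe, e1]
  exact (cross_right_iff h1 h2 hx2).symm

theorem Pg.pred_ne (P : Pg n q) {k : ℕ} (hk : k < n) : (q (pe n k)).1 ≠ (q k).1 := by
  have h := P.ne_succ (pe_lt (by have := P.three; omega) hk)
  rwa [P.pe_succ] at h

theorem Pg.turn_ne (P : Pg n q) {k : ℕ} (hk : k < n) : turn n q k ≠ 0 := by
  have hn := P.three
  unfold turn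
  rw [P.q_pe]
  have hpe : pe n k < n := pe_lt (by omega) hk
  rcases Nat.lt_or_ge (k + 1) n with h | h
  · refine P.gp _ hpe _ hk _ h (pe_ne hn) (by omega) ?_
    unfold pe
    split_ifs <;> omega
  · have e : k + 1 = n := by omega
    rw [e, P.q_n]
    refine P.gp _ hpe _ hk _ (by omega) (pe_ne hn) (by omega) ?_
    unfold pe
    split_ifs <;> omega

/-- the in-edge and the out-edge of an extremal vertex are comparable -/
theorem Pg.over_or_of_ext (P : Pg n q) {k : ℕ} (hk : k < n) (he : Ext n q k) :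
    EOver q k (pe n k) ∨ EOver q (pe n k) k := by
  have hn := P.three
  have hpe : pe n k < n := pe_lt (by omega) hk
  have e1 : q (pe n k + 1) = q k := P.pe_succ k
  unfold Ext at he
  rw [P.q_pe] at he
  refine P.over_or hk hpe (pe_ne hn).symm ?_ ?_
  · rcases he with ⟨h1, h2⟩ | ⟨h1, h2⟩
    · rw [(Pg.lo_eq h2).1]
      exact h1.trans_le (le_ehi_left _)
    · rw [(Pg.lo_eq' h2).1]
      refine h2.trans_le ?_
      rw [← e1]
      exact le_ehi_right _
  · rcases he with ⟨h1, h2⟩ | ⟨h1, h2⟩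
    · refine lt_of_le_of_lt ?_ (h2.trans_le (le_ehi_right _))
      rw [← e1]
      exact elo_le_right _
    · exact lt_of_le_of_lt (elo_le_left _) (h1.trans_le (le_ehi_left _))

/-- the incident edges of a vertex -/
theorem Pg.incident (P : Pg n q) {k j : ℕ} (hk : k < n) (hj : j < n)
    (h : (q j).1 = (q k).1 ∨ (q (j + 1)).1 = (q k).1) : j = k ∨ j = pe n k := by
  have hn := P.three
  rcases h with h | h
  · exact Or.inl (P.xinj _ hj _ hk h)
  · right
    rcases P.eq_of_succ hk hj h.symm with h1 | ⟨h1, h2⟩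
    · unfold pe
      rw [if_neg (by omega)]
      omega
    · unfold pe
      rw [if_pos h1]
      omega

end Pool.Agent.Lib.MP_9bb24e_co
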